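import Pool.Agent.GO3.D.Strip2

/-! Quantisation of the area of a wedge (part D5). -/

open MeasureTheory Filter Topology Set
open scoped ContDiff ComplexConjugate Interval

noncomputable section

namespace GO3.D

/-- continuity of the inner integral -/
theorem jp_cont {W : ℝ × ℝ → ℂ} {H : ℝ × ℝ → ℝ} (sW : ContDiff ℝ ∞ W) (sH : ContDiff ℝ ∞ H) :
    Continuous (jp W H) := by
  have h1 : ∀ v, Continuous fun p => fderiv ℝ W p v := fun v =>
    (sW.continuous_fderiv (by simp)).clm_apply continuous_const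
  have h2 : ∀ v, Continuous fun p => fderiv ℝ H p v := fun v =>
    (sH.continuous_fderiv (by simp)).clm_apply continuous_const
  have hW := sW.continuous
  have hH := sH.continuous
  unfold jp jac
  refine (((h2 _).mul ?_).sub ((h2 _).mul ?_)).add (hH.mul ?_)
  · exact Complex.continuous_im.comp ((Complex.continuous_conj.comp hW).mul (h1 _))
  · exact Complex.continuous_im.comp ((Complex.continuous_conj.comp hW).mul (h1 _))
  · exact Complex.continuous_im.comp ((Complex.continuous_conj.comp (h1 _)).mul (h1 _))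

/-- the lift exists on every arc -/
theorem exists_lift {W : ℝ × ℝ → ℂ} {H : ℝ × ℝ → ℝ} {α : ℝ} {κ : ℂ} (M : Mp W H α κ)
    (hW0 : ∀ χ, W (0, χ) = 0) (hH0 : ∀ χ, H (0, χ) = -1)
    (huc : ∀ R, 0 < R → ∃ η > 0, ∀ r0 ∈ Icc 0 R, ∀ r ∈ Ioo (r0 - η) (r0 + η), ∀ χ,
      0 < 1 + H (r, χ) * H (r0, χ) + (conj (W (r0, χ)) * W (r, χ)).re)
    {R : ℝ} (hR : 0 < R) :
    ∃ s1 s2, LiftAt W H α κ R s1 s2 ∧
      hol s1 s2 α = ∫ r in (0 : ℝ)..R, ∫ χ in (0 : ℝ)..α, 1 / 2 * jp W H (r, χ) := by
  obtain ⟨η, hη, hn⟩ := huc R hR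
  obtain ⟨n, hn1⟩ := exists_nat_gt (R / η)
  have hn0 : 0 < (n : ℝ) := lt_of_le_of_lt (by positivity) hn1
  have hstep : R / n < η := by
    rw [div_lt_iff₀ hn0]
    rw [div_lt_iff₀ hη] at hn1
    linarith
  have hcont : Continuous fun r => ∫ χ in (0 : ℝ)..α, 1 / 2 * jp W H (r, χ) := by
    apply intervalIntegral.continuous_parametric_intervalIntegral_of_continuous'
    have := jp_cont M.sW M.sH
    fun_prop
  have key : ∀ k : ℕ, k ≤ n → ∃ s1 s2, LiftAt W H α κ (k * (R / n)) s1 s2 ∧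
      hol s1 s2 α = ∫ r in (0 : ℝ)..(k * (R / n)), ∫ χ in (0 : ℝ)..α, 1 / 2 * jp W H (r, χ) := by
    intro k
    induction k with
    | zero =>
      intro _
      refine ⟨fun _ => 0, fun _ => 1, ⟨contDiff_const, contDiff_const, ?_, by simp, by simp,
        by simp, by simp⟩, ?_⟩
      · intro χ
        refine ⟨by simp, ?_, ?_⟩
        · simp [hW0 χ]
        · simp [hH0 χ]
      · simp [hol]
    | succ k ih =>
      intro hk
      obtain ⟨s1, s2, L, hh⟩ := ih (by omega)
      have hkn : (k : ℝ) ≤ n := by exact_mod_cast (by omega : k ≤ n)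
      have hr0 : (k : ℝ) * (R / n) ∈ Icc 0 R := by
        constructor
        · positivity
        · calc (k : ℝ) * (R / n) ≤ n * (R / n) := by gcongr
            _ = R := by field_simp
      have hr1 : ((k + 1 : ℕ) : ℝ) * (R / n) ∈ Ioo ((k : ℝ) * (R / n) - η) (k * (R / n) + η) := by
        push_cast
        have : 0 < R / n := by positivity
        constructor <;> nlinarith
      obtain ⟨t1, t2, L', hh'⟩ := strip M hη (hn _ hr0) L hr1
      refine ⟨t1, t2, L', ?_⟩
      rw [hh', hh]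
      exact intervalIntegral.integral_add_adjacent_intervals (hcont.intervalIntegrable _ _)
        (hcont.intervalIntegrable _ _)
  obtain ⟨s1, s2, L, hh⟩ := key n le_rfl
  have e : (n : ℝ) * (R / n) = R := by field_simp
  rw [e] at L hh
  exact ⟨s1, s2, L, hh⟩

/-- pointwise formula for the connection where `h > -1` -/
theorem hol_pt {s1 s2 w a b wd : ℂ} {h : ℝ} (H : Spin s1 s2 w h) (h1 : s1 ≠ 0)
    (hw : wd = 2 * (conj a * s2 + conj s1 * b)) :
    (conj s1 * a).im + (conj s2 * b).im = (a / s1).im + (conj w * wd).im / (2 * (1 + h)) := by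
  have hn : Complex.normSq s1 = (1 + h) / 2 := H.normSq_left
  have hpos : 0 < Complex.normSq s1 := Complex.normSq_pos.mpr h1
  have im_eq : ∀ z : ℂ, (z.im : ℂ) = (z - conj z) / (2 * Complex.I) := by
    intro z
    rw [Complex.sub_conj]
    field_simp
    push_cast
    ring
  have h1' : conj s1 ≠ 0 := (map_ne_zero _).mpr h1
  have e4 : (2 * (1 + h) : ℝ) = 4 * Complex.normSq s1 := by rw [hn]; ring
  have key : (((conj s1 * a).im + (conj s2 * b).im : ℝ) : ℂ) =
      (((a / s1).im + (conj w * wd).im / (2 * (1 + h)) : ℝ) : ℂ) := by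
    rw [e4]
    push_cast
    rw [im_eq, im_eq, im_eq, im_eq, Complex.normSq_eq_conj_mul_self, hw, H.hw]
    simp only [map_mul, map_add, map_div₀, Complex.conj_conj, map_ofNat]
    field_simp
    have hu := H.unit
    linear_combination (4 * (a * conj s1 - s1 * conj a)) * hu
  exact_mod_cast key

/-- **Quantisation**: the area of the wedge is `-2 α` modulo `2 π` up to the boundary term. -/
theorem area_quant {W : ℝ × ℝ → ℂ} {H : ℝ × ℝ → ℝ} {α : ℝ}
    (M : Mp W H α (Complex.exp (α * Complex.I))) (hα : 0 ≤ α)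
    (hW0 : ∀ χ, W (0, χ) = 0) (hH0 : ∀ χ, H (0, χ) = -1)
    (huc : ∀ R, 0 < R → ∃ η > 0, ∀ r0 ∈ Icc 0 R, ∀ r ∈ Ioo (r0 - η) (r0 + η), ∀ χ,
      0 < 1 + H (r, χ) * H (r0, χ) + (conj (W (r0, χ)) * W (r, χ)).re)
    {R : ℝ} (hR : 0 < R) (hpos : ∀ χ ∈ Icc 0 α, -1 < H (R, χ)) :
    ∃ k : ℤ, (∫ r in (0 : ℝ)..R, ∫ χ in (0 : ℝ)..α, jp W H (r, χ)) = -2 * α + 2 * Real.pi * k +
      ∫ χ in (0 : ℝ)..α, (conj (W (R, χ)) * fderiv ℝ W (R, χ) (0, 1)).im / (1 + H (R, χ)) := by
  obtain ⟨s1, s2, L, hh⟩ := exists_lift M hW0 hH0 huc hR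
  have hne : ∀ χ ∈ Icc 0 α, s1 χ ≠ 0 := by
    intro χ hχ h0
    have h1 := (L.sp χ).normSq_left
    rw [h0, map_zero] at h1
    have := hpos χ hχ
    linarith
  have c1 : Continuous s1 := L.c1.continuous
  have dc1 : Continuous (deriv s1) := L.c1.continuous_deriv (by simp)
  have dc2 : Continuous (deriv s2) := L.c2.continuous_deriv (by simp)
  have d1 : ∀ χ, HasDerivAt s1 (deriv s1 χ) χ := fun χ =>
    (L.c1.differentiable (by simp) χ).hasDerivAt
  have d2 : ∀ χ, HasDerivAt s2 (deriv s2 χ) χ := fun χ =>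
    (L.c2.differentiable (by simp) χ).hasDerivAt
  have hconj : ∀ {f : ℝ → ℂ} {f' : ℂ} {x : ℝ}, HasDerivAt f f' x →
      HasDerivAt (fun y => conj (f y)) (conj f') x := fun hf =>
    (Complex.conjCLE : ℂ →L[ℝ] ℂ).hasFDerivAt.comp_hasDerivAt _ hf
  set f : ℝ → ℂ := fun χ => deriv s1 χ / s1 χ with hf
  have cf : ContinuousOn f (Icc 0 α) := dc1.continuousOn.div c1.continuousOn hne
  have mf : StronglyMeasurable f := (dc1.measurable.div c1.measurable).stronglyMeasurable
  have hprim : ∀ x ∈ Icc 0 α, HasDerivAt (fun u => ∫ χ in (0 : ℝ)..u, f χ) (f x) x := by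
    intro x hx
    have hint : IntervalIntegrable f volume 0 x :=
      (cf.mono (Icc_subset_Icc_right hx.2)).intervalIntegrable_of_Icc hx.1
    exact intervalIntegral.integral_hasDerivAt_right hint mf.stronglyMeasurableAtFilter
      (dc1.continuousAt.div c1.continuousAt (hne x hx))
  -- the exponential formula
  set I : ℂ := ∫ χ in (0 : ℝ)..α, f χ with hI
  have hexp : s1 α = s1 0 * Complex.exp I := by
    have hD : ∀ x ∈ Icc 0 α, HasDerivAt (fun x => s1 x * Complex.exp (-∫ χ in (0 : ℝ)..x, f χ))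
        0 x := by
      intro x hx
      have h2 : HasDerivAt (fun x => s1 x * Complex.exp (-∫ χ in (0 : ℝ)..x, f χ))
          (deriv s1 x * Complex.exp (-∫ χ in (0 : ℝ)..x, f χ) +
            s1 x * (Complex.exp (-∫ χ in (0 : ℝ)..x, f χ) * -f x)) x :=
        (d1 x).mul (hprim x hx).neg.cexp
      have h3 : deriv s1 x * Complex.exp (-∫ χ in (0 : ℝ)..x, f χ) +
            s1 x * (Complex.exp (-∫ χ in (0 : ℝ)..x, f χ) * -f x) = 0 := by
        have h4 : s1 x * f x = deriv s1 x := by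
          simp only [hf]
          rw [mul_div_cancel₀ _ (hne x hx)]
        linear_combination (-Complex.exp (-∫ χ in (0 : ℝ)..x, f χ)) * h4
      rwa [h3] at h2
    have hcon := constant_of_has_deriv_right_zero
      (f := fun x => s1 x * Complex.exp (-∫ χ in (0 : ℝ)..x, f χ)) (a := 0) (b := α)
      (fun x hx => (hD x hx).continuousAt.continuousWithinAt)
      (fun x hx => (hD x ⟨hx.1, hx.2.le⟩).hasDerivWithinAt)
    have h2 := hcon α ⟨hα, le_rfl⟩
    have h3 : s1 α * Complex.exp (-I) = s1 0 := by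
      simpa using h2
    rw [← h3, mul_assoc, ← Complex.exp_add]
    simp
  -- the phase
  have hs0 : s1 0 ≠ 0 := hne 0 ⟨le_rfl, hα⟩
  have hs0' : s1 0 = ((s1 0).re : ℂ) := by
    apply Complex.ext
    · simp
    · simpa using L.z1
  have hre0 : (s1 0).re ≠ 0 := by
    intro h
    apply hs0
    rw [hs0', h]
    simp
  have hsin : Real.sin (α + I.im) = 0 := by
    have h2 := L.a1
    rw [hexp, hs0'] at h2
    have e : Complex.exp (α * Complex.I) * (((s1 0).re : ℂ) * Complex.exp I) =
        (((s1 0).re : ℝ) : ℂ) * Complex.exp ((I.re : ℂ) + ((α + I.im : ℝ) : ℂ) * Complex.I) := by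
      rw [mul_left_comm, ← Complex.exp_add]
      congr 2
      conv_lhs => rw [← Complex.re_add_im I]
      push_cast
      ring
    have e2 : Complex.exp (I.re : ℂ) = ((Real.exp I.re : ℝ) : ℂ) := (Complex.ofReal_exp _).symm
    rw [e, Complex.exp_add, e2, ← mul_assoc, ← Complex.ofReal_mul, Complex.im_ofReal_mul,
      Complex.exp_ofReal_mul_I_im] at h2
    rcases mul_eq_zero.mp h2 with h3 | h3
    · exact absurd h3 (mul_ne_zero hre0 (Real.exp_pos _).ne')
    · exact h3
  obtain ⟨k, hk⟩ := Real.sin_eq_zero_iff.mp hsin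
  have hpt : ∀ χ ∈ Icc 0 α, (conj (s1 χ) * deriv s1 χ).im + (conj (s2 χ) * deriv s2 χ).im =
      (f χ).im + 1 / 2 * ((conj (W (R, χ)) * fderiv ℝ W (R, χ) (0, 1)).im /
        (1 + H (R, χ))) := by
    intro χ hχ
    have hWd : fderiv ℝ W (R, χ) (0, 1) =
        2 * (conj (deriv s1 χ) * s2 χ + conj (s1 χ) * deriv s2 χ) := by
      have hc : HasDerivAt (fun x : ℝ => ((R, x) : ℝ × ℝ)) (0, 1) χ :=
        (hasDerivAt_const χ R).prodMk (hasDerivAt_id χ)
      have h2 : HasDerivAt (fun x => W (R, x)) (fderiv ℝ W (R, χ) (0, 1)) χ :=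
        (M.sW.differentiable (by simp) (R, χ)).hasFDerivAt.comp_hasDerivAt χ hc
      have h3 : HasDerivAt (fun x => W (R, x))
          (2 * (conj (deriv s1 χ) * s2 χ + conj (s1 χ) * deriv s2 χ)) χ := by
        have h4 := ((hconj (d1 χ)).mul (d2 χ)).const_mul (2 : ℂ)
        have h5 : (fun x => W (R, x)) = fun x => 2 * (conj (s1 x) * s2 x) := by
          funext x
          exact (L.sp x).hw
        rw [h5]
        exact h4
      exact h2.unique h3
    rw [hol_pt (L.sp χ) (hne χ hχ) hWd]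
    have : (1 + H (R, χ)) ≠ 0 := by
      have := hpos χ hχ
      linarith
    simp only [hf]
    field_simp
  have hIim : I.im = ∫ χ in (0 : ℝ)..α, (f χ).im := by
    have hint : IntervalIntegrable f volume 0 α := cf.intervalIntegrable_of_Icc hα
    exact (Complex.imCLM.intervalIntegral_comp_comm hint).symm
  have hcW : Continuous fun χ => (conj (W (R, χ)) * fderiv ℝ W (R, χ) (0, 1)).im := by
    have h1 : Continuous fun χ : ℝ => ((R, χ) : ℝ × ℝ) := by fun_prop
    have h2 : Continuous fun p => fderiv ℝ W p (0, 1) :=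
      (M.sW.continuous_fderiv (by simp)).clm_apply continuous_const
    exact Complex.continuous_im.comp ((Complex.continuous_conj.comp
      (M.sW.continuous.comp h1)).mul (h2.comp h1))
  have hcq : ContinuousOn (fun χ => (conj (W (R, χ)) * fderiv ℝ W (R, χ) (0, 1)).im /
      (1 + H (R, χ))) (Icc 0 α) := by
    refine hcW.continuousOn.div ?_ ?_
    · have h1 : Continuous fun χ : ℝ => ((R, χ) : ℝ × ℝ) := by fun_prop
      exact (continuous_const.add (M.sH.continuous.comp h1)).continuousOn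
    · intro χ hχ
      have := hpos χ hχ
      linarith
  have hhol : hol s1 s2 α = I.im + 1 / 2 * ∫ χ in (0 : ℝ)..α,
      (conj (W (R, χ)) * fderiv ℝ W (R, χ) (0, 1)).im / (1 + H (R, χ)) := by
    unfold hol
    rw [intervalIntegral.integral_congr (g := fun χ => (f χ).im + 1 / 2 *
      ((conj (W (R, χ)) * fderiv ℝ W (R, χ) (0, 1)).im / (1 + H (R, χ)))) fun χ hχ => hpt χ (by
        rwa [uIcc_of_le hα] at hχ)]
    rw [intervalIntegral.integral_add, hIim, intervalIntegral.integral_const_mul]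
    · exact (Complex.continuous_im.comp_continuousOn cf).intervalIntegrable_of_Icc hα
    · exact (continuousOn_const.mul hcq).intervalIntegrable_of_Icc hα
  have hfin : (∫ r in (0 : ℝ)..R, ∫ χ in (0 : ℝ)..α, jp W H (r, χ)) = 2 * hol s1 s2 α := by
    rw [hh]
    simp only [intervalIntegral.integral_const_mul]
    ring
  refine ⟨k, ?_⟩
  rw [hfin, hhol]
  have : I.im = k * Real.pi - α := by linarith
  rw [this]
  ring

end GO3.D
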