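import Pool.Agent.GO3.Rd
import Pool.Agent.GO3.D.Hol

/-! GO3 / D / Jal: algebra of the degree density (part D, helper85).

`JA` is the formula of `J` with covariant derivatives; `D_j φ = ∂_j φ - A_j n × φ`, `(n × φ) × φ = h φ - n`, so
`J_A = J + A_2 ∂_1 h - A_1 ∂_2 h` when `|φ| = 1` (uses `φ · ∂_j φ = 0`: differentiate `unit`, compare `Adm.tan`).
In the radial gauge `A_2 ∂_1 h - A_1 ∂_2 h = G (x ∂_1 h + y ∂_2 h)`. -/

open MeasureTheory Filter Topology Set
open scoped ContDiff Real ComplexConjugate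

noncomputable section

namespace GO3

namespace Cf

/-- the gauge invariant degree density -/
def JA (c : Cf) (z : ℂ) : ℝ :=
  (c.w z).re * ((c.Dw z 1).im * c.dh z Complex.I - c.dh z 1 * (c.Dw z Complex.I).im)
    + (c.w z).im * (c.dh z 1 * (c.Dw z Complex.I).re - (c.Dw z 1).re * c.dh z Complex.I)
    + c.h z * ((c.Dw z 1).re * (c.Dw z Complex.I).im - (c.Dw z 1).im * (c.Dw z Complex.I).re)

variable {c : Cf} {n : ℕ}

theorem J_eq (hc : c.Adm n) (z : ℂ) : c.J z = c.JA z -
    (ip (c.A z) Complex.I * c.dh z 1 - ip (c.A z) 1 * c.dh z Complex.I) := by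
  have hu := hc.unit z
  have t1 := hc.tan z 1
  have t2 := hc.tan z Complex.I
  rw [Complex.sq_norm, Complex.normSq_apply] at hu
  unfold JA J
  unfold Dw dh at *
  generalize ip (c.A z) 1 = A1 at *
  generalize ip (c.A z) Complex.I = A2 at *
  generalize fderiv ℝ c.w z 1 = w1 at *
  generalize fderiv ℝ c.w z Complex.I = w2 at *
  generalize fderiv ℝ c.h z 1 = h1 at *
  generalize fderiv ℝ c.h z Complex.I = h2 at *
  generalize c.w z = w at *
  generalize c.h z = h at *
  simp only [Complex.star_def, Complex.mul_re, Complex.mul_im, Complex.sub_re, Complex.sub_im,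
    Complex.conj_re, Complex.conj_im, Complex.I_re, Complex.I_im, Complex.ofReal_re,
    Complex.ofReal_im] at t1 t2 ⊢
  linear_combination (-A2 * h1 + A1 * h2) * hu + h * A2 * t1 - h * A1 * t2

private theorem jal_lin {E : Type*} [NormedAddCommGroup E] [NormedSpace ℝ E] (L : ℂ →L[ℝ] E) (v : ℂ) :
    L v = v.re • L 1 + v.im • L Complex.I := by
  have h : v = v.re • (1 : ℂ) + v.im • Complex.I := by
    apply Complex.ext <;> simp
  conv_lhs => rw [h]
  rw [map_add, map_smul, map_smul]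

private theorem pt_re (r χ : ℝ) : (pt r χ).re = r * Real.cos χ := by
  rw [pt_eq]
  unfold er
  rw [Complex.re_ofReal_mul, Complex.exp_ofReal_mul_I_re]

private theorem pt_im (r χ : ℝ) : (pt r χ).im = r * Real.sin χ := by
  rw [pt_eq]
  unfold er
  rw [Complex.im_ofReal_mul, Complex.exp_ofReal_mul_I_im]

private theorem er_re (χ : ℝ) : (er χ).re = Real.cos χ := by
  unfold er
  rw [Complex.exp_ofReal_mul_I_re]

private theorem er_im (χ : ℝ) : (er χ).im = Real.sin χ := by
  unfold er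
  rw [Complex.exp_ofReal_mul_I_im]

/-- radial gauge: `J = J_A - (b/r) ∂_r h`, multiplied by `r` -/
theorem J_pt (hc : c.Adm n) (hr : c.Rad) (r χ : ℝ) :
    r * c.J (pt r χ) = r * c.JA (pt r χ) - c.b r χ * c.dh (pt r χ) (er χ) := by
  obtain ⟨G, -, hG⟩ := hr
  rw [J_eq hc]
  have e1 : c.dh (pt r χ) (er χ) = Real.cos χ * c.dh (pt r χ) 1 + Real.sin χ * c.dh (pt r χ) Complex.I := by
    unfold dh
    rw [jal_lin _ (er χ), er_re, er_im]
    simp
  have e2 := Real.sin_sq_add_cos_sq χ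
  rw [e1]
  unfold b ip
  rw [hG]
  simp only [Complex.mul_re, Complex.mul_im, Complex.I_re, Complex.I_im, Complex.ofReal_re,
    Complex.ofReal_im, Complex.one_re, Complex.one_im, pt_re, pt_im]
  linear_combination (r ^ 2 * G (pt r χ) * (Real.cos χ * c.dh (pt r χ) 1 +
    Real.sin χ * c.dh (pt r χ) Complex.I)) * e2

private theorem triple_le {x y h a b t p q s : ℝ} (hu : x * x + y * y + h ^ 2 = 1) :
    |x * (b * s - t * q) + y * (t * p - a * s) + h * (a * q - b * p)| ≤
      1 / 2 * ((a * a + b * b + t ^ 2) + (p * p + q * q + s ^ 2)) := by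
  rw [abs_le]
  constructor
  · have e : 1 / 2 * ((a * a + b * b + t ^ 2) + (p * p + q * q + s ^ 2)) +
        (x * (b * s - t * q) + y * (t * p - a * s) + h * (a * q - b * p)) =
        1 / 2 * ((a - (y * s - h * q)) ^ 2 + (b - (h * p - x * s)) ^ 2 +
          (t - (x * q - y * p)) ^ 2 + (x * p + y * q + h * s) ^ 2) := by
      linear_combination (-1 / 2 * (p * p + q * q + s ^ 2)) * hu
    nlinarith [sq_nonneg (a - (y * s - h * q)), sq_nonneg (b - (h * p - x * s)),
      sq_nonneg (t - (x * q - y * p)), sq_nonneg (x * p + y * q + h * s)]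
  · have e : 1 / 2 * ((a * a + b * b + t ^ 2) + (p * p + q * q + s ^ 2)) -
        (x * (b * s - t * q) + y * (t * p - a * s) + h * (a * q - b * p)) =
        1 / 2 * ((a + (y * s - h * q)) ^ 2 + (b + (h * p - x * s)) ^ 2 +
          (t + (x * q - y * p)) ^ 2 + (x * p + y * q + h * s) ^ 2) := by
      linear_combination (-1 / 2 * (p * p + q * q + s ^ 2)) * hu
    nlinarith [sq_nonneg (a + (y * s - h * q)), sq_nonneg (b + (h * p - x * s)),
      sq_nonneg (t + (x * q - y * p)), sq_nonneg (x * p + y * q + h * s)]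

theorem JA_le (hc : c.Adm n) (z : ℂ) : |c.JA z| ≤ 1 / 2 * c.grad z := by
  have hu := hc.unit z
  rw [Complex.sq_norm, Complex.normSq_apply] at hu
  have h := triple_le (a := (c.Dw z 1).re) (b := (c.Dw z 1).im) (t := c.dh z 1)
    (p := (c.Dw z Complex.I).re) (q := (c.Dw z Complex.I).im) (s := c.dh z Complex.I) hu
  unfold JA grad nsq
  rw [Complex.sq_norm, Complex.sq_norm, Complex.normSq_apply, Complex.normSq_apply]
  exact h

theorem J_cont (hc : c.Adm n) : Continuous c.J := by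
  have h1 : ∀ v : ℂ, Continuous fun z => fderiv ℝ c.w z v := fun v =>
    (hc.sw.continuous_fderiv (by simp)).clm_apply continuous_const
  have h2 : ∀ v : ℂ, Continuous fun z => fderiv ℝ c.h z v := fun v =>
    (hc.sh.continuous_fderiv (by simp)).clm_apply continuous_const
  have h3 := hc.sw.continuous
  have h4 := hc.sh.continuous
  have a1 := h1 1
  have a2 := h1 Complex.I
  have b1 := h2 1
  have b2 := h2 Complex.I
  have r1 := Complex.continuous_re
  have r2 := Complex.continuous_im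
  unfold J
  exact (((r1.comp h3).mul (((r2.comp a1).mul b2).sub (b1.mul (r2.comp a2)))).add
    ((r2.comp h3).mul ((b1.mul (r1.comp a2)).sub ((r1.comp a1).mul b2)))).add
    (h4.mul (((r1.comp a1).mul (r2.comp a2)).sub ((r2.comp a1).mul (r1.comp a2))))

theorem JA_cont (hc : c.Adm n) : Continuous c.JA := by
  have h1 : ∀ v : ℂ, Continuous fun z => c.Dw z v := fun v =>
    hc.contDiff_Dw.continuous.comp (continuous_id.prodMk continuous_const)
  have h2 : ∀ v : ℂ, Continuous fun z => c.dh z v := fun v =>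
    hc.contDiff_dh.continuous.comp (continuous_id.prodMk continuous_const)
  have h3 := hc.sw.continuous
  have h4 := hc.sh.continuous
  have a1 := h1 1
  have a2 := h1 Complex.I
  have b1 := h2 1
  have b2 := h2 Complex.I
  have r1 := Complex.continuous_re
  have r2 := Complex.continuous_im
  unfold JA
  exact (((r1.comp h3).mul (((r2.comp a1).mul b2).sub (b1.mul (r2.comp a2)))).add
    ((r2.comp h3).mul ((b1.mul (r1.comp a2)).sub ((r1.comp a1).mul b2)))).add
    (h4.mul (((r1.comp a1).mul (r2.comp a2)).sub ((r2.comp a1).mul (r1.comp a2))))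

/-- the degree density in a frame -/
def J2 (c : Cf) (z u v : ℂ) : ℝ :=
  D.jac (c.w z) (fderiv ℝ c.w z u) (fderiv ℝ c.w z v) (c.h z) (fderiv ℝ c.h z u) (fderiv ℝ c.h z v)

theorem J2_eq (c : Cf) (z u v : ℂ) : c.J2 z u v = (u.re * v.im - u.im * v.re) * c.J z := by
  unfold J2 J D.jac
  rw [jal_lin (fderiv ℝ c.w z) u, jal_lin (fderiv ℝ c.w z) v, jal_lin (fderiv ℝ c.h z) u,
    jal_lin (fderiv ℝ c.h z) v]
  generalize fderiv ℝ c.w z 1 = w1
  generalize fderiv ℝ c.w z Complex.I = w2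
  generalize fderiv ℝ c.h z 1 = h1
  generalize fderiv ℝ c.h z Complex.I = h2
  simp only [Complex.real_smul, smul_eq_mul, Complex.mul_re, Complex.mul_im, Complex.add_re,
    Complex.add_im, Complex.conj_re, Complex.conj_im, Complex.ofReal_re, Complex.ofReal_im]
  ring

private theorem fd_r {f : ℂ → ℂ} (hf : ContDiff ℝ ∞ f) (r χ : ℝ) :
    fderiv ℝ (fun p : ℝ × ℝ => f (pt p.1 p.2)) (r, χ) (1, 0) = fderiv ℝ f (pt r χ) (er χ) ∧
    fderiv ℝ (fun p : ℝ × ℝ => f (pt p.1 p.2)) (r, χ) (0, 1) =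
      fderiv ℝ f (pt r χ) (Complex.I * pt r χ) := by
  have hF : DifferentiableAt ℝ (fun p : ℝ × ℝ => f (pt p.1 p.2)) (r, χ) :=
    ((hf.comp contDiff_pt).differentiable (by simp)) _
  have hfd := ((hf.differentiable (by simp)) (pt r χ)).hasFDerivAt
  constructor
  · have h1 : HasDerivAt (fun x : ℝ => ((x, χ) : ℝ × ℝ)) ((1, 0) : ℝ × ℝ) r :=
      (hasDerivAt_id r).prodMk (hasDerivAt_const r χ)
    have h2 := hF.hasFDerivAt.comp_hasDerivAt (f := fun x : ℝ => ((x, χ) : ℝ × ℝ)) r h1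
    have h3 := HasFDerivAt.comp_hasDerivAt (f := fun r => pt r χ) r hfd (hasDerivAt_pt_r r χ)
    exact h2.unique h3
  · have h1 : HasDerivAt (fun x : ℝ => ((r, x) : ℝ × ℝ)) ((0, 1) : ℝ × ℝ) χ :=
      (hasDerivAt_const χ r).prodMk (hasDerivAt_id χ)
    have h2 := hF.hasFDerivAt.comp_hasDerivAt (f := fun x : ℝ => ((r, x) : ℝ × ℝ)) χ h1
    have h3 := HasFDerivAt.comp_hasDerivAt (f := fun χ => pt r χ) χ hfd (hasDerivAt_pt_chi r χ)
    exact h2.unique h3

private theorem fd_r' {f : ℂ → ℝ} (hf : ContDiff ℝ ∞ f) (r χ : ℝ) :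
    fderiv ℝ (fun p : ℝ × ℝ => f (pt p.1 p.2)) (r, χ) (1, 0) = fderiv ℝ f (pt r χ) (er χ) ∧
    fderiv ℝ (fun p : ℝ × ℝ => f (pt p.1 p.2)) (r, χ) (0, 1) =
      fderiv ℝ f (pt r χ) (Complex.I * pt r χ) := by
  have hF : DifferentiableAt ℝ (fun p : ℝ × ℝ => f (pt p.1 p.2)) (r, χ) :=
    ((hf.comp contDiff_pt).differentiable (by simp)) _
  have hfd := ((hf.differentiable (by simp)) (pt r χ)).hasFDerivAt
  constructor
  · have h1 : HasDerivAt (fun x : ℝ => ((x, χ) : ℝ × ℝ)) ((1, 0) : ℝ × ℝ) r :=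
      (hasDerivAt_id r).prodMk (hasDerivAt_const r χ)
    have h2 := hF.hasFDerivAt.comp_hasDerivAt (f := fun x : ℝ => ((x, χ) : ℝ × ℝ)) r h1
    have h3 := HasFDerivAt.comp_hasDerivAt (f := fun r => pt r χ) r hfd (hasDerivAt_pt_r r χ)
    exact h2.unique h3
  · have h1 : HasDerivAt (fun x : ℝ => ((r, x) : ℝ × ℝ)) ((0, 1) : ℝ × ℝ) χ :=
      (hasDerivAt_const χ r).prodMk (hasDerivAt_id χ)
    have h2 := hF.hasFDerivAt.comp_hasDerivAt (f := fun x : ℝ => ((r, x) : ℝ × ℝ)) χ h1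
    have h3 := HasFDerivAt.comp_hasDerivAt (f := fun χ => pt r χ) χ hfd (hasDerivAt_pt_chi r χ)
    exact h2.unique h3

/-- the derivative of `w ∘ pt` in the angle -/
theorem fderiv_w_pt (hc : c.Adm n) (r χ : ℝ) :
    fderiv ℝ (fun p : ℝ × ℝ => c.w (pt p.1 p.2)) (r, χ) (0, 1) =
      fderiv ℝ c.w (pt r χ) (Complex.I * pt r χ) := (fd_r hc.sw r χ).2

theorem J_polar (hc : c.Adm n) (r χ : ℝ) :
    r * c.J (pt r χ) = D.jp (fun p => c.w (pt p.1 p.2)) (fun p => c.h (pt p.1 p.2)) (r, χ) := by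
  have h := c.J2_eq (pt r χ) (er χ) (Complex.I * pt r χ)
  have e2 := Real.sin_sq_add_cos_sq χ
  unfold D.jp
  rw [(fd_r hc.sw r χ).1, (fd_r hc.sw r χ).2, (fd_r' hc.sh r χ).1, (fd_r' hc.sh r χ).2]
  show _ = c.J2 (pt r χ) (er χ) (Complex.I * pt r χ)
  rw [h, er_re, er_im]
  simp only [Complex.mul_re, Complex.mul_im, Complex.I_re, Complex.I_im, pt_re, pt_im]
  linear_combination (-(r * c.J (pt r χ))) * e2

private theorem rot1 {f : ℂ → ℂ} (hf : Differentiable ℝ f) {ζ : ℂ} (h : ∀ z, f (ζ * z) = ζ * f z)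
    (z v : ℂ) : fderiv ℝ f (ζ * z) (ζ * v) = ζ * fderiv ℝ f z v := by
  have h1 : HasFDerivAt (fun y : ℂ => ζ * y) (ζ • (ContinuousLinearMap.id ℝ ℂ)) z :=
    (hasFDerivAt_id z).const_mul ζ
  have h2 : HasFDerivAt (fun y => f (ζ * y)) ((fderiv ℝ f (ζ * z)).comp (ζ • (ContinuousLinearMap.id ℝ ℂ))) z :=
    (hf (ζ * z)).hasFDerivAt.comp z h1
  have h3 : HasFDerivAt (fun y => f (ζ * y)) (ζ • fderiv ℝ f z) z := by
    have : (fun y => f (ζ * y)) = fun y => ζ * f y := funext h
    rw [this]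
    exact (hf z).hasFDerivAt.const_mul ζ
  have h4 := congrArg (fun L : ℂ →L[ℝ] ℂ => L v) (h2.unique h3)
  simpa using h4

private theorem star1 {f : ℂ → ℂ} (hf : Differentiable ℝ f) (h : ∀ z, f (star z) = star (f z))
    (z v : ℂ) : fderiv ℝ f (star z) (star v) = star (fderiv ℝ f z v) := by
  have hs : ∀ z : ℂ, HasFDerivAt (fun y : ℂ => star y) ((Complex.conjCLE : ℂ ≃L[ℝ] ℂ) : ℂ →L[ℝ] ℂ) z :=
    fun z => (Complex.conjCLE : ℂ ≃L[ℝ] ℂ).hasFDerivAt
  have h2 : HasFDerivAt (fun y => f (star y)) ((fderiv ℝ f (star z)).comp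
      ((Complex.conjCLE : ℂ ≃L[ℝ] ℂ) : ℂ →L[ℝ] ℂ)) z :=
    (hf (star z)).hasFDerivAt.comp z (hs z)
  have h3 : HasFDerivAt (fun y => f (star y)) (((Complex.conjCLE : ℂ ≃L[ℝ] ℂ) : ℂ →L[ℝ] ℂ).comp
      (fderiv ℝ f z)) z := by
    have : (fun y => f (star y)) = fun y => star (f y) := funext h
    rw [this]
    exact (hs (f z)).comp z (hf z).hasFDerivAt
  have h4 := congrArg (fun L : ℂ →L[ℝ] ℂ => L v) (h2.unique h3)
  simpa using h4

theorem J_rot (hc : c.Adm n) (z : ℂ) : c.J (ze n * z) = c.J z := by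
  have h1 := c.J2_eq (ze n * z) (ze n * 1) (ze n * Complex.I)
  have h2 := c.J2_eq z 1 Complex.I
  have hu : (ze n).re * (ze n).re + (ze n).im * (ze n).im = 1 := by
    rw [← Complex.normSq_apply, ← Complex.sq_norm, norm_ze, one_pow]
  have e : c.J2 (ze n * z) (ze n * 1) (ze n * Complex.I) = c.J2 z 1 Complex.I := by
    have a1 := hc.dh_rot z 1
    have a2 := hc.dh_rot z Complex.I
    unfold dh at a1 a2
    unfold J2 D.jac
    rw [rot1 (hc.sw.differentiable (by simp)) hc.rw, rot1 (hc.sw.differentiable (by simp)) hc.rw,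
      a1, a2, hc.rw, hc.rh]
    generalize fderiv ℝ c.w z 1 = w1
    generalize fderiv ℝ c.w z Complex.I = w2
    have k : ∀ a b : ℂ, conj (ze n * a) * (ze n * b) = conj a * b := by
      intro a b
      have : conj (ze n) * ze n = 1 := by
        rw [← Complex.normSq_eq_conj_mul_self, Complex.normSq_apply, hu]
        simp
      rw [map_mul]
      linear_combination (conj a * b) * this
    rw [k, k, k]
  rw [h1, h2] at e
  simp only [Complex.mul_re, Complex.mul_im, Complex.I_re, Complex.I_im, Complex.one_re,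
    Complex.one_im] at e
  linear_combination e - c.J (ze n * z) * hu

theorem J_star (hc : c.Adm n) (z : ℂ) : c.J (star z) = c.J z := by
  have h1 := c.J2_eq (star z) (star 1) (star Complex.I)
  have h2 := c.J2_eq z 1 Complex.I
  have e : c.J2 (star z) (star 1) (star Complex.I) = -c.J2 z 1 Complex.I := by
    have a1 := hc.dh_star z 1
    have a2 := hc.dh_star z Complex.I
    unfold dh at a1 a2
    unfold J2 D.jac
    rw [star1 (hc.sw.differentiable (by simp)) hc.cw, star1 (hc.sw.differentiable (by simp)) hc.cw,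
      a1, a2, hc.cw, hc.ch]
    generalize fderiv ℝ c.w z 1 = w1
    generalize fderiv ℝ c.w z Complex.I = w2
    simp only [Complex.star_def, Complex.mul_im, Complex.conj_re, Complex.conj_im]
    ring
  rw [h1, h2] at e
  simp only [Complex.star_def, map_one, Complex.conj_I, Complex.neg_re, Complex.neg_im,
    Complex.I_re, Complex.I_im, Complex.one_re, Complex.one_im] at e
  have e' : c.J ((starRingEnd ℂ) z) = c.J z := by linarith
  exact e'

end Cf

end GO3
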