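import Pool.Agent.GO3.D.Cir
import Pool.Agent.GO3.D.Jal
import Pool.Agent.GO3.Bnd

/-! GO3 / D / Bry: boundary terms (D4, D5 of the proof text, part D, helper85). -/

open MeasureTheory Filter Topology Set
open scoped ContDiff Real ComplexConjugate

noncomputable section

namespace GO3

namespace D

variable {c : Cf} {n : ℕ}

private theorem bry_cs {f g : ℝ → ℝ} (hf : Continuous f) (hg : Continuous g) {a b : ℝ}
    (hab : a ≤ b) : (∫ x in a..b, f x * g x) ^ 2 ≤
      (∫ x in a..b, f x ^ 2) * ∫ x in a..b, g x ^ 2 := by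
  have h1 : ∀ t : ℝ, 0 ≤ (∫ x in a..b, g x ^ 2) * (t * t) + (2 * ∫ x in a..b, f x * g x) * t +
      ∫ x in a..b, f x ^ 2 := by
    intro t
    have h2 : 0 ≤ ∫ x in a..b, (f x + t * g x) ^ 2 :=
      intervalIntegral.integral_nonneg hab fun x _ => sq_nonneg _
    have h3 : ∫ x in a..b, (f x + t * g x) ^ 2 = (∫ x in a..b, g x ^ 2) * (t * t) +
        (2 * ∫ x in a..b, f x * g x) * t + ∫ x in a..b, f x ^ 2 := by
      have i1 : IntervalIntegrable (fun x => g x ^ 2 * (t * t)) volume a b :=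
        Continuous.intervalIntegrable (by fun_prop) _ _
      have i2 : IntervalIntegrable (fun x => 2 * (f x * g x) * t) volume a b :=
        Continuous.intervalIntegrable (by fun_prop) _ _
      have i3 : IntervalIntegrable (fun x => f x ^ 2) volume a b :=
        Continuous.intervalIntegrable (by fun_prop) _ _
      have e : ∀ x, (f x + t * g x) ^ 2 = (g x ^ 2 * (t * t) + 2 * (f x * g x) * t) + f x ^ 2 :=
        fun x => by ring
      simp only [e]
      rw [intervalIntegral.integral_add (i1.add i2) i3, intervalIntegral.integral_add i1 i2,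
        intervalIntegral.integral_mul_const, intervalIntegral.integral_mul_const,
        intervalIntegral.integral_const_mul]
    rwa [h3] at h2
  have h4 := discrim_le_zero h1
  unfold discrim at h4
  linarith [h4]

private theorem bry_al (hn : 2 ≤ n) : 0 ≤ al n ∧ al n ≤ 2 * π := by
  refine ⟨(al_pos (by omega)).le, ?_⟩
  unfold al
  have h : (2 : ℝ) ≤ n := by exact_mod_cast hn
  have h3 : (1 : ℝ) ≤ (n : ℝ) ^ 3 := by
    calc (1 : ℝ) = 1 ^ 3 := by norm_num
      _ ≤ (n : ℝ) ^ 3 := by gcongr; linarith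
  rw [div_le_iff₀ (by positivity)]
  nlinarith [Real.pi_pos]

private theorem bry_mono (hn : 2 ≤ n) {f : ℝ → ℝ} (hf : Continuous f) (h0 : ∀ x, 0 ≤ f x) :
    ∫ χ in (0 : ℝ)..al n, f χ ≤ ∫ χ in (0 : ℝ)..2 * π, f χ := by
  obtain ⟨h1, h2⟩ := bry_al hn
  exact intervalIntegral.integral_mono_interval le_rfl h1 h2
    (Filter.Eventually.of_forall fun x => h0 x) (hf.intervalIntegrable _ _)

private theorem bry_b (hc : c.Adm n) (R : ℝ) : Continuous fun χ => c.b R χ :=
  hc.contDiff_b.continuous.comp (Continuous.prodMk_right R)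

private theorem bry_h (hc : c.Adm n) (R : ℝ) : Continuous fun χ => c.h (pt R χ) :=
  hc.sh.continuous.comp (continuous_pt.comp (Continuous.prodMk_right R))

private theorem bry_D (hc : c.Adm n) (R : ℝ) :
    Continuous fun χ => ‖c.Dw (pt R χ) (Complex.I * pt R χ)‖ := by
  have hp : Continuous fun χ : ℝ => pt R χ := continuous_pt.comp (Continuous.prodMk_right R)
  exact (hc.contDiff_Dw.continuous.comp (hp.prodMk (continuous_const.mul hp))).norm

private theorem bry_h1 (hc : c.Adm n) (z : ℂ) : 0 ≤ 1 - c.h z := by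
  have := (abs_le.1 (hc.abs_h_le z)).2
  linarith

/-- `(∮ |b| (1 - h))² ≤ 2 E X` -/
private theorem bry_S (hc : c.Adm n) (hr : c.Rad) {R : ℝ} (hR : 0 < R) :
    (∫ χ in (0 : ℝ)..2 * π, |c.b R χ| * (1 - c.h (pt R χ))) ^ 2 ≤ 2 * (c.E * (R * c.fd R)) := by
  have h1 := bry_cs (bry_b hc R).abs (continuous_const.sub (bry_h hc R)) (a := 0) (b := 2 * π)
    (f := fun χ => |c.b R χ|) (g := fun χ => 1 - c.h (pt R χ)) (by positivity)
  have h2 : ∫ χ in (0 : ℝ)..2 * π, |c.b R χ| ^ 2 = c.Bc R := by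
    unfold Cf.Bc
    refine intervalIntegral.integral_congr fun χ _ => ?_
    exact sq_abs _
  rw [h2] at h1
  have h3 : c.Bc R ≤ R ^ 2 * c.E := Cf.int_b_sq hc hr hR.le
  have h4 := Cf.Uc_le_fd hc hR
  have h5 := Cf.Uc_nonneg c R
  have h6 := Cf.Adm.E_nonneg c
  calc _ ≤ c.Bc R * c.Uc R := h1
    _ ≤ R ^ 2 * c.E * c.Uc R := by gcongr
    _ = c.E * (R ^ 2 * c.Uc R) := by ring
    _ ≤ c.E * (2 * (R * c.fd R)) := by gcongr
    _ = _ := by ring

theorem bry1 (hn : 2 ≤ n) (hc : c.Adm n) (hr : c.Rad) {R : ℝ} (hR : 0 < R) :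
    |∫ χ in (0 : ℝ)..al n, c.b R χ * (1 - c.h (pt R χ))| ≤ 2 * Real.sqrt (c.E * (R * c.fd R)) := by
  obtain ⟨a1, a2⟩ := bry_al hn
  have hcont : Continuous fun χ => |c.b R χ| * (1 - c.h (pt R χ)) :=
    (bry_b hc R).abs.mul (continuous_const.sub (bry_h hc R))
  have h1 : |∫ χ in (0 : ℝ)..al n, c.b R χ * (1 - c.h (pt R χ))| ≤
      ∫ χ in (0 : ℝ)..2 * π, |c.b R χ| * (1 - c.h (pt R χ)) := by
    refine (intervalIntegral.abs_integral_le_integral_abs a1).trans ?_
    have e : ∀ χ, |c.b R χ * (1 - c.h (pt R χ))| = |c.b R χ| * (1 - c.h (pt R χ)) := by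
      intro χ
      rw [abs_mul, abs_of_nonneg (bry_h1 hc _)]
    simp only [e]
    exact bry_mono hn hcont fun χ => mul_nonneg (abs_nonneg _) (bry_h1 hc _)
  refine h1.trans ?_
  have h2 := bry_S hc hr hR
  have hX : 0 ≤ c.E * (R * c.fd R) :=
    mul_nonneg (Cf.Adm.E_nonneg c) (mul_nonneg hR.le (c.fd_nonneg hR.le))
  refine le_of_sq_le_sq ?_ (by positivity)
  rw [mul_pow, Real.sq_sqrt hX]
  linarith

theorem bry2 (hn : 2 ≤ n) (hc : c.Adm n) (hr : c.Rad) {R : ℝ} (hR : 0 < R)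
    (hh : ∀ χ, 0 ≤ c.h (pt R χ)) :
    |∫ χ in (0 : ℝ)..al n, (conj (c.w (pt R χ)) *
      fderiv ℝ (fun p : ℝ × ℝ => c.w (pt p.1 p.2)) (R, χ) (0, 1)).im / (1 + c.h (pt R χ))| ≤
      4 * Real.sqrt (R * c.fd R) + 3 * Real.sqrt (c.E * (R * c.fd R)) := by
  obtain ⟨a1, a2⟩ := bry_al hn
  have hX0 : 0 ≤ R * c.fd R := mul_nonneg hR.le (c.fd_nonneg hR.le)
  have hX : 0 ≤ c.E * (R * c.fd R) := mul_nonneg (Cf.Adm.E_nonneg c) hX0
  have c1 := bry_D hc R
  have c2 : Continuous fun χ => |c.b R χ| * (1 - c.h (pt R χ)) :=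
    (bry_b hc R).abs.mul (continuous_const.sub (bry_h hc R))
  have hpt : ∀ χ, ‖(conj (c.w (pt R χ)) *
      fderiv ℝ (fun p : ℝ × ℝ => c.w (pt p.1 p.2)) (R, χ) (0, 1)).im / (1 + c.h (pt R χ))‖ ≤
      ‖c.Dw (pt R χ) (Complex.I * pt R χ)‖ + 2 * (|c.b R χ| * (1 - c.h (pt R χ))) := by
    intro χ
    rw [Cf.fderiv_w_pt hc]
    have e1 := Cf.Dw_chi c R χ
    have e2 : fderiv ℝ c.w (pt R χ) (Complex.I * pt R χ) =
        c.Dw (pt R χ) (Complex.I * pt R χ) + Complex.I * (c.b R χ : ℂ) * c.w (pt R χ) := by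
      rw [e1]; ring
    rw [e2]
    have hu := hc.unit (pt R χ)
    have e3 : (conj (c.w (pt R χ)) * (c.Dw (pt R χ) (Complex.I * pt R χ) +
        Complex.I * (c.b R χ : ℂ) * c.w (pt R χ))).im =
        (conj (c.w (pt R χ)) * c.Dw (pt R χ) (Complex.I * pt R χ)).im +
          c.b R χ * ‖c.w (pt R χ)‖ ^ 2 := by
      rw [Complex.sq_norm, Complex.normSq_apply]
      simp only [Complex.mul_im, Complex.mul_re, Complex.add_re, Complex.add_im, Complex.conj_re,
        Complex.conj_im, Complex.I_re, Complex.I_im, Complex.ofReal_re, Complex.ofReal_im]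
      ring
    rw [e3, Real.norm_eq_abs, abs_div]
    have hh1 := hh χ
    have h1h := bry_h1 hc (pt R χ)
    have hden : 1 ≤ |1 + c.h (pt R χ)| := by
      rw [abs_of_nonneg (by linarith)]
      linarith
    have f1 : |(conj (c.w (pt R χ)) * c.Dw (pt R χ) (Complex.I * pt R χ)).im| ≤
        ‖c.Dw (pt R χ) (Complex.I * pt R χ)‖ := by
      refine (Complex.abs_im_le_norm _).trans ?_
      rw [norm_mul, RCLike.norm_conj]
      have := hc.norm_w_le (pt R χ)
      calc _ ≤ 1 * ‖c.Dw (pt R χ) (Complex.I * pt R χ)‖ := by gcongr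
        _ = _ := one_mul _
    have f2 : |c.b R χ * ‖c.w (pt R χ)‖ ^ 2| ≤ 2 * (|c.b R χ| * (1 - c.h (pt R χ))) := by
      rw [abs_mul, abs_of_nonneg (by positivity : (0 : ℝ) ≤ ‖c.w (pt R χ)‖ ^ 2)]
      have g1 : ‖c.w (pt R χ)‖ ^ 2 ≤ 2 * (1 - c.h (pt R χ)) := by
        have : ‖c.w (pt R χ)‖ ^ 2 = (1 - c.h (pt R χ)) * (1 + c.h (pt R χ)) := by linarith
        rw [this]
        nlinarith
      calc |c.b R χ| * ‖c.w (pt R χ)‖ ^ 2 ≤ |c.b R χ| * (2 * (1 - c.h (pt R χ))) := by gcongr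
        _ = _ := by ring
    have f3 := abs_add_le ((conj (c.w (pt R χ)) * c.Dw (pt R χ) (Complex.I * pt R χ)).im)
      (c.b R χ * ‖c.w (pt R χ)‖ ^ 2)
    refine (div_le_self (abs_nonneg _) hden).trans ?_
    linarith
  have hg : Continuous fun χ => ‖c.Dw (pt R χ) (Complex.I * pt R χ)‖ +
      2 * (|c.b R χ| * (1 - c.h (pt R χ))) := c1.add (continuous_const.mul c2)
  have h1 : |∫ χ in (0 : ℝ)..al n, (conj (c.w (pt R χ)) *
      fderiv ℝ (fun p : ℝ × ℝ => c.w (pt p.1 p.2)) (R, χ) (0, 1)).im / (1 + c.h (pt R χ))| ≤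
      ∫ χ in (0 : ℝ)..al n, (‖c.Dw (pt R χ) (Complex.I * pt R χ)‖ +
      2 * (|c.b R χ| * (1 - c.h (pt R χ)))) := by
    rw [← Real.norm_eq_abs]
    refine intervalIntegral.norm_integral_le_of_norm_le a1 ?_ (hg.intervalIntegrable _ _)
    exact Filter.Eventually.of_forall fun χ _ => hpt χ
  have h2 := bry_mono hn hg fun χ => add_nonneg (norm_nonneg _)
    (mul_nonneg (by norm_num) (mul_nonneg (abs_nonneg _) (bry_h1 hc _)))
  have c22 : Continuous fun χ => 2 * (|c.b R χ| * (1 - c.h (pt R χ))) := continuous_const.mul c2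
  have h22 : ∫ χ in (0 : ℝ)..2 * π, (‖c.Dw (pt R χ) (Complex.I * pt R χ)‖ +
      2 * (|c.b R χ| * (1 - c.h (pt R χ)))) =
      (∫ χ in (0 : ℝ)..2 * π, ‖c.Dw (pt R χ) (Complex.I * pt R χ)‖) +
      2 * ∫ χ in (0 : ℝ)..2 * π, |c.b R χ| * (1 - c.h (pt R χ)) := by
    rw [intervalIntegral.integral_add (c1.intervalIntegrable _ _) (c22.intervalIntegrable _ _),
      intervalIntegral.integral_const_mul]
  rw [h22] at h2
  have h3 : ∫ χ in (0 : ℝ)..2 * π, ‖c.Dw (pt R χ) (Complex.I * pt R χ)‖ ≤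
      4 * Real.sqrt (R * c.fd R) := by
    refine le_of_sq_le_sq ?_ (by positivity)
    rw [mul_pow, Real.sq_sqrt hX0]
    have k1 := bry_cs c1 (continuous_const (y := (1 : ℝ))) (a := 0) (b := 2 * π) (by positivity)
    simp only [mul_one, one_pow, intervalIntegral.integral_const, sub_zero, smul_eq_mul] at k1
    have k2 : ∫ χ in (0 : ℝ)..2 * π, ‖c.Dw (pt R χ) (Complex.I * pt R χ)‖ ^ 2 ≤ c.Xo R := by
      unfold Cf.Xo
      have hp : Continuous fun χ : ℝ => pt R χ := continuous_pt.comp (Continuous.prodMk_right R)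
      have hq : Continuous fun χ : ℝ => ((pt R χ, Complex.I * pt R χ) : ℂ × ℂ) :=
        hp.prodMk (continuous_const.mul hp)
      have c3' := hc.contDiff_nsq.continuous.comp hq
      have c3 : Continuous fun χ => c.nsq (pt R χ) (Complex.I * pt R χ) := c3'
      exact intervalIntegral.integral_mono_on (by positivity) ((c1.pow 2).intervalIntegrable _ _)
        (c3.intervalIntegrable _ _) fun χ _ => Cf.norm_Dw_le c _ _
    have k3 := Cf.Xo_le_fd hc hR
    have hpi := Real.pi_lt_four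
    have hpi0 := Real.pi_pos
    nlinarith [mul_nonneg hX0 (by linarith : (0 : ℝ) ≤ 4 - π)]
  have h4 : 2 * ∫ χ in (0 : ℝ)..2 * π, |c.b R χ| * (1 - c.h (pt R χ)) ≤
      3 * Real.sqrt (c.E * (R * c.fd R)) := by
    refine le_of_sq_le_sq ?_ (by positivity)
    rw [mul_pow, mul_pow, Real.sq_sqrt hX]
    have := bry_S hc hr hR
    nlinarith
  linarith

end D

end GO3
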