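import Pool.Agent.GO3.D.Cir

/-! GO3 / D / Bwt: growth of the potential (D3 of the proof text, part D, helper85).

`b (r, χ) = ∫_0^r s F ds` (`Rad.b_eq`). Weight `ω s = 1 + s^(3/2)`: `b² ≤ (∫_0^r s/ω) (∫_0^r s ω F²)`, and
`s/ω ≤ s^(-1/2)`, `∫_0^r s^(-1/2) = 2 r^(1/2)` (Cauchy-Schwarz in the form
`2 s |F| ≤ λ s/ω + λ⁻¹ s ω F²`, or `(∫ f g)² ≤ ∫ f² ∫ g²`). Integrate over `χ` (Fubini on the compact rectangle, or
`intervalIntegral` swap): `Bc r ≤ 2 √r ∫_0^r s ω Yc ds`, `s Yc ≤ 2 fd` (`fd_eq`), so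
`∫_0^r s ω Yc ≤ 2 ∫_{Ioi 0} (fd + s^(3/2) fd) = C/2`. -/

open MeasureTheory Filter Topology Set
open scoped ContDiff Real

noncomputable section

namespace GO3

namespace D

variable {c : Cf} {n : ℕ}

private theorem bw_amgm {x A I : ℝ} (hx : 0 ≤ x) (hA : 0 < A) (hI : 0 ≤ I)
    (h : ∀ l : ℝ, 0 < l → 2 * x ≤ l * A + l⁻¹ * I) : x ^ 2 ≤ A * I := by
  rcases hx.eq_or_lt with h0 | h0
  · rw [← h0, zero_pow two_ne_zero]
    exact mul_nonneg hA.le hI
  · have h1 := h (x / A) (by positivity)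
    rw [div_mul_cancel₀ _ hA.ne', inv_div] at h1
    have h2 : x ≤ A / x * I := by linarith
    have h3 : x * x ≤ x * (A / x * I) := mul_le_mul_of_nonneg_left h2 h0.le
    have h4 : x * (A / x * I) = A * I := by field_simp
    nlinarith

private theorem bw_cs {f : ℝ → ℝ} (hf : Continuous f) {r : ℝ} (hr : 0 < r) :
    (∫ s in (0 : ℝ)..r, s * f s) ^ 2 ≤
      2 * √r * ∫ s in (0 : ℝ)..r, s ^ (5 / 2 : ℝ) * f s ^ 2 := by
  have hc5 : Continuous fun s : ℝ => s ^ (5 / 2 : ℝ) :=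
    Real.continuous_rpow_const (by norm_num)
  have hI : 0 ≤ ∫ s in (0 : ℝ)..r, s ^ (5 / 2 : ℝ) * f s ^ 2 :=
    intervalIntegral.integral_nonneg hr.le fun s hs =>
      mul_nonneg (Real.rpow_nonneg hs.1 _) (sq_nonneg _)
  have hA : ∫ s in (0 : ℝ)..r, s ^ (-(1 / 2) : ℝ) = 2 * √r := by
    rw [integral_rpow (Or.inl (by norm_num)), Real.sqrt_eq_rpow,
      show (-(1 / 2) + 1 : ℝ) = 1 / 2 by norm_num, Real.zero_rpow (by norm_num)]
    ring
  rw [← sq_abs]
  refine bw_amgm (abs_nonneg _) (by positivity) hI fun l hl => ?_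
  have i1 : IntervalIntegrable (fun s : ℝ => s ^ (-(1 / 2) : ℝ)) volume 0 r :=
    intervalIntegral.intervalIntegrable_rpow' (by norm_num)
  have i2 : IntervalIntegrable (fun s : ℝ => s ^ (5 / 2 : ℝ) * f s ^ 2) volume 0 r :=
    (hc5.mul (hf.pow 2)).intervalIntegrable _ _
  rw [← hA, ← intervalIntegral.integral_const_mul, ← intervalIntegral.integral_const_mul,
    ← intervalIntegral.integral_add (i1.const_mul l) (i2.const_mul _)]
  refine (mul_le_mul_of_nonneg_left (intervalIntegral.abs_integral_le_integral_abs hr.le)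
    (by norm_num)).trans ?_
  rw [← intervalIntegral.integral_const_mul]
  refine intervalIntegral.integral_mono_on_of_le_Ioo hr.le
    (Continuous.intervalIntegrable (by fun_prop) _ _)
    ((i1.const_mul l).add (i2.const_mul _)) fun s hs => ?_
  have hs0 : 0 < s := hs.1
  have h1 : s ^ (-(1 / 2) : ℝ) * s ^ (5 / 2 : ℝ) = s ^ 2 := by
    rw [← Real.rpow_add hs0, ← Real.rpow_natCast]
    norm_num
  have h2 : 0 < s ^ (-(1 / 2) : ℝ) := Real.rpow_pos_of_pos hs0 _
  have h3 : 0 < s ^ (5 / 2 : ℝ) := Real.rpow_pos_of_pos hs0 _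
  have h4 : |2 * (s * f s)| ≤ l * s ^ (-(1 / 2) : ℝ) + l⁻¹ * (s ^ (5 / 2 : ℝ) * f s ^ 2) := by
    refine abs_le_of_sq_le_sq ?_ (by positivity)
    have h5 : (2 * (s * f s)) ^ 2 =
        4 * ((l * s ^ (-(1 / 2) : ℝ)) * (l⁻¹ * (s ^ (5 / 2 : ℝ) * f s ^ 2))) := by
      have h6 : (l * s ^ (-(1 / 2) : ℝ)) * (l⁻¹ * (s ^ (5 / 2 : ℝ) * f s ^ 2)) =
          (l * l⁻¹) * ((s ^ (-(1 / 2) : ℝ) * s ^ (5 / 2 : ℝ)) * f s ^ 2) := by ring
      rw [h6, h1, mul_inv_cancel₀ hl.ne']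
      ring
    rw [h5]
    nlinarith [sq_nonneg (l * s ^ (-(1 / 2) : ℝ) - l⁻¹ * (s ^ (5 / 2 : ℝ) * f s ^ 2))]
  rw [abs_mul, abs_two] at h4
  exact h4

theorem Bc_le (hc : c.Adm n) (hr : c.Rad)
    (hw : IntegrableOn (fun r => r ^ (3 / 2 : ℝ) * c.fd r) (Ioi 0)) :
    ∃ C : ℝ, 0 ≤ C ∧ ∀ r, 0 ≤ r → c.Bc r ≤ C * Real.sqrt r := by
  have hfd : ∀ s ∈ Ioi (0 : ℝ), 0 ≤ s ^ (3 / 2 : ℝ) * c.fd s := fun s hs =>
    mul_nonneg (Real.rpow_nonneg (le_of_lt hs) _) (Cf.fd_nonneg c (le_of_lt hs))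
  have hW : 0 ≤ ∫ s in Ioi (0 : ℝ), s ^ (3 / 2 : ℝ) * c.fd s :=
    setIntegral_nonneg measurableSet_Ioi hfd
  refine ⟨4 * ∫ s in Ioi (0 : ℝ), s ^ (3 / 2 : ℝ) * c.fd s, by positivity, fun r hr0 => ?_⟩
  rcases hr0.eq_or_lt with h0 | h0
  · have h1 : ∀ χ, c.b 0 χ = 0 := fun χ => by
      rw [hr.b_eq hc.sA, intervalIntegral.integral_same]
    have h2 : c.Bc 0 = 0 := by
      unfold Cf.Bc
      simp [h1]
    rw [← h0, h2, Real.sqrt_zero, mul_zero]
  · have hpt : Continuous fun χ : ℝ => pt r χ :=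
      continuous_pt.comp (by fun_prop : Continuous fun χ : ℝ => ((r, χ) : ℝ × ℝ))
    have hF : Continuous c.F := hc.contDiff_F.continuous
    have hc5 : Continuous fun s : ℝ => s ^ (5 / 2 : ℝ) :=
      Real.continuous_rpow_const (by norm_num)
    have hG : Continuous fun p : ℝ × ℝ => p.2 ^ (5 / 2 : ℝ) * c.F (pt p.2 p.1) ^ 2 := by
      have h1 : Continuous fun p : ℝ × ℝ => c.F (pt p.2 p.1) :=
        hF.comp (continuous_pt.comp (continuous_snd.prodMk continuous_fst))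
      exact (hc5.comp continuous_snd).mul (h1.pow 2)
    have hIc : Continuous fun χ : ℝ => ∫ s in (0 : ℝ)..r, s ^ (5 / 2 : ℝ) * c.F (pt s χ) ^ 2 :=
      intervalIntegral.continuous_parametric_intervalIntegral_of_continuous'
        (f := fun χ s => s ^ (5 / 2 : ℝ) * c.F (pt s χ) ^ 2) hG 0 r
    have hb : Continuous fun χ : ℝ => c.b r χ := by
      have hA : Continuous fun χ : ℝ => c.A (pt r χ) := hc.sA.continuous.comp hpt
      have hI : Continuous fun χ : ℝ => Complex.I * pt r χ := continuous_const.mul hpt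
      unfold Cf.b ip
      exact ((Complex.continuous_re.comp hA).mul (Complex.continuous_re.comp hI)).add
        ((Complex.continuous_im.comp hA).mul (Complex.continuous_im.comp hI))
    have h1 : c.Bc r ≤ ∫ χ in (0 : ℝ)..2 * π, 2 * √r *
        ∫ s in (0 : ℝ)..r, s ^ (5 / 2 : ℝ) * c.F (pt s χ) ^ 2 := by
      unfold Cf.Bc
      refine intervalIntegral.integral_mono_on (by positivity) ((hb.pow 2).intervalIntegrable _ _)
        ((hIc.const_mul (2 * √r)).intervalIntegrable _ _) fun χ _ => ?_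
      rw [hr.b_eq hc.sA]
      have hf : Continuous fun s : ℝ => c.F (pt s χ) :=
        hF.comp (continuous_pt.comp (by fun_prop : Continuous fun s : ℝ => ((s, χ) : ℝ × ℝ)))
      exact bw_cs hf h0
    have h2 : (∫ χ in (0 : ℝ)..2 * π, ∫ s in (0 : ℝ)..r, s ^ (5 / 2 : ℝ) * c.F (pt s χ) ^ 2) =
        ∫ s in (0 : ℝ)..r, s ^ (5 / 2 : ℝ) * c.Yc s := by
      rw [intervalIntegral_intervalIntegral_swap (F := fun χ s => s ^ (5 / 2 : ℝ) *
        c.F (pt s χ) ^ 2)]
      · refine intervalIntegral.integral_congr fun s _ => ?_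
        show (∫ χ in (0 : ℝ)..2 * π, s ^ (5 / 2 : ℝ) * c.F (pt s χ) ^ 2) = _
        rw [intervalIntegral.integral_const_mul]
        rfl
      · refine ((hG.continuousOn (s := uIcc 0 (2 * π) ×ˢ uIcc 0 r)).integrableOn_compact
          (isCompact_uIcc.prod isCompact_uIcc)).mono_set ?_
        exact prod_mono uIoc_subset_uIcc uIoc_subset_uIcc
    have h3 : ∫ s in (0 : ℝ)..r, s ^ (5 / 2 : ℝ) * c.Yc s ≤
        2 * ∫ s in Ioi (0 : ℝ), s ^ (3 / 2 : ℝ) * c.fd s := by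
      rw [intervalIntegral.integral_of_le h0.le, ← integral_const_mul]
      have hi : IntegrableOn (fun s => 2 * (s ^ (3 / 2 : ℝ) * c.fd s)) (Ioi 0) := hw.const_mul 2
      refine le_trans (setIntegral_mono_on ?_ (hi.mono_set Ioc_subset_Ioi_self)
        measurableSet_Ioc fun s hs => ?_) (setIntegral_mono_set hi ?_
          Ioc_subset_Ioi_self.eventuallyLE)
      · have h4 : Continuous fun s : ℝ => s ^ (5 / 2 : ℝ) * c.Yc s :=
          hc5.mul (Cf.continuous_Yc hc)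
        exact (intervalIntegrable_iff_integrableOn_Ioc_of_le h0.le).1 (h4.intervalIntegrable _ _)
      · have hs0 : 0 < s := hs.1
        have h5 : s ^ (5 / 2 : ℝ) = s ^ (3 / 2 : ℝ) * s := by
          rw [← Real.rpow_add_one hs0.ne']
          norm_num
        have h6 : s * c.Yc s ≤ 2 * c.fd s := by
          rw [Cf.fd_eq hc hs0]
          have h7 := mul_nonneg hs0.le (Cf.Tc_nonneg c s)
          have h8 := div_nonneg (Cf.Xo_nonneg c s) hs0.le
          have h9 := mul_nonneg hs0.le (Cf.Uc_nonneg c s)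
          linarith
        rw [h5]
        have h7 := mul_le_mul_of_nonneg_left h6 (Real.rpow_nonneg hs0.le (3 / 2 : ℝ))
        calc s ^ (3 / 2 : ℝ) * s * c.Yc s = s ^ (3 / 2 : ℝ) * (s * c.Yc s) := by ring
          _ ≤ _ := h7
          _ = _ := by ring
      · filter_upwards [ae_restrict_mem measurableSet_Ioi] with s hs
        exact mul_nonneg (by norm_num) (hfd s hs)
    rw [intervalIntegral.integral_const_mul, h2] at h1
    have h4 := mul_le_mul_of_nonneg_left h3 (by positivity : 0 ≤ 2 * √r)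
    calc c.Bc r ≤ _ := h1
      _ ≤ _ := h4
      _ = _ := by ring

end D

end GO3
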