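import Pool.Agent.GO3.Rd

/-! GO3 / D / Cir: circle quantities (part D, helper85).

`fd r = (1/2) r ∫_0^{2π} dens (pt r χ) dχ`, so `∫_0^∞ fd = E` (`polar_integral` with `q = 0`).
`fd_eq`: `grad_polar` for `r ≠ 0` and linearity of the integral (all integrands are continuous:
`contDiff_nsq`, `contDiff_F`, `continuous_pt`).
`small_seq`: otherwise `fd r > ε / r` for all large `r`, but `1 / r` is not integrable on `Ioi R`
(`not_integrableOn_Ioi_inv`), and `fd` is integrable. -/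

open MeasureTheory Filter Topology Set
open scoped ContDiff Real

noncomputable section

namespace GO3

namespace Cf

/-- the energy density in `r` -/
def fd (c : Cf) (r : ℝ) : ℝ := 1 / 2 * (r * ∫ χ in (0 : ℝ)..2 * π, c.dens (pt r χ))

/-- `∮ |∂_r φ|²` -/
def Tc (c : Cf) (r : ℝ) : ℝ := ∫ χ in (0 : ℝ)..2 * π, c.nsq (pt r χ) (er χ)

/-- `∮ (1 - h)²` -/
def Uc (c : Cf) (r : ℝ) : ℝ := ∫ χ in (0 : ℝ)..2 * π, (1 - c.h (pt r χ)) ^ 2

/-- `∮ F²` -/
def Yc (c : Cf) (r : ℝ) : ℝ := ∫ χ in (0 : ℝ)..2 * π, c.F (pt r χ) ^ 2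

/-- `∮ (1 - h)` -/
def Pc (c : Cf) (r : ℝ) : ℝ := ∫ χ in (0 : ℝ)..2 * π, (1 - c.h (pt r χ))

/-- `∮ b²` -/
def Bc (c : Cf) (r : ℝ) : ℝ := ∫ χ in (0 : ℝ)..2 * π, c.b r χ ^ 2

variable {c : Cf} {n : ℕ}

private theorem cir_er : Continuous er := by
  unfold er
  fun_prop

private theorem cir_pt (r : ℝ) : Continuous fun χ : ℝ => pt r χ :=
  continuous_pt.comp (by fun_prop : Continuous fun χ : ℝ => (r, χ))

private theorem cir_par {f : ℝ × ℝ → ℝ} (hf : Continuous f) :
    Continuous fun r => ∫ χ in (0 : ℝ)..2 * π, f (r, χ) :=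
  intervalIntegral.continuous_parametric_intervalIntegral_of_continuous'
    (f := fun r χ => f (r, χ)) hf _ _

private theorem cir_two_pi : (0 : ℝ) ≤ 2 * π := by positivity

private theorem cir_T (hc : c.Adm n) : Continuous fun p : ℝ × ℝ => c.nsq (pt p.1 p.2) (er p.2) := by
  have h := (Adm.contDiff_nsq hc).continuous.comp
    (continuous_pt.prodMk (cir_er.comp continuous_snd))
  exact h

private theorem cir_X (hc : c.Adm n) :
    Continuous fun p : ℝ × ℝ => c.nsq (pt p.1 p.2) (Complex.I * pt p.1 p.2) := by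
  have h := (Adm.contDiff_nsq hc).continuous.comp
    (continuous_pt.prodMk (continuous_const (y := Complex.I).mul continuous_pt))
  exact h

private theorem cir_U (hc : c.Adm n) : Continuous fun p : ℝ × ℝ => (1 - c.h (pt p.1 p.2)) ^ 2 :=
  (continuous_const.sub (hc.sh.continuous.comp continuous_pt)).pow 2

private theorem cir_P (hc : c.Adm n) : Continuous fun p : ℝ × ℝ => 1 - c.h (pt p.1 p.2) :=
  continuous_const.sub (hc.sh.continuous.comp continuous_pt)

private theorem cir_Y (hc : c.Adm n) : Continuous fun p : ℝ × ℝ => c.F (pt p.1 p.2) ^ 2 :=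
  ((Adm.contDiff_F hc).continuous.comp continuous_pt).pow 2

private theorem cir_D (hc : c.Adm n) : Continuous fun p : ℝ × ℝ => c.dens (pt p.1 p.2) :=
  (Adm.contDiff_dens hc).continuous.comp continuous_pt

theorem Tc_nonneg (c : Cf) (r : ℝ) : 0 ≤ c.Tc r :=
  intervalIntegral.integral_nonneg cir_two_pi fun _ _ => nsq_nonneg c _ _

theorem Xo_nonneg (c : Cf) (r : ℝ) : 0 ≤ c.Xo r :=
  intervalIntegral.integral_nonneg cir_two_pi fun _ _ => nsq_nonneg c _ _

theorem Uc_nonneg (c : Cf) (r : ℝ) : 0 ≤ c.Uc r :=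
  intervalIntegral.integral_nonneg cir_two_pi fun _ _ => sq_nonneg _

theorem Yc_nonneg (c : Cf) (r : ℝ) : 0 ≤ c.Yc r :=
  intervalIntegral.integral_nonneg cir_two_pi fun _ _ => sq_nonneg _

theorem Bc_nonneg (c : Cf) (r : ℝ) : 0 ≤ c.Bc r :=
  intervalIntegral.integral_nonneg cir_two_pi fun _ _ => sq_nonneg _

theorem continuous_Tc (hc : c.Adm n) : Continuous c.Tc := cir_par (cir_T hc)

theorem continuous_Xo (hc : c.Adm n) : Continuous c.Xo := cir_par (cir_X hc)

theorem continuous_Uc (hc : c.Adm n) : Continuous c.Uc := cir_par (cir_U hc)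

theorem continuous_Yc (hc : c.Adm n) : Continuous c.Yc := cir_par (cir_Y hc)

theorem continuous_Pc (hc : c.Adm n) : Continuous c.Pc := cir_par (cir_P hc)

theorem continuous_Bc (hc : c.Adm n) : Continuous c.Bc :=
  cir_par (f := fun p => c.b p.1 p.2 ^ 2) ((Adm.contDiff_b hc).continuous.pow 2)

theorem continuous_fd (hc : c.Adm n) : Continuous c.fd :=
  continuous_const.mul (continuous_id.mul (cir_par (cir_D hc)))

theorem fd_nonneg (c : Cf) {r : ℝ} (hr : 0 ≤ r) : 0 ≤ c.fd r := by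
  unfold fd
  have := intervalIntegral.integral_nonneg (μ := volume) cir_two_pi
    (fun χ _ => dens_nonneg c (pt r χ))
  positivity

theorem fd_eq (hc : c.Adm n) {r : ℝ} (hr : 0 < r) :
    c.fd r = 1 / 2 * (r * c.Tc r + c.Xo r / r + r * c.Uc r + r * c.Yc r) := by
  have hrc : Continuous fun χ : ℝ => (r, χ) := by fun_prop
  have cT : Continuous fun χ => c.nsq (pt r χ) (er χ) := by
    have h := (cir_T hc).comp hrc
    exact h
  have cX : Continuous fun χ => c.nsq (pt r χ) (Complex.I * pt r χ) := by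
    have h := (cir_X hc).comp hrc
    exact h
  have cX2 : Continuous fun χ => c.nsq (pt r χ) (Complex.I * pt r χ) * (r ^ 2)⁻¹ :=
    cX.mul continuous_const
  have cU : Continuous fun χ => (1 - c.h (pt r χ)) ^ 2 := by
    have h := (cir_U hc).comp hrc
    exact h
  have cY : Continuous fun χ => c.F (pt r χ) ^ 2 := by
    have h := (cir_Y hc).comp hrc
    exact h
  have c3 : Continuous fun χ => c.nsq (pt r χ) (er χ) +
      c.nsq (pt r χ) (Complex.I * pt r χ) * (r ^ 2)⁻¹ := cT.add cX2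
  have c4 : Continuous fun χ => c.nsq (pt r χ) (er χ) +
      c.nsq (pt r χ) (Complex.I * pt r χ) * (r ^ 2)⁻¹ + (1 - c.h (pt r χ)) ^ 2 := c3.add cU
  have h1 : (∫ χ in (0 : ℝ)..2 * π, c.dens (pt r χ)) =
      c.Tc r + c.Xo r * (r ^ 2)⁻¹ + c.Uc r + c.Yc r := by
    unfold Tc Xo Uc Yc
    rw [← intervalIntegral.integral_mul_const, ← intervalIntegral.integral_add
      (cT.intervalIntegrable _ _) (cX2.intervalIntegrable _ _), ← intervalIntegral.integral_add
      (c3.intervalIntegrable _ _) (cU.intervalIntegrable _ _),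
      ← intervalIntegral.integral_add
      (c4.intervalIntegrable _ _) (cY.intervalIntegrable _ _)]
    refine intervalIntegral.integral_congr fun χ _ => ?_
    show c.dens (pt r χ) = _
    unfold dens
    rw [grad_polar c hr.ne' χ, div_eq_mul_inv]
  unfold fd
  rw [h1]
  field_simp

theorem fd_int (hc : c.Adm n) : IntegrableOn c.fd (Ioi 0) ∧ ∫ r in Ioi (0 : ℝ), c.fd r = c.E := by
  have h1 := polar_integral c.dens hc.fin 0
  have h2 := polar_integrableOn c.dens hc.fin 0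
  simp only [zero_add] at h1 h2
  constructor
  · exact h2.const_mul (1 / 2)
  · unfold fd E
    rw [h1, integral_const_mul]

/-- consequences of `fd_eq` -/
theorem Xo_le_fd (hc : c.Adm n) {r : ℝ} (hr : 0 < r) : c.Xo r ≤ 2 * (r * c.fd r) := by
  have h1 := mul_nonneg (sq_nonneg r) (Tc_nonneg c r)
  have h2 := mul_nonneg (sq_nonneg r) (Uc_nonneg c r)
  have h3 := mul_nonneg (sq_nonneg r) (Yc_nonneg c r)
  have h4 : 2 * (r * c.fd r) = r ^ 2 * c.Tc r + c.Xo r + r ^ 2 * c.Uc r + r ^ 2 * c.Yc r := by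
    rw [fd_eq hc hr]
    field_simp
  linarith

theorem Uc_le_fd (hc : c.Adm n) {r : ℝ} (hr : 0 < r) : r ^ 2 * c.Uc r ≤ 2 * (r * c.fd r) := by
  have h1 := mul_nonneg (sq_nonneg r) (Tc_nonneg c r)
  have h2 := Xo_nonneg c r
  have h3 := mul_nonneg (sq_nonneg r) (Yc_nonneg c r)
  have h4 : 2 * (r * c.fd r) = r ^ 2 * c.Tc r + c.Xo r + r ^ 2 * c.Uc r + r ^ 2 * c.Yc r := by
    rw [fd_eq hc hr]
    field_simp
  linarith

theorem XU_le_fd (hc : c.Adm n) {r : ℝ} (hr : 0 < r) :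
    c.Xo r + r ^ 2 * c.Uc r ≤ 2 * (r * c.fd r) := by
  have h1 := mul_nonneg (sq_nonneg r) (Tc_nonneg c r)
  have h3 := mul_nonneg (sq_nonneg r) (Yc_nonneg c r)
  have h4 : 2 * (r * c.fd r) = r ^ 2 * c.Tc r + c.Xo r + r ^ 2 * c.Uc r + r ^ 2 * c.Yc r := by
    rw [fd_eq hc hr]
    field_simp
  linarith

/-- Cauchy-Schwarz: `(∮ (1 - h))² ≤ 2 π ∮ (1 - h)²` -/
theorem Pc_sq_le (hc : c.Adm n) (r : ℝ) : c.Pc r ^ 2 ≤ 2 * π * c.Uc r := by
  have hrc : Continuous fun χ : ℝ => (r, χ) := by fun_prop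
  have hpi := Real.pi_pos
  set g : ℝ → ℝ := fun χ => 1 - c.h (pt r χ) with hg
  have cg : Continuous g := by
    have h := (cir_P hc).comp hrc
    exact h
  set m : ℝ := c.Pc r / (2 * π) with hm
  have h1 : 0 ≤ ∫ χ in (0 : ℝ)..2 * π, (g χ - m) ^ 2 :=
    intervalIntegral.integral_nonneg cir_two_pi fun _ _ => sq_nonneg _
  have c1 : Continuous fun χ => g χ ^ 2 := cg.pow 2
  have c2 : Continuous fun χ => 2 * m * g χ := continuous_const.mul cg
  have c3 : Continuous fun χ => g χ ^ 2 - 2 * m * g χ := c1.sub c2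
  have h2 : (∫ χ in (0 : ℝ)..2 * π, (g χ - m) ^ 2) =
      c.Uc r - 2 * m * c.Pc r + m ^ 2 * (2 * π) := by
    have e : ∀ χ, (g χ - m) ^ 2 = g χ ^ 2 - 2 * m * g χ + m ^ 2 := fun χ => by ring
    simp_rw [e]
    rw [intervalIntegral.integral_add (c3.intervalIntegrable _ _) intervalIntegrable_const,
      intervalIntegral.integral_sub (c1.intervalIntegrable _ _) (c2.intervalIntegrable _ _),
      intervalIntegral.integral_const_mul, intervalIntegral.integral_const, smul_eq_mul, sub_zero,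
      mul_comm (2 * π) (m ^ 2)]
    rfl
  rw [h2] at h1
  have h3 : c.Pc r = m * (2 * π) := by
    rw [hm]
    field_simp
  rw [h3] at h1 ⊢
  have h4 : 0 ≤ 2 * π * (c.Uc r - 2 * m * (m * (2 * π)) + m ^ 2 * (2 * π)) := by positivity
  nlinarith [h4]

theorem Pc_nonneg (hc : c.Adm n) (r : ℝ) : 0 ≤ c.Pc r :=
  intervalIntegral.integral_nonneg cir_two_pi fun χ _ => by
    have := (abs_le.1 (Adm.abs_h_le hc (pt r χ))).2
    linarith

theorem small_seq (hc : c.Adm n) {ε : ℝ} (hε : 0 < ε) (R : ℝ) : ∃ r, R ≤ r ∧ 0 < r ∧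
    r * c.fd r ≤ ε := by
  by_contra hcon
  push Not at hcon
  set R' := max R 1 with hR'
  have hR1 : 1 ≤ R' := le_max_right _ _
  have h1 : IntegrableOn c.fd (Ioi R') := (fd_int hc).1.mono_set (Ioi_subset_Ioi (by linarith))
  have h2 : IntegrableOn (fun r : ℝ => r⁻¹) (Ioi R') := by
    have h3 : IntegrableOn (fun r : ℝ => ε⁻¹ * c.fd r) (Ioi R') := h1.const_mul _
    refine h3.mono' (by fun_prop) ?_
    refine (ae_restrict_mem measurableSet_Ioi).mono fun r hr => ?_
    have hr0 : 0 < r := by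
      have : R' < r := hr
      linarith
    have h4 := hcon r ((le_max_left _ _).trans (le_of_lt hr)) hr0
    rw [Real.norm_eq_abs, abs_of_pos (inv_pos.2 hr0), ← div_eq_inv_mul, le_div_iff₀ hε,
      ← div_eq_inv_mul, div_le_iff₀ hr0]
    linarith
  exact not_integrableOn_Ioi_inv h2

end Cf

end GO3
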