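import Pool.Agent.GO3.D.Jal
import Pool.Agent.GO3.D.Bwt

/-! GO3 / D / Jin: integrability of the degree density (D3 of the proof text, part D, helper85).

`|J| = |J|` is continuous and nonnegative; `polar_integrable` with `q = 0`: it suffices that `r ∮ |J (pt r χ)| dχ` is integrable on
`Ioi 0`; it is continuous, so `IntegrableOn` on `(0, 1]` is clear, and for `r ≥ 1` (`J_pt`, `JA_le`)
`r |J| ≤ (r/2) grad + |b| |∂_r h|`, `∮ (r/2) grad ≤ fd`, and `|b| |∂_r h| ≤ (1/2)(r^(5/2) |∂_r h|² + r^(-5/2) b²)`, `|∂_r h|² ≤ nsq (er)`,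
`r Tc ≤ 2 fd`, so `∮ |b| |∂_r h| ≤ r^(3/2) fd + (1/2) r^(-5/2) C √r = r^(3/2) fd + (C/2) r^(-2)` (`Bc_le`), integrable on `Ioi 1`. -/

open MeasureTheory Filter Topology Set
open scoped ContDiff Real

noncomputable section

namespace GO3

namespace D

variable {c : Cf} {n : ℕ}

private theorem jin_pt (hc : c.Adm n) (hr : c.Rad) {r : ℝ} (hr0 : 0 < r) (χ : ℝ) {t : ℝ} (ht : 0 < t) :
    r * |c.J (pt r χ)| ≤ r / 2 * c.dens (pt r χ) +
      (1 / 2 * t * c.nsq (pt r χ) (er χ) + 1 / 2 * t⁻¹ * c.b r χ ^ 2) := by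
  have h1 := Cf.J_pt hc hr r χ
  have h2 := Cf.JA_le hc (pt r χ)
  have h3 : c.grad (pt r χ) ≤ c.dens (pt r χ) := by
    unfold Cf.dens
    have := sq_nonneg (1 - c.h (pt r χ))
    have := sq_nonneg (c.F (pt r χ))
    linarith
  have h4 := c.dh_le (pt r χ) (er χ)
  have e1 : r * |c.J (pt r χ)| = |r * c.J (pt r χ)| := by rw [abs_mul, abs_of_pos hr0]
  rw [e1, h1]
  refine (abs_sub _ _).trans ?_
  rw [abs_mul, abs_mul, abs_of_pos hr0]
  have h5 : r * |c.JA (pt r χ)| ≤ r / 2 * c.dens (pt r χ) := by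
    have := mul_le_mul_of_nonneg_left (h2.trans (mul_le_mul_of_nonneg_left h3 (by norm_num))) hr0.le
    linarith
  have h6 : |c.b r χ| * |c.dh (pt r χ) (er χ)| ≤
      1 / 2 * t * c.dh (pt r χ) (er χ) ^ 2 + 1 / 2 * t⁻¹ * c.b r χ ^ 2 := by
    have h7 : 0 ≤ t⁻¹ * (t * |c.dh (pt r χ) (er χ)| - |c.b r χ|) ^ 2 :=
      mul_nonneg (inv_nonneg.2 ht.le) (sq_nonneg _)
    have e2 : t⁻¹ * (t * |c.dh (pt r χ) (er χ)| - |c.b r χ|) ^ 2 =
        t * |c.dh (pt r χ) (er χ)| ^ 2 - 2 * (|c.b r χ| * |c.dh (pt r χ) (er χ)|) + t⁻¹ * |c.b r χ| ^ 2 := by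
      field_simp
      ring
    rw [e2, sq_abs, sq_abs] at h7
    linarith
  have h8 : 1 / 2 * t * c.dh (pt r χ) (er χ) ^ 2 ≤ 1 / 2 * t * c.nsq (pt r χ) (er χ) :=
    mul_le_mul_of_nonneg_left h4 (by positivity)
  linarith

theorem J_int (hc : c.Adm n) (hr : c.Rad)
    (hw : IntegrableOn (fun r => r ^ (3 / 2 : ℝ) * c.fd r) (Ioi 0)) : Integrable c.J := by
  obtain ⟨C, hC, hB⟩ := Bc_le hc hr hw
  have hJ := Cf.J_cont hc
  rw [← integrable_norm_iff hJ.aestronglyMeasurable]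
  refine polar_integrable (fun z => ‖c.J z‖) hJ.norm (fun z => norm_nonneg _) 0 ?_
  have hgc : Continuous fun r => ∫ χ in (0 : ℝ)..2 * π, ‖c.J (0 + pt r χ)‖ :=
    continuous_circle (fun z => ‖c.J z‖) hJ.norm 0 0 (2 * π)
  have hgc2 : Continuous fun r => r * ∫ χ in (0 : ℝ)..2 * π, ‖c.J (0 + pt r χ)‖ := continuous_id.mul hgc
  have hU : Ioi (0 : ℝ) = Ioc 0 1 ∪ Ioi 1 := (Ioc_union_Ioi_eq_Ioi zero_le_one).symm
  rw [hU, integrableOn_union]
  constructor
  · exact (hgc2.continuousOn.integrableOn_compact isCompact_Icc).mono_set Ioc_subset_Icc_self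
  · have hsub : Ioi (1 : ℝ) ⊆ Ioi 0 := Ioi_subset_Ioi zero_le_one
    have i1 : IntegrableOn c.fd (Ioi 1) := (Cf.fd_int hc).1.mono_set hsub
    have i2 : IntegrableOn (fun r => r ^ (3 / 2 : ℝ) * c.fd r) (Ioi 1) := hw.mono_set hsub
    have i3 : IntegrableOn (fun r : ℝ => r ^ (-2 : ℝ)) (Ioi 1) :=
      integrableOn_Ioi_rpow_of_lt (by norm_num) one_pos
    refine Integrable.mono' ((i1.add i2).add (i3.const_mul (C / 2))) hgc2.aestronglyMeasurable ?_
    rw [ae_restrict_iff' measurableSet_Ioi]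
    refine Eventually.of_forall fun r hr1 => ?_
    have hr0 : 0 < r := lt_trans one_pos hr1
    have ht : 0 < r ^ (5 / 2 : ℝ) := Real.rpow_pos_of_pos hr0 _
    have hcpt : Continuous fun χ : ℝ => pt r χ :=
      continuous_pt.comp (by fun_prop : Continuous fun χ : ℝ => (r, χ))
    have c1 : Continuous fun χ : ℝ => c.dens (pt r χ) := (Cf.Adm.contDiff_dens hc).continuous.comp hcpt
    have c2 : Continuous fun χ : ℝ => c.nsq (pt r χ) (er χ) := by
      have h2 : Continuous fun χ : ℝ => (pt r χ, er χ) := by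
        refine hcpt.prodMk ?_
        unfold er
        fun_prop
      have h := (Cf.Adm.contDiff_nsq hc).continuous.comp h2
      exact h
    have c3 : Continuous fun χ : ℝ => c.b r χ ^ 2 := by
      have h := (Cf.Adm.contDiff_b hc).continuous.comp (by fun_prop : Continuous fun χ : ℝ => (r, χ))
      exact h.pow 2
    have c4 : Continuous fun χ : ℝ => ‖c.J (0 + pt r χ)‖ := by
      simp only [zero_add]
      exact (hJ.comp hcpt).norm
    have h0 : 0 ≤ ∫ χ in (0 : ℝ)..2 * π, ‖c.J (0 + pt r χ)‖ :=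
      intervalIntegral.integral_nonneg (by positivity) fun χ _ => norm_nonneg _
    rw [Real.norm_of_nonneg (mul_nonneg hr0.le h0)]
    have j1 : IntervalIntegrable (fun χ => r / 2 * c.dens (pt r χ)) volume 0 (2 * π) :=
      (c1.const_mul _).intervalIntegrable _ _
    have j2 : IntervalIntegrable (fun χ => 1 / 2 * r ^ (5 / 2 : ℝ) * c.nsq (pt r χ) (er χ)) volume 0 (2 * π) :=
      (c2.const_mul _).intervalIntegrable _ _
    have j3 : IntervalIntegrable (fun χ => 1 / 2 * (r ^ (5 / 2 : ℝ))⁻¹ * c.b r χ ^ 2) volume 0 (2 * π) :=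
      (c3.const_mul _).intervalIntegrable _ _
    have h1 : r * ∫ χ in (0 : ℝ)..2 * π, ‖c.J (0 + pt r χ)‖ ≤
        ∫ χ in (0 : ℝ)..2 * π, (r / 2 * c.dens (pt r χ) +
          (1 / 2 * r ^ (5 / 2 : ℝ) * c.nsq (pt r χ) (er χ) + 1 / 2 * (r ^ (5 / 2 : ℝ))⁻¹ * c.b r χ ^ 2)) := by
      rw [← intervalIntegral.integral_const_mul]
      refine intervalIntegral.integral_mono_on (by positivity) ((c4.const_mul _).intervalIntegrable _ _)
        (j1.add (j2.add j3)) fun χ _ => ?_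
      rw [zero_add, Real.norm_eq_abs]
      exact jin_pt hc hr hr0 χ ht
    rw [intervalIntegral.integral_add j1 (j2.add j3), intervalIntegral.integral_add j2 j3,
      intervalIntegral.integral_const_mul, intervalIntegral.integral_const_mul,
      intervalIntegral.integral_const_mul] at h1
    refine h1.trans ?_
    change _ ≤ c.fd r + r ^ (3 / 2 : ℝ) * c.fd r + C / 2 * r ^ (-2 : ℝ)
    have k1 : r / 2 * ∫ χ in (0 : ℝ)..2 * π, c.dens (pt r χ) = c.fd r := by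
      unfold Cf.fd
      ring
    have hT : r * c.Tc r ≤ 2 * c.fd r := by
      have h2 := Cf.fd_eq hc hr0
      have h3 : 0 ≤ c.Xo r / r := div_nonneg (Cf.Xo_nonneg c r) hr0.le
      have h4 : 0 ≤ r * c.Uc r := mul_nonneg hr0.le (Cf.Uc_nonneg c r)
      have h5 : 0 ≤ r * c.Yc r := mul_nonneg hr0.le (Cf.Yc_nonneg c r)
      linarith
    have e52 : r ^ (5 / 2 : ℝ) = r ^ (3 / 2 : ℝ) * r := by
      have : (5 / 2 : ℝ) = 3 / 2 + 1 := by norm_num
      rw [this, Real.rpow_add hr0, Real.rpow_one]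
    have k2 : 1 / 2 * r ^ (5 / 2 : ℝ) * ∫ χ in (0 : ℝ)..2 * π, c.nsq (pt r χ) (er χ) ≤
        r ^ (3 / 2 : ℝ) * c.fd r := by
      have h2 : (∫ χ in (0 : ℝ)..2 * π, c.nsq (pt r χ) (er χ)) = c.Tc r := rfl
      rw [h2, e52]
      have h3 := mul_le_mul_of_nonneg_left hT (by positivity : 0 ≤ 1 / 2 * r ^ (3 / 2 : ℝ))
      linarith
    have k3 : 1 / 2 * (r ^ (5 / 2 : ℝ))⁻¹ * ∫ χ in (0 : ℝ)..2 * π, c.b r χ ^ 2 ≤ C / 2 * r ^ (-2 : ℝ) := by
      have h2 : (∫ χ in (0 : ℝ)..2 * π, c.b r χ ^ 2) = c.Bc r := rfl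
      rw [h2]
      have h3 := hB r hr0.le
      have e : (r ^ (5 / 2 : ℝ))⁻¹ * Real.sqrt r = r ^ (-2 : ℝ) := by
        rw [← Real.rpow_neg hr0.le, Real.sqrt_eq_rpow, ← Real.rpow_add hr0]
        norm_num
      calc 1 / 2 * (r ^ (5 / 2 : ℝ))⁻¹ * c.Bc r ≤ 1 / 2 * (r ^ (5 / 2 : ℝ))⁻¹ * (C * Real.sqrt r) :=
            mul_le_mul_of_nonneg_left h3 (by positivity)
        _ = C / 2 * ((r ^ (5 / 2 : ℝ))⁻¹ * Real.sqrt r) := by ring
        _ = C / 2 * r ^ (-2 : ℝ) := by rw [e]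
    rw [k1]
    linarith

end D

end GO3
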