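import Pool.Agent.GO3.D.Jal
import Pool.Agent.GO3.D.Cir

/-! GO3 / D / Jwe: the degree of a wedge is small (D4 of the proof text, part D, helper85).

`J_pt`: `r J = r J_A - b ∂_r h`. For fixed `χ` integrate by parts in `r` on `[0, R]` (`Rad.hasDerivAt_b`: `∂_r b = r F`;
`h' = ∂_r (h ∘ pt)`; `b (0, χ) = 0`): `∫_0^R (- b ∂_r h) dr = b (R, χ) (1 - h (pt R χ)) - ∫_0^R r F (1 - h) dr`. Integrate over
`χ ∈ [0, α]` and exchange the order (continuous integrands on a rectangle: `intervalIntegral_integral_swap`-type lemma, e.g.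
`MeasureTheory.integral_integral_swap` or `intervalIntegral.integral_comm`...). `|r J_A - r F (1 - h)| ≤ (r/2) dens` (`JA_le` and
`2 |F (1 - h)| ≤ F² + (1 - h)²`). `∫_0^R ∫_0^α (r/2) dens ≤ E/(2 n³)`: `wedge_circle` for `dens` (`dens_rot`, `dens_star`,
`ze_mul_pt`, `star_pt`): `∫_0^α (r/2) dens dχ = fd r / (2 n³)`; `fd_int`, `fd_nonneg`. -/

open MeasureTheory Filter Topology Set
open scoped ContDiff Real

noncomputable section

namespace GO3

namespace D

variable {c : Cf} {n : ℕ}

private theorem jw_swap {f : ℝ → ℝ → ℝ} (hf : Continuous fun p : ℝ × ℝ => f p.1 p.2) {a b : ℝ}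
    (ha : 0 ≤ a) (hb : 0 ≤ b) :
    ∫ x in (0 : ℝ)..a, ∫ y in (0 : ℝ)..b, f x y = ∫ y in (0 : ℝ)..b, ∫ x in (0 : ℝ)..a, f x y := by
  have e1 : ∀ x, ∫ y in (0 : ℝ)..b, f x y = ∫ y in Ioc 0 b, f x y := fun x =>
    intervalIntegral.integral_of_le hb
  have e2 : ∀ y, ∫ x in (0 : ℝ)..a, f x y = ∫ x in Ioc 0 a, f x y := fun y =>
    intervalIntegral.integral_of_le ha
  simp only [e1, e2]
  rw [intervalIntegral.integral_of_le ha, intervalIntegral.integral_of_le hb]
  apply integral_integral_swap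
  rw [Measure.prod_restrict]
  have h1 : IntegrableOn (fun p : ℝ × ℝ => f p.1 p.2) (Icc 0 a ×ˢ Icc 0 b)
      ((volume : Measure ℝ).prod volume) :=
    hf.continuousOn.integrableOn_compact (isCompact_Icc.prod isCompact_Icc)
  exact h1.mono_set (prod_mono Ioc_subset_Icc_self Ioc_subset_Icc_self)

private theorem jw_er : Continuous fun q : ℝ × ℝ => er q.2 := by
  unfold er
  fun_prop

theorem wedge_le (hn : 2 ≤ n) (hc : c.Adm n) (hr : c.Rad) {R : ℝ} (hR : 0 ≤ R) :
    |∫ r in (0 : ℝ)..R, ∫ χ in (0 : ℝ)..al n, r * c.J (pt r χ)| ≤ c.E / (2 * (n : ℝ) ^ 3) +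
      |∫ χ in (0 : ℝ)..al n, c.b R χ * (1 - c.h (pt R χ))| := by
  have hn0 : 0 < n := by omega
  have ha := al_pos hn0
  have cJA : Continuous fun p : ℝ × ℝ => c.JA (pt p.1 p.2) := (Cf.JA_cont hc).comp continuous_pt
  have cF : Continuous fun p : ℝ × ℝ => c.F (pt p.1 p.2) :=
    hc.contDiff_F.continuous.comp continuous_pt
  have ch : Continuous fun p : ℝ × ℝ => c.h (pt p.1 p.2) := hc.sh.continuous.comp continuous_pt
  have cb : Continuous fun p : ℝ × ℝ => c.b p.1 p.2 := hc.contDiff_b.continuous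
  have cdh : Continuous fun p : ℝ × ℝ => c.dh (pt p.1 p.2) (er p.2) := by
    have h1 : Continuous fun q : ℝ × ℝ => ((pt q.1 q.2, er q.2) : ℂ × ℂ) :=
      continuous_pt.prodMk jw_er
    have h2 := hc.contDiff_dh.continuous.comp h1
    exact h2
  have cd : Continuous fun p : ℝ × ℝ => c.dens (pt p.1 p.2) :=
    hc.contDiff_dens.continuous.comp continuous_pt
  have cf1 : Continuous fun p : ℝ × ℝ =>
      p.1 * c.JA (pt p.1 p.2) - p.1 * c.F (pt p.1 p.2) * (1 - c.h (pt p.1 p.2)) := by fun_prop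
  have cf2 : Continuous fun p : ℝ × ℝ => p.1 * c.F (pt p.1 p.2) * (1 - c.h (pt p.1 p.2)) -
      c.b p.1 p.2 * c.dh (pt p.1 p.2) (er p.2) := by fun_prop
  have sl : ∀ {f : ℝ → ℝ → ℝ}, (Continuous fun p : ℝ × ℝ => f p.1 p.2) → ∀ x,
      Continuous fun y => f x y := fun hf x => hf.comp (Continuous.prodMk_right x)
  have sl' : ∀ {f : ℝ → ℝ → ℝ}, (Continuous fun p : ℝ × ℝ => f p.1 p.2) → ∀ y,
      Continuous fun x => f x y := fun hf y => hf.comp (Continuous.prodMk_left y)
  have si : ∀ {f : ℝ → ℝ → ℝ}, (Continuous fun p : ℝ × ℝ => f p.1 p.2) →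
      Continuous fun x => ∫ y in (0 : ℝ)..al n, f x y := fun hf =>
    intervalIntegral.continuous_parametric_intervalIntegral_of_continuous' hf 0 (al n)
  -- splitting
  have h1 : ∫ r in (0 : ℝ)..R, ∫ χ in (0 : ℝ)..al n, r * c.J (pt r χ) =
      (∫ r in (0 : ℝ)..R, ∫ χ in (0 : ℝ)..al n,
        (r * c.JA (pt r χ) - r * c.F (pt r χ) * (1 - c.h (pt r χ)))) +
      ∫ r in (0 : ℝ)..R, ∫ χ in (0 : ℝ)..al n,
        (r * c.F (pt r χ) * (1 - c.h (pt r χ)) - c.b r χ * c.dh (pt r χ) (er χ)) := by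
    rw [← intervalIntegral.integral_add]
    · refine intervalIntegral.integral_congr fun r _ => ?_
      rw [← intervalIntegral.integral_add]
      · refine intervalIntegral.integral_congr fun χ _ => ?_
        rw [Cf.J_pt hc hr]
        ring
      · exact (sl (f := fun r χ => r * c.JA (pt r χ) - r * c.F (pt r χ) * (1 - c.h (pt r χ)))
          cf1 r).intervalIntegrable _ _
      · exact (sl (f := fun r χ => r * c.F (pt r χ) * (1 - c.h (pt r χ)) -
          c.b r χ * c.dh (pt r χ) (er χ)) cf2 r).intervalIntegrable _ _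
    · exact (si (f := fun r χ => r * c.JA (pt r χ) - r * c.F (pt r χ) * (1 - c.h (pt r χ)))
          cf1).intervalIntegrable _ _
    · exact (si (f := fun r χ => r * c.F (pt r χ) * (1 - c.h (pt r χ)) -
          c.b r χ * c.dh (pt r χ) (er χ)) cf2).intervalIntegrable _ _
  -- the exact part
  have h2 : ∫ r in (0 : ℝ)..R, ∫ χ in (0 : ℝ)..al n,
        (r * c.F (pt r χ) * (1 - c.h (pt r χ)) - c.b r χ * c.dh (pt r χ) (er χ)) =
      ∫ χ in (0 : ℝ)..al n, c.b R χ * (1 - c.h (pt R χ)) := by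
    rw [jw_swap (f := fun r χ => r * c.F (pt r χ) * (1 - c.h (pt r χ)) -
      c.b r χ * c.dh (pt r χ) (er χ)) cf2 hR ha.le]
    refine intervalIntegral.integral_congr fun χ _ => ?_
    have k1 : ∀ r : ℝ, HasDerivAt (fun r => c.b r χ * (1 - c.h (pt r χ)))
        (r * c.F (pt r χ) * (1 - c.h (pt r χ)) - c.b r χ * c.dh (pt r χ) (er χ)) r := by
      intro r
      have m1 := hr.hasDerivAt_b r χ
      have m2 : HasDerivAt (fun r => c.h (pt r χ)) (c.dh (pt r χ) (er χ)) r :=
        (hc.sh.differentiable (by simp) (pt r χ)).hasFDerivAt.comp_hasDerivAt r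
          (hasDerivAt_pt_r r χ)
      have m3 := m1.mul (m2.const_sub 1)
      refine m3.congr_deriv ?_
      ring
    rw [intervalIntegral.integral_eq_sub_of_hasDerivAt (fun r _ => k1 r)
      ((sl' (f := fun r χ => r * c.F (pt r χ) * (1 - c.h (pt r χ)) -
      c.b r χ * c.dh (pt r χ) (er χ)) cf2 χ).intervalIntegrable _ _)]
    have h0 : c.b 0 χ = 0 := by
      unfold Cf.b ip
      simp [pt]
    rw [h0, zero_mul, sub_zero]
  -- the estimate
  have h3 : |∫ r in (0 : ℝ)..R, ∫ χ in (0 : ℝ)..al n,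
        (r * c.JA (pt r χ) - r * c.F (pt r χ) * (1 - c.h (pt r χ)))| ≤
      c.E / (2 * (n : ℝ) ^ 3) := by
    have k1 : ∀ r, 0 ≤ r → |∫ χ in (0 : ℝ)..al n,
        (r * c.JA (pt r χ) - r * c.F (pt r χ) * (1 - c.h (pt r χ)))| ≤
        c.fd r / (2 * (n : ℝ) ^ 3) := by
      intro r hr0
      have m1 : |∫ χ in (0 : ℝ)..al n,
          (r * c.JA (pt r χ) - r * c.F (pt r χ) * (1 - c.h (pt r χ)))| ≤
          ∫ χ in (0 : ℝ)..al n, 1 / 2 * (r * c.dens (pt r χ)) := by
        refine (intervalIntegral.abs_integral_le_integral_abs ha.le).trans ?_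
        apply intervalIntegral.integral_mono_on ha.le
        · exact (sl (f := fun r χ => r * c.JA (pt r χ) - r * c.F (pt r χ) * (1 - c.h (pt r χ)))
            cf1 r).abs.intervalIntegrable _ _
        · apply Continuous.intervalIntegrable
          have := sl (f := fun r χ => c.dens (pt r χ)) cd r
          fun_prop
        · intro χ _
          have e : r * c.JA (pt r χ) - r * c.F (pt r χ) * (1 - c.h (pt r χ)) =
              r * (c.JA (pt r χ) - c.F (pt r χ) * (1 - c.h (pt r χ))) := by ring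
          rw [e, abs_mul, abs_of_nonneg hr0]
          have h4 := Cf.JA_le hc (pt r χ)
          have h5 : |c.JA (pt r χ) - c.F (pt r χ) * (1 - c.h (pt r χ))| ≤
              1 / 2 * c.dens (pt r χ) := by
            unfold Cf.dens
            rw [abs_le] at h4 ⊢
            constructor
            · nlinarith [sq_nonneg (c.F (pt r χ) - (1 - c.h (pt r χ)))]
            · nlinarith [sq_nonneg (c.F (pt r χ) + (1 - c.h (pt r χ)))]
          nlinarith
      refine m1.trans (le_of_eq ?_)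
      have m2 : ∫ χ in (0 : ℝ)..2 * π, c.dens (pt r χ) =
          2 * (n : ℝ) ^ 3 * ∫ χ in (0 : ℝ)..al n, c.dens (pt r χ) := by
        refine wedge_circle hn0 (fun χ => c.dens (pt r χ)) ?_ ?_ ?_
        · exact sl (f := fun r χ => c.dens (pt r χ)) cd r
        · intro χ
          show c.dens (pt r (χ + 2 * al n)) = _
          rw [← ze_mul_pt, hc.dens_rot]
        · intro χ
          show c.dens (pt r (-χ)) = _
          rw [← star_pt, hc.dens_star]
      unfold Cf.fd
      rw [m2, intervalIntegral.integral_const_mul, intervalIntegral.integral_const_mul]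
      have hn3 : (n : ℝ) ≠ 0 := by exact_mod_cast hn0.ne'
      field_simp
    have k2 : |∫ r in (0 : ℝ)..R, ∫ χ in (0 : ℝ)..al n,
        (r * c.JA (pt r χ) - r * c.F (pt r χ) * (1 - c.h (pt r χ)))| ≤
        ∫ r in (0 : ℝ)..R, c.fd r / (2 * (n : ℝ) ^ 3) := by
      refine (intervalIntegral.abs_integral_le_integral_abs hR).trans ?_
      apply intervalIntegral.integral_mono_on hR
      · exact (si (f := fun r χ => r * c.JA (pt r χ) - r * c.F (pt r χ) * (1 - c.h (pt r χ)))
          cf1).abs.intervalIntegrable _ _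
      · exact ((Cf.continuous_fd hc).div_const _).intervalIntegrable _ _
      · intro r hr0
        exact k1 r hr0.1
    refine k2.trans ?_
    rw [intervalIntegral.integral_div]
    apply div_le_div_of_nonneg_right _ (by positivity)
    obtain ⟨i1, e1⟩ := Cf.fd_int hc
    rw [← e1, intervalIntegral.integral_of_le hR]
    apply setIntegral_mono_set i1
    · filter_upwards [ae_restrict_mem measurableSet_Ioi] with r hr0
      exact Cf.fd_nonneg c (le_of_lt hr0)
    · exact LE.le.eventuallyLE Ioc_subset_Ioi_self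
  rw [h1, h2]
  exact (abs_add_le _ _).trans (add_le_add h3 le_rfl)

/-- `∫ J = 2 n³ ×` the wedge integral -/
theorem wedge_total (hn : 2 ≤ n) (hc : c.Adm n) (hi : Integrable c.J) :
    Tendsto (fun R => 2 * (n : ℝ) ^ 3 * ∫ r in (0 : ℝ)..R, ∫ χ in (0 : ℝ)..al n, r * c.J (pt r χ))
      atTop (𝓝 (∫ z, c.J z)) := by
  have hn0 : 0 < n := by omega
  rw [polar_integral c.J hi 0]
  have h1 := intervalIntegral_tendsto_integral_Ioi 0 (polar_integrableOn c.J hi 0) tendsto_id
  refine h1.congr fun R => ?_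
  rw [← intervalIntegral.integral_const_mul]
  refine intervalIntegral.integral_congr fun r _ => ?_
  rw [intervalIntegral.integral_const_mul]
  have cJ : Continuous fun χ : ℝ => c.J (pt r χ) :=
    (Cf.J_cont hc).comp (continuous_pt.comp (Continuous.prodMk_right r))
  have m2 : ∫ χ in (0 : ℝ)..2 * π, c.J (0 + pt r χ) =
      2 * (n : ℝ) ^ 3 * ∫ χ in (0 : ℝ)..al n, c.J (pt r χ) := by
    simp only [zero_add]
    refine wedge_circle hn0 (fun χ => c.J (pt r χ)) cJ ?_ ?_
    · intro χ
      show c.J (pt r (χ + 2 * al n)) = _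
      rw [← ze_mul_pt, Cf.J_rot hc]
    · intro χ
      show c.J (pt r (-χ)) = _
      rw [← star_pt, Cf.J_star hc]
  rw [m2]
  ring

end D

end GO3
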