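import Pool.Agent.GO3.D.Jal

/-! GO3 / D / Mpc: the quantisation of the area applied to a symmetric configuration (part D, helper85). -/

open MeasureTheory Filter Topology Set
open scoped ContDiff Real ComplexConjugate

noncomputable section

namespace GO3

namespace D

variable {c : Cf} {n : ℕ}

theorem mp_of_adm (hn : 2 ≤ n) (hc : c.Adm n) :
    Mp (fun p : ℝ × ℝ => c.w (pt p.1 p.2)) (fun p : ℝ × ℝ => c.h (pt p.1 p.2)) (al n)
      (Complex.exp (al n * Complex.I)) where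
  sW := hc.sw.comp contDiff_pt
  sH := hc.sh.comp contDiff_pt
  unit := fun p => by
    have h := hc.unit (pt p.1 p.2)
    rw [Complex.sq_norm] at h
    rw [Complex.mul_conj]
    exact_mod_cast congrArg (fun x : ℝ => (x : ℂ)) h
  r0 := fun r => hc.w_ray0 r
  r1 := fun r => by
    obtain ⟨y, hy⟩ := hc.w_ray1 (by omega : 0 < n) r
    show (conj (Complex.exp (al n * Complex.I)) * c.w (pt r (al n))).im = 0
    rw [hy]
    unfold er
    rw [← mul_assoc, ← Complex.exp_conj, ← Complex.exp_add]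
    simp
  hκ := by
    rw [← Complex.exp_conj, ← Complex.exp_add]
    simp

theorem uc_of_adm (hc : c.Adm n) {R : ℝ} (_hR : 0 < R) : ∃ η > 0, ∀ r0 ∈ Icc 0 R,
    ∀ r ∈ Ioo (r0 - η) (r0 + η), ∀ χ, 0 < 1 + c.h (pt r χ) * c.h (pt r0 χ) +
      (conj (c.w (pt r0 χ)) * c.w (pt r χ)).re := by
  have hK : IsCompact (Metric.closedBall (0 : ℂ) (R + 1)) := isCompact_closedBall _ _
  have u1 := hK.uniformContinuousOn_of_continuous hc.sw.continuous.continuousOn
  have u2 := hK.uniformContinuousOn_of_continuous hc.sh.continuous.continuousOn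
  rw [Metric.uniformContinuousOn_iff] at u1 u2
  obtain ⟨δ1, hδ1, v1⟩ := u1 (1 / 2) (by norm_num)
  obtain ⟨δ2, hδ2, v2⟩ := u2 (1 / 2) (by norm_num)
  refine ⟨min 1 (min δ1 δ2), by positivity, fun r0 hr0 r hr χ => ?_⟩
  have hd : |r - r0| < min 1 (min δ1 δ2) := by
    rw [abs_lt]
    constructor
    · linarith [hr.1]
    · linarith [hr.2]
  have hd1 : |r - r0| < 1 := hd.trans_le (min_le_left _ _)
  have hd2 : |r - r0| < δ1 := hd.trans_le ((min_le_right _ _).trans (min_le_left _ _))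
  have hd3 : |r - r0| < δ2 := hd.trans_le ((min_le_right _ _).trans (min_le_right _ _))
  have hdist : dist (pt r χ) (pt r0 χ) = |r - r0| := by
    rw [dist_eq_norm, pt_eq, pt_eq, ← sub_mul, norm_mul, norm_er, mul_one, ← Complex.ofReal_sub,
      Complex.norm_real, Real.norm_eq_abs]
  have hm1 : pt r χ ∈ Metric.closedBall (0 : ℂ) (R + 1) := by
    rw [mem_closedBall_zero_iff, norm_pt]
    have h1 := abs_sub_abs_le_abs_sub r r0
    have h2 : |r0| = r0 := abs_of_nonneg hr0.1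
    have h3 := hr0.2
    linarith
  have hm2 : pt r0 χ ∈ Metric.closedBall (0 : ℂ) (R + 1) := by
    rw [mem_closedBall_zero_iff, norm_pt, abs_of_nonneg hr0.1]
    linarith [hr0.2]
  have a1 := v1 _ hm1 _ hm2 (by rw [hdist]; exact hd2)
  have a2 := v2 _ hm1 _ hm2 (by rw [hdist]; exact hd3)
  rw [dist_eq_norm] at a1
  rw [Real.dist_eq] at a2
  have x1 := hc.unit (pt r χ)
  have x2 := hc.unit (pt r0 χ)
  rw [Complex.sq_norm, Complex.normSq_apply] at x1 x2
  have b1 : ‖c.w (pt r χ) - c.w (pt r0 χ)‖ ^ 2 ≤ 1 / 4 := by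
    have := norm_nonneg (c.w (pt r χ) - c.w (pt r0 χ))
    nlinarith
  have b2 : (c.h (pt r χ) - c.h (pt r0 χ)) ^ 2 ≤ 1 / 4 := by
    rw [← sq_abs]
    have := abs_nonneg (c.h (pt r χ) - c.h (pt r0 χ))
    nlinarith
  rw [Complex.sq_norm, Complex.normSq_apply] at b1
  simp only [Complex.mul_re, Complex.conj_re, Complex.conj_im, Complex.sub_re, Complex.sub_im] at b1 ⊢
  nlinarith

theorem wedge_quant (hn : 2 ≤ n) (hc : c.Adm n) (h0 : c.h 0 = -1) {R : ℝ} (hR : 0 < R)
    (hh : ∀ χ, 0 ≤ c.h (pt R χ)) :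
    ∃ k : ℤ, (∫ r in (0 : ℝ)..R, ∫ χ in (0 : ℝ)..al n, r * c.J (pt r χ)) =
      -2 * al n + 2 * π * k + ∫ χ in (0 : ℝ)..al n, (conj (c.w (pt R χ)) *
        fderiv ℝ (fun p : ℝ × ℝ => c.w (pt p.1 p.2)) (R, χ) (0, 1)).im / (1 + c.h (pt R χ)) := by
  have hpt0 : ∀ χ, pt 0 χ = 0 := by
    intro χ
    rw [pt_eq]
    simp
  obtain ⟨k, hk⟩ := area_quant (mp_of_adm hn hc) (al_pos (by omega : 0 < n)).le
    (fun χ => by
      show c.w (pt 0 χ) = 0
      rw [hpt0]
      exact hc.w_zero hn)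
    (fun χ => by
      show c.h (pt 0 χ) = -1
      rw [hpt0]
      exact h0)
    (fun R hR => uc_of_adm hc hR) hR
    (fun χ _ => by
      have := hh χ
      show -1 < c.h (pt R χ)
      linarith)
  refine ⟨k, ?_⟩
  rw [← hk]
  refine intervalIntegral.integral_congr fun r _ => ?_
  refine intervalIntegral.integral_congr fun χ _ => ?_
  exact Cf.J_polar hc r χ

end D

end GO3
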