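import Pool.Agent.GO3.D.Ex4

/-! GO3 / D / Out: decay inequality for the outer energy (D2 of the proof text, part D, helper85).

Fix `r`, `L = (5/4) r`. For small `ε > 0` let `κ` be `frz_out` at `(r, ε)` (`s = r + ε`, `r' = r + 2ε`) and
`τ x = τ₀ (4 (L - x)/r)` with `τ₀` from `step` with `ε₀ = 1`, `a ∈ (0, 1/4)`: `τ = 1` for `x ≤ L - (1 - a) r/4 = r + a r/4`, so
`2 ε ≤ a r/4` is needed; `τ = 0` for `x ≥ L`; `|deriv τ| ≤ (4/r) 2 = 8/r`. So `∫_{r'}^L ρ τ'² ≤ L (8/r)² (L - r) = 20`,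
`log (L/r') ≤ L/r - 1 = 1/4`, `L² - r'² ≤ L² - r² = (9/16) r²`. `ext_le` with `M` a bound of `dens` on the ball of radius `2 r`:
`∫_{Ioi r} fd ≤ π M (2r)(2ε) + (400/19) Pc (r+ε) + (5/38) Xo (r+ε) + (9/64) r² Uc (r+ε)`. Let `ε → 0` (continuity of `Pc, Xo, Uc`):
`∫_{Ioi r} fd ≤ (400/19) Pc r + (5/38) Xo r + (9/64) r² Uc r ≤ 22 Pc r + (9/64)(Xo r + r² Uc r) ≤ 22 Pc r + (9/32) r fd r` (`XU_le_fd`).
`Pc² ≤ 2π Uc ≤ 4π (r fd r)/r²` (`Pc_sq_le`, `Uc_le_fd`), `22 Pc ≤ (5/96) r fd r + 22² · 4π/(4 · 5/96 · r²)` (AM-GM) and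
`484 π · 96/5 ≤ 30000` (`π < 3.15`: `484 · 3.15 · 19.2 = 29272`). `9/32 + 5/96 = 1/3`. -/

open MeasureTheory Filter Topology Set
open scoped ContDiff Real

noncomputable section

namespace GO3

namespace D

private theorem out_amgm {X y r : ℝ} (hr : 0 < r) (hy : 0 ≤ y) (hX : 0 ≤ X)
    (h : y ^ 2 * r ^ 2 ≤ 4 * π * X) : 22 * y ≤ 5 / 96 * X + 30000 / r ^ 2 := by
  have hpi := Real.pi_lt_d2
  have hr2 : 0 < r ^ 2 := by positivity
  have h1 : y ^ 2 * r ^ 2 ≤ 63 / 5 * X := by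
    refine h.trans ?_
    exact mul_le_mul_of_nonneg_right (by norm_num at hpi ⊢; linarith) hX
  have h2 : (y * r ^ 2) ^ 2 ≤ 63 / 5 * (X * r ^ 2) := by
    have h3 := mul_le_mul_of_nonneg_right h1 hr2.le
    calc (y * r ^ 2) ^ 2 = y ^ 2 * r ^ 2 * r ^ 2 := by ring
      _ ≤ 63 / 5 * X * r ^ 2 := h3
      _ = _ := by ring
  have hz : 0 ≤ y * r ^ 2 := by positivity
  have h4 : 22 * (y * r ^ 2) ≤ 5 / 96 * (X * r ^ 2) + 30000 := by
    nlinarith [sq_nonneg (y * r ^ 2 - 2662)]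
  have h5 : 22 * y * r ^ 2 ≤ (5 / 96 * X + 30000 / r ^ 2) * r ^ 2 := by
    have e : (5 / 96 * X + 30000 / r ^ 2) * r ^ 2 = 5 / 96 * (X * r ^ 2) + 30000 := by
      field_simp
    rw [e]
    linarith
  exact le_of_mul_le_mul_right h5 hr2

theorem out_ineq (K : ℝ) (hK : 1 ≤ K) : ∃ n₀ : ℕ, 2 ≤ n₀ ∧ ∀ n : ℕ, n₀ ≤ n → ∀ (σ : ℝ) (c : Cf),
    c.Mini n σ → c.E ≤ K * n ^ 2 → ∀ r : ℝ, rp K n ≤ r → (∀ z : ℂ, r ≤ ‖z‖ → 9 / 10 ≤ c.h z) →
    ∫ ρ in Ioi r, c.fd ρ ≤ 1 / 3 * (r * c.fd r) + 30000 / r ^ 2 := by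
  obtain ⟨n₀, hn₀, hext⟩ := ext_le K hK
  refine ⟨n₀, hn₀, fun n hn σ c hM hE r hr hh => ?_⟩
  have hn2 : 2 ≤ n := hn₀.trans hn
  have hn0 : (0 : ℝ) < n := by exact_mod_cast (by omega : 0 < n)
  have hc : c.Adm n := hM.1.1
  have hr0 : 0 < r := by
    refine lt_of_lt_of_le ?_ hr
    unfold rp
    positivity
  obtain ⟨a, ha0, ha1, -, τ₀, s1, s2, s3, s4, s5⟩ := step one_pos
  obtain ⟨L, hL⟩ : ∃ L : ℝ, L = 5 / 4 * r := ⟨_, rfl⟩
  obtain ⟨τ, hτ⟩ : ∃ τ : ℝ → ℝ, τ = fun x => τ₀ (4 * (L - x) / r) := ⟨_, rfl⟩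
  have hτs : ContDiff ℝ ∞ τ := by
    rw [hτ]
    exact s1.comp ((contDiff_const.mul (contDiff_const.sub contDiff_id)).div_const r)
  have hτd : ∀ x, deriv τ x ^ 2 ≤ 64 / r ^ 2 := by
    intro x
    have h1 : HasDerivAt (fun x : ℝ => 4 * (L - x) / r) (-4 / r) x := by
      have h2 := (((hasDerivAt_id x).const_sub L).const_mul 4).div_const r
      refine h2.congr_deriv ?_
      ring
    have h2 : HasDerivAt τ (deriv τ₀ (4 * (L - x) / r) * (-4 / r)) x := by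
      rw [hτ]
      exact ((s1.differentiable (by simp) _).hasDerivAt).comp x h1
    rw [h2.deriv, mul_pow]
    obtain ⟨h3, h4⟩ := s5 (4 * (L - x) / r)
    have h5 : deriv τ₀ (4 * (L - x) / r) ^ 2 ≤ (1 + 1) ^ 2 := pow_le_pow_left₀ h3 h4 2
    calc deriv τ₀ (4 * (L - x) / r) ^ 2 * (-4 / r) ^ 2 ≤ (1 + 1) ^ 2 * (-4 / r) ^ 2 :=
          mul_le_mul_of_nonneg_right h5 (sq_nonneg _)
      _ = 64 / r ^ 2 := by
          field_simp
          norm_num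
  -- bound for the density
  obtain ⟨M, hMb⟩ := (isCompact_closedBall (0 : ℂ) (2 * r)).exists_bound_of_continuousOn
    (Cf.Adm.contDiff_dens hc).continuous.continuousOn
  have hM0 : 0 ≤ M := (norm_nonneg _).trans (hMb 0 (by
    rw [Metric.mem_closedBall, dist_self]
    positivity))
  -- the inequality for small ε
  obtain ⟨Φ, hΦ⟩ : ∃ Φ : ℝ → ℝ, Φ = fun ε => π * M * (2 * r) * (2 * ε) + 20 / 19 * (c.Pc (r + ε) * 20 +
      1 / 2 * c.Xo (r + ε) * (1 / 4)) + 1 / 4 * c.Uc (r + ε) * (9 / 16 * r ^ 2) := ⟨_, rfl⟩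
  have hΦc : Continuous Φ := by
    have h1 := Cf.continuous_Pc hc
    have h2 := Cf.continuous_Xo hc
    have h3 := Cf.continuous_Uc hc
    rw [hΦ]
    fun_prop
  have key : ∀ ε, 0 < ε → ε < a * r / 8 → ∫ ρ in Ioi r, c.fd ρ ≤ Φ ε := by
    intro ε hε hε1
    obtain ⟨κ, k1, k2, k3, k4, k5⟩ := frz_out (s := r) hε
    have har : a * r ≤ 1 / 4 * r := mul_le_mul_of_nonneg_right ha1.le hr0.le
    have hD : Dat τ κ r (r + ε) (r + 2 * ε) L := by
      refine ⟨hτs, k1, hr0, by linarith, by linarith, by rw [hL]; linarith, fun x hx => ?_, fun x hx => ?_,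
        fun x => ?_, k2, k4, k5, k3⟩
      · rw [hτ]
        refine s3 _ ?_
        rw [le_div_iff₀ hr0, hL]
        linarith
      · rw [hτ]
        refine s2 _ ?_
        rw [div_le_iff₀ hr0]
        have : 0 < a * r := by positivity
        linarith
      · rw [hτ]
        exact s4 _
    have h1 := hext n hn σ c hM hE τ κ r (r + ε) (r + 2 * ε) L hD hr hh M (fun z hz => by
      refine (le_abs_self _).trans ?_
      rw [← Real.norm_eq_abs]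
      refine hMb z ?_
      rw [Metric.mem_closedBall, dist_zero_right]
      linarith)
    have hP := Cf.Pc_nonneg hc (r + ε)
    have hX := Cf.Xo_nonneg c (r + ε)
    have hU := Cf.Uc_nonneg c (r + ε)
    have hrL : r + 2 * ε ≤ L := by rw [hL]; linarith
    have e1 : ∫ ρ in (r + 2 * ε)..L, ρ * deriv τ ρ ^ 2 ≤ 20 := by
      have hcd : Continuous fun ρ => ρ * deriv τ ρ ^ 2 :=
        continuous_id.mul ((hτs.continuous_deriv (by simp)).pow 2)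
      have h2 : ∫ ρ in (r + 2 * ε)..L, ρ * deriv τ ρ ^ 2 ≤ ∫ ρ in (r + 2 * ε)..L, L * (64 / r ^ 2) := by
        refine intervalIntegral.integral_mono_on hrL (hcd.intervalIntegrable _ _) intervalIntegrable_const
          fun ρ hρ => ?_
        exact mul_le_mul hρ.2 (hτd ρ) (sq_nonneg _) (by rw [hL]; positivity)
      rw [intervalIntegral.integral_const, smul_eq_mul] at h2
      refine h2.trans ?_
      have h3 : (L - (r + 2 * ε)) * (L * (64 / r ^ 2)) ≤ (r / 4) * (L * (64 / r ^ 2)) :=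
        mul_le_mul_of_nonneg_right (by rw [hL]; linarith) (by rw [hL]; positivity)
      refine h3.trans (le_of_eq ?_)
      rw [hL]
      field_simp
      norm_num
    have e2 : Real.log (L / (r + 2 * ε)) ≤ 1 / 4 := by
      have h2 : 0 < L / (r + 2 * ε) := by rw [hL]; positivity
      have h3 := Real.log_le_sub_one_of_pos h2
      have h4 : L / (r + 2 * ε) ≤ 5 / 4 := by
        rw [div_le_iff₀ (by positivity), hL]
        linarith
      linarith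
    have e3 : L ^ 2 - (r + 2 * ε) ^ 2 ≤ 9 / 16 * r ^ 2 := by
      rw [hL]
      nlinarith [mul_pos hr0 hε]
    have e4 : π * M * (r + 2 * ε) * (r + 2 * ε - r) ≤ π * M * (2 * r) * (2 * ε) := by
      have hpi := Real.pi_pos
      have h2 : r + 2 * ε - r = 2 * ε := by ring
      rw [h2]
      refine mul_le_mul_of_nonneg_right (mul_le_mul_of_nonneg_left (by linarith) (by positivity)) (by positivity)
    have e5 : c.Pc (r + ε) * (∫ ρ in (r + 2 * ε)..L, ρ * deriv τ ρ ^ 2) ≤ c.Pc (r + ε) * 20 :=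
      mul_le_mul_of_nonneg_left e1 hP
    have e6 : 1 / 2 * c.Xo (r + ε) * Real.log (L / (r + 2 * ε)) ≤ 1 / 2 * c.Xo (r + ε) * (1 / 4) :=
      mul_le_mul_of_nonneg_left e2 (by positivity)
    have e7 : 1 / 4 * c.Uc (r + ε) * (L ^ 2 - (r + 2 * ε) ^ 2) ≤ 1 / 4 * c.Uc (r + ε) * (9 / 16 * r ^ 2) :=
      mul_le_mul_of_nonneg_left e3 (by positivity)
    rw [hΦ]
    change _ ≤ π * M * (2 * r) * (2 * ε) + 20 / 19 * (c.Pc (r + ε) * 20 +
      1 / 2 * c.Xo (r + ε) * (1 / 4)) + 1 / 4 * c.Uc (r + ε) * (9 / 16 * r ^ 2)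
    linarith
  have hlim : ∫ ρ in Ioi r, c.fd ρ ≤ Φ 0 := by
    have h1 : Tendsto Φ (𝓝[>] 0) (𝓝 (Φ 0)) := (hΦc.tendsto 0).mono_left nhdsWithin_le_nhds
    refine ge_of_tendsto h1 ?_
    have h2 : 0 < a * r / 8 := by positivity
    filter_upwards [Ioo_mem_nhdsGT h2] with ε hε
    exact key ε hε.1 hε.2
  have hΦ0 : Φ 0 = 20 / 19 * (c.Pc r * 20 + 1 / 2 * c.Xo r * (1 / 4)) +
      1 / 4 * c.Uc r * (9 / 16 * r ^ 2) := by
    rw [hΦ]
    simp
  rw [hΦ0] at hlim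
  have hP := Cf.Pc_nonneg hc r
  have hX := Cf.Xo_nonneg c r
  have hU := Cf.Uc_nonneg c r
  have hXU := Cf.XU_le_fd hc hr0
  have hUf := Cf.Uc_le_fd hc hr0
  have hPs := Cf.Pc_sq_le hc r
  have hfd : 0 ≤ r * c.fd r := mul_nonneg hr0.le (Cf.fd_nonneg c hr0.le)
  have hpi := Real.pi_pos
  have ham := out_amgm hr0 hP hfd (by
    calc c.Pc r ^ 2 * r ^ 2 ≤ 2 * π * c.Uc r * r ^ 2 := mul_le_mul_of_nonneg_right hPs (sq_nonneg r)
      _ = 2 * π * (r ^ 2 * c.Uc r) := by ring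
      _ ≤ 2 * π * (2 * (r * c.fd r)) := mul_le_mul_of_nonneg_left hUf (by positivity)
      _ = 4 * π * (r * c.fd r) := by ring)
  linarith

end D

end GO3
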