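import Mathlib

/-! GO3 / D / Wti: weighted integrability from the decay inequality (pure calculus, part D, helper85).

`P r = ∫_{Ioi r} f`, `P' = - f` for `r > a` (`f` continuous), `P ≥ 0`. For `a < A ≤ R` (first take `A > a`, at the end
`A → a` or simply work with `a` replaced by `A` and add the continuous part on `[a, A]`):
`(r^(3/2) P)' = (3/2) r^(1/2) P - r^(3/2) f`, so
`∫_A^R r^(3/2) f = (3/2) ∫_A^R r^(1/2) P + A^(3/2) P A - R^(3/2) P R ≤ (3/2) ∫_A^R r^(1/2) P + A^(3/2) P A`, and by the hypothesis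
`(3/2) r^(1/2) P ≤ (1/2) r^(3/2) f + (3/2) C r^(-3/2)`, `∫_A^R r^(-3/2) ≤ 2 A^(-1/2)`. So
`(1/2) ∫_A^R r^(3/2) f ≤ 3 C A^(-1/2) + A^(3/2) P A`: bounded in `R`, hence integrable
(`integrableOn_Ioi_of_intervalIntegral_norm_bounded`). -/

open MeasureTheory Filter Topology Set

namespace GO3

namespace D

private theorem wti_mono {f Q : ℝ → ℝ} (hf : Continuous f) (hQ : ∀ r, HasDerivAt Q (-f r) r)
    {a C : ℝ} (ha : 0 < a) (h : ∀ r, a ≤ r → Q r ≤ 1 / 3 * (r * f r) + C / r ^ 2) :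
    AntitoneOn (fun r => 1 / 2 * (∫ ρ in a..r, ρ ^ (3 / 2 : ℝ) * f ρ) + r ^ (3 / 2 : ℝ) * Q r +
      3 * C * r ^ (-(1 / 2) : ℝ)) (Ici a) := by
  have hc : Continuous fun ρ : ℝ => ρ ^ (3 / 2 : ℝ) * f ρ :=
    (continuous_id.rpow_const fun x => Or.inr (by norm_num)).mul hf
  have hd : ∀ r, a ≤ r → HasDerivAt (fun r => 1 / 2 * (∫ ρ in a..r, ρ ^ (3 / 2 : ℝ) * f ρ) +
      r ^ (3 / 2 : ℝ) * Q r + 3 * C * r ^ (-(1 / 2) : ℝ))
      (1 / 2 * (r ^ (3 / 2 : ℝ) * f r) + ((3 / 2) * r ^ (3 / 2 - 1 : ℝ) * Q r +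
        r ^ (3 / 2 : ℝ) * (-f r)) + 3 * C * (-(1 / 2) * r ^ (-(1 / 2) - 1 : ℝ))) r := by
    intro r hr
    have hr0 : 0 < r := lt_of_lt_of_le ha hr
    have d1 : HasDerivAt (fun r => ∫ ρ in a..r, ρ ^ (3 / 2 : ℝ) * f ρ) (r ^ (3 / 2 : ℝ) * f r) r :=
      hc.integral_hasStrictDerivAt a r |>.hasDerivAt
    have d2 : HasDerivAt (fun r : ℝ => r ^ (3 / 2 : ℝ)) ((3 / 2) * r ^ (3 / 2 - 1 : ℝ)) r :=
      Real.hasDerivAt_rpow_const (Or.inl hr0.ne')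
    have d3 : HasDerivAt (fun r : ℝ => r ^ (-(1 / 2) : ℝ)) (-(1 / 2) * r ^ (-(1 / 2) - 1 : ℝ)) r :=
      Real.hasDerivAt_rpow_const (Or.inl hr0.ne')
    exact ((d1.const_mul (1 / 2)).add (d2.mul (hQ r))).add (d3.const_mul (3 * C))
  refine antitoneOn_of_deriv_nonpos (convex_Ici a)
    (fun r hr => (hd r hr).continuousAt.continuousWithinAt) ?_ ?_
  · intro r hr
    rw [interior_Ici] at hr
    exact (hd r (le_of_lt hr)).differentiableAt.differentiableWithinAt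
  · intro r hr
    rw [interior_Ici] at hr
    have hr0 : 0 < r := lt_trans ha hr
    rw [(hd r (le_of_lt hr)).deriv]
    have h1 := h r (le_of_lt hr)
    have e1 : r ^ (3 / 2 : ℝ) = r ^ (3 / 2 - 1 : ℝ) * r := by
      rw [Real.rpow_sub_one hr0.ne', div_mul_cancel₀ _ hr0.ne']
    have e2 : r ^ (-(1 / 2) - 1 : ℝ) = r ^ (3 / 2 - 1 : ℝ) / r ^ 2 := by
      rw [← Real.rpow_natCast r 2, ← Real.rpow_sub hr0]
      norm_num
    have h2 : 0 ≤ r ^ (3 / 2 - 1 : ℝ) := Real.rpow_nonneg hr0.le _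
    have h3 := mul_le_mul_of_nonneg_left h1 h2
    rw [e2, e1]
    have e3 : r ^ (3 / 2 - 1 : ℝ) * (1 / 3 * (r * f r) + C / r ^ 2) =
        1 / 3 * (r ^ (3 / 2 - 1 : ℝ) * r * f r) + C * (r ^ (3 / 2 - 1 : ℝ) / r ^ 2) := by
      ring
    rw [e3] at h3
    linarith

theorem wt_int {f : ℝ → ℝ} (hf : Continuous f) (h0 : ∀ r, 0 ≤ r → 0 ≤ f r)
    (hi : IntegrableOn f (Ioi 0)) {a C : ℝ} (ha : 0 < a) (hC : 0 ≤ C)
    (h : ∀ r, a ≤ r → ∫ ρ in Ioi r, f ρ ≤ 1 / 3 * (r * f r) + C / r ^ 2) :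
    IntegrableOn (fun r => r ^ (3 / 2 : ℝ) * f r) (Ioi 0) := by
  have hc : Continuous fun ρ : ℝ => ρ ^ (3 / 2 : ℝ) * f ρ :=
    (continuous_id.rpow_const fun x => Or.inr (by norm_num)).mul hf
  obtain ⟨Q, hQ⟩ : ∃ Q : ℝ → ℝ, Q = fun r => (∫ ρ in Ioi (0 : ℝ), f ρ) - ∫ ρ in (0 : ℝ)..r, f ρ :=
    ⟨_, rfl⟩
  have hQd : ∀ r, HasDerivAt Q (-f r) r := by
    intro r
    rw [hQ]
    exact ((hf.integral_hasStrictDerivAt 0 r).hasDerivAt).const_sub _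
  have hQe : ∀ r, 0 ≤ r → Q r = ∫ ρ in Ioi r, f ρ := by
    intro r hr
    have h1 : (∫ ρ in Ioi (0 : ℝ), f ρ) = (∫ ρ in Ioc (0 : ℝ) r, f ρ) + ∫ ρ in Ioi r, f ρ := by
      rw [← Ioc_union_Ioi_eq_Ioi hr]
      exact setIntegral_union (Set.Ioc_disjoint_Ioi le_rfl) measurableSet_Ioi
        (hi.mono_set Ioc_subset_Ioi_self) (hi.mono_set (Ioi_subset_Ioi hr))
    rw [hQ]
    simp only
    rw [intervalIntegral.integral_of_le hr, h1]
    ring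
  have hQ0 : ∀ r, 0 ≤ r → 0 ≤ Q r := by
    intro r hr
    rw [hQe r hr]
    exact setIntegral_nonneg measurableSet_Ioi fun ρ hρ => h0 ρ (hr.trans (le_of_lt hρ))
  have hm := wti_mono hf hQd ha (C := C) fun r hr => by
    rw [hQe r (ha.le.trans hr)]
    exact h r hr
  have hI : IntegrableOn (fun r => r ^ (3 / 2 : ℝ) * f r) (Ioi a) := by
    refine integrableOn_Ioi_of_intervalIntegral_norm_bounded
      (2 * (a ^ (3 / 2 : ℝ) * Q a + 3 * C * a ^ (-(1 / 2) : ℝ))) a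
      (fun i => (hc.integrableOn_Icc (a := a) (b := i)).mono_set Ioc_subset_Icc_self) tendsto_id ?_
    filter_upwards [eventually_ge_atTop a] with R hR
    have h1 : (∫ x in a..R, ‖x ^ (3 / 2 : ℝ) * f x‖) = ∫ x in a..R, x ^ (3 / 2 : ℝ) * f x := by
      refine intervalIntegral.integral_congr fun x hx => ?_
      rw [uIcc_of_le hR] at hx
      have hx0 : 0 ≤ x := ha.le.trans hx.1
      show ‖x ^ (3 / 2 : ℝ) * f x‖ = x ^ (3 / 2 : ℝ) * f x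
      rw [Real.norm_eq_abs, abs_of_nonneg (mul_nonneg (Real.rpow_nonneg hx0 _) (h0 x hx0))]
    rw [h1]
    have h2 := hm (mem_Ici.2 le_rfl) (mem_Ici.2 hR) hR
    simp only [intervalIntegral.integral_same, mul_zero, zero_add] at h2
    have hR0 : 0 ≤ R := ha.le.trans hR
    have h3 : 0 ≤ R ^ (3 / 2 : ℝ) * Q R := mul_nonneg (Real.rpow_nonneg hR0 _) (hQ0 R hR0)
    have h4 : 0 ≤ 3 * C * R ^ (-(1 / 2) : ℝ) := mul_nonneg (by linarith) (Real.rpow_nonneg hR0 _)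
    linarith
  rw [← Ioc_union_Ioi_eq_Ioi ha.le]
  exact ((hc.integrableOn_Icc (a := 0) (b := a)).mono_set Ioc_subset_Icc_self).union hI

end D

end GO3
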