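import Pool.Agent.GO3.D.Htd
import Pool.Agent.GO3.D.Out
import Pool.Agent.GO3.D.Wti
import Pool.Agent.GO3.D.Jin
import Pool.Agent.GO3.D.Jwe
import Pool.Agent.GO3.D.Bry
import Pool.Agent.GO3.D.Mpc
import Pool.Agent.GO3.Gro

/-! GO3 / D / Deg: MAIN THEOREM OF PART D: boundary condition and degree (helper85). -/

open MeasureTheory Filter Topology Set
open scoped ContDiff Real ComplexConjugate

noncomputable section

namespace GO3

namespace D

theorem mini_alm {K : ℝ} {n : ℕ} {σ : ℝ} {c : Cf} (h : c.Mini n σ) (hE : c.E ≤ K * n ^ 2) :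
    c.Alm K n σ 0 :=
  ⟨h.1, h.2.1, hE, fun c' hc' => by simpa using h.2.2 c' hc'⟩

/-- the wedge integral is `-2 α` -/
theorem wedge_val {c : Cf} {n : ℕ} {L : ℝ} (hn : 2 ≤ n) (hc : c.Adm n) (hr : c.Rad)
    (h0 : c.h 0 = -1) (hE : c.E ≤ (n : ℝ) ^ 3) (ht : Tendsto c.h (cocompact ℂ) (𝓝 1))
    (hL : Tendsto (fun R => ∫ r in (0 : ℝ)..R, ∫ χ in (0 : ℝ)..al n, r * c.J (pt r χ)) atTop (𝓝 L)) :
    L = -2 * al n := by
  have hn0 : 0 < n := by omega
  have hal := al_pos hn0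
  have hal2 : al n ≤ π / 8 := by
    unfold al
    have h : (2 : ℝ) ≤ n := by exact_mod_cast hn
    have h3 : (8 : ℝ) ≤ (n : ℝ) ^ 3 := by
      calc (8 : ℝ) = 2 ^ 3 := by norm_num
        _ ≤ (n : ℝ) ^ 3 := by gcongr
    exact div_le_div_of_nonneg_left Real.pi_pos.le (by norm_num) h3
  have hE0 := Cf.Adm.E_nonneg c
  -- `h ≥ 0` far away
  obtain ⟨R₁, hR₁⟩ : ∃ R₁ : ℝ, ∀ R, R₁ ≤ R → ∀ χ, 0 ≤ c.h (pt R χ) := by
    have h1 : ∀ᶠ z in cocompact ℂ, 0 ≤ c.h z := by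
      have := ht.eventually (lt_mem_nhds (show (0 : ℝ) < 1 by norm_num))
      exact this.mono fun z hz => le_of_lt hz
    rw [← Metric.cobounded_eq_cocompact, (Metric.hasBasis_cobounded_compl_closedBall (0 : ℂ)).eventually_iff] at h1
    obtain ⟨R₁, -, hR₁⟩ := h1
    refine ⟨|R₁| + 1, fun R hR χ => hR₁ ?_⟩
    rw [Set.mem_compl_iff, mem_closedBall_zero_iff, norm_pt, not_le]
    have := le_abs_self R₁
    have := le_abs_self R
    linarith
  have key : ∀ ε : ℝ, 0 < ε → |L - (-2 * al n)| ≤ ε := by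
    intro ε hε
    set η : ℝ := min (ε / 4) (1 / 8) with hη
    have hη0 : 0 < η := by rw [hη]; positivity
    have hη1 : η ≤ ε / 4 := min_le_left _ _
    have hη2 : η ≤ 1 / 8 := min_le_right _ _
    -- closeness of the partial integrals
    obtain ⟨R₂, hR₂⟩ := (Metric.tendsto_atTop.1 hL) η hη0
    -- a radius with small `X`
    obtain ⟨δ, hδ, hδ1⟩ : ∃ δ : ℝ, 0 < δ ∧ ∀ x, 0 ≤ x → x ≤ δ →
        4 * Real.sqrt x + 3 * Real.sqrt (c.E * x) ≤ η ∧ 2 * Real.sqrt (c.E * x) ≤ η := by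
      refine ⟨(η / (4 + 3 * Real.sqrt c.E + 1)) ^ 2, by positivity, fun x hx0 hx => ?_⟩
      have hden : 0 < 4 + 3 * Real.sqrt c.E + 1 := by positivity
      have h1 : Real.sqrt x ≤ η / (4 + 3 * Real.sqrt c.E + 1) := by
        rw [Real.sqrt_le_left (by positivity)]
        exact hx
      rw [le_div_iff₀ hden] at h1
      rw [Real.sqrt_mul hE0]
      have h2 := Real.sqrt_nonneg x
      have h3 := Real.sqrt_nonneg c.E
      constructor <;> nlinarith [mul_nonneg h2 h3]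
    obtain ⟨R, hRb, hR0, hRs⟩ := c.small_seq hc hδ (max R₁ R₂)
    have hR1 : R₁ ≤ R := (le_max_left _ _).trans hRb
    have hR2 : R₂ ≤ R := (le_max_right _ _).trans hRb
    have hh := hR₁ R hR1
    have hX0 : 0 ≤ R * c.fd R := mul_nonneg hR0.le (c.fd_nonneg hR0.le)
    obtain ⟨b1, b2⟩ := hδ1 _ hX0 hRs
    have c1 := bry1 hn hc hr hR0
    have c2 := bry2 hn hc hr hR0 hh
    obtain ⟨k, hk⟩ := wedge_quant hn hc h0 hR0 hh
    have c3 := wedge_le hn hc hr hR0.le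
    have c4 := hR₂ R hR2
    rw [Real.dist_eq] at c4
    set Jw := ∫ r in (0 : ℝ)..R, ∫ χ in (0 : ℝ)..al n, r * c.J (pt r χ) with hJw
    set bd := ∫ χ in (0 : ℝ)..al n, (conj (c.w (pt R χ)) *
        fderiv ℝ (fun p : ℝ × ℝ => c.w (pt p.1 p.2)) (R, χ) (0, 1)).im / (1 + c.h (pt R χ)) with hbd
    have hEn : c.E / (2 * (n : ℝ) ^ 3) ≤ 1 / 2 := by
      have : 0 < (n : ℝ) ^ 3 := by positivity
      rw [div_le_iff₀ (by positivity)]
      linarith
    have hbd' : |bd| ≤ η := c2.trans b1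
    have hJ' : |Jw| ≤ 1 / 2 + η := c3.trans (add_le_add hEn (c1.trans b2))
    have hk0 : k = 0 := by
      have hpi := Real.pi_gt_three
      have h1 : |2 * π * (k : ℝ)| < 2 * π := by
        have e : 2 * π * (k : ℝ) = Jw + 2 * al n - bd := by rw [hk]; ring
        have h2 : |2 * al n| = 2 * al n := abs_of_pos (by positivity)
        have h3 := abs_sub (Jw + 2 * al n) bd
        have h4 := abs_add_le Jw (2 * al n)
        rw [e]
        have hpi4 := Real.pi_lt_four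
        linarith
      rw [abs_mul, abs_of_pos (by positivity : (0 : ℝ) < 2 * π)] at h1
      have h2 : |(k : ℝ)| < 1 := by
        by_contra hcon
        push Not at hcon
        have := mul_le_mul_of_nonneg_left hcon (by positivity : (0 : ℝ) ≤ 2 * π)
        linarith
      have h3 : |k| < 1 := by exact_mod_cast h2
      exact Int.abs_lt_one_iff.1 h3
    rw [hk0] at hk
    have e : L - (-2 * al n) = -(Jw - L) + bd := by rw [hk]; push_cast; ring
    rw [e]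
    calc |-(Jw - L) + bd| ≤ |-(Jw - L)| + |bd| := abs_add_le _ _
      _ = |Jw - L| + |bd| := by rw [abs_neg]
      _ ≤ η + η := add_le_add c4.le hbd'
      _ ≤ ε := by linarith
  have : |L - (-2 * al n)| ≤ 0 := le_of_forall_pos_le_add fun ε hε => by simpa using key ε hε
  have := abs_nonpos_iff.1 this
  linarith

theorem degree_part (K : ℝ) (hK : 1 ≤ K) : ∃ n₀ : ℕ, 2 ≤ n₀ ∧ ∀ n : ℕ, n₀ ≤ n → ∀ c : Cf,
    c.Mini n (-1) → c.EL → c.E ≤ K * n ^ 2 →
    Tendsto c.h (cocompact ℂ) (𝓝 1) ∧ Integrable c.J ∧ ∫ z, c.J z = -4 * π := by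
  obtain ⟨n₁, hn₁, H₁⟩ := growth K hK
  obtain ⟨n₂, hn₂, H₂⟩ := out_ineq K hK
  obtain ⟨n₃, hn₃⟩ := exists_nat_ge K
  refine ⟨max n₁ (max n₂ n₃), le_max_of_le_left hn₁, fun n hn c hM _ hE => ?_⟩
  have h1 : n₁ ≤ n := (le_max_left _ _).trans hn
  have h2 : n₂ ≤ n := ((le_max_left _ _).trans (le_max_right _ _)).trans hn
  have h3 : n₃ ≤ n := ((le_max_right _ _).trans (le_max_right _ _)).trans hn
  have hn2 : 2 ≤ n := hn₁.trans h1
  have hc : c.Adm n := hM.1.1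
  have hr : c.Rad := hM.2.1
  obtain ⟨r₀, hr₀, hs⟩ := exists_small hc
  obtain ⟨C, hC, hg⟩ := H₁ n h1 r₀ hr₀
  have hg' := hg (-1) (Or.inr rfl) 0 le_rfl c (mini_alm hM hE) hs
  have ht : Tendsto c.h (cocompact ℂ) (𝓝 1) := by
    refine h_tendsto hc hC fun q r hr hr1 => ?_
    have := hg' q r hr hr1
    simpa using this
  -- weighted energy
  obtain ⟨a, ha, hap, haR⟩ : ∃ a : ℝ, 0 < a ∧ rp K n ≤ a ∧ ∀ z : ℂ, a ≤ ‖z‖ → 9 / 10 ≤ c.h z := by
    have h1 : ∀ᶠ z in cocompact ℂ, 9 / 10 ≤ c.h z := by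
      have := ht.eventually (lt_mem_nhds (show (9 / 10 : ℝ) < 1 by norm_num))
      exact this.mono fun z hz => le_of_lt hz
    rw [← Metric.cobounded_eq_cocompact, (Metric.hasBasis_cobounded_compl_closedBall (0 : ℂ)).eventually_iff] at h1
    obtain ⟨R₁, -, hR₁⟩ := h1
    refine ⟨max (|R₁| + 1) (rp K n), by positivity, le_max_right _ _, fun z hz => hR₁ ?_⟩
    rw [Set.mem_compl_iff, mem_closedBall_zero_iff, not_le]
    have := le_abs_self R₁
    have := (le_max_left (|R₁| + 1) (rp K n)).trans hz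
    linarith
  have hw : IntegrableOn (fun r => r ^ (3 / 2 : ℝ) * c.fd r) (Ioi 0) := by
    refine wt_int (Cf.continuous_fd hc) (fun r hr => c.fd_nonneg hr) (Cf.fd_int hc).1 ha
      (by norm_num : (0 : ℝ) ≤ 30000) fun r hra => ?_
    exact H₂ n h2 (-1) c hM hE r (hap.trans hra) fun z hz => haR z (hra.trans hz)
  have hJ : Integrable c.J := J_int hc hr hw
  refine ⟨ht, hJ, ?_⟩
  have hm : (0 : ℝ) < 2 * (n : ℝ) ^ 3 := by
    have : (0 : ℝ) < n := by exact_mod_cast (by omega : 0 < n)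
    positivity
  have hT := wedge_total hn2 hc hJ
  have hL : Tendsto (fun R => ∫ r in (0 : ℝ)..R, ∫ χ in (0 : ℝ)..al n, r * c.J (pt r χ)) atTop
      (𝓝 ((∫ z, c.J z) / (2 * (n : ℝ) ^ 3))) := by
    have := hT.div_const (2 * (n : ℝ) ^ 3)
    refine this.congr fun R => ?_
    field_simp
  have hEn : c.E ≤ (n : ℝ) ^ 3 := by
    have hKn : K ≤ n := hn₃.trans (by exact_mod_cast h3)
    calc c.E ≤ K * n ^ 2 := hE
      _ ≤ n * n ^ 2 := by gcongr
      _ = (n : ℝ) ^ 3 := by ring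
  have hv := wedge_val hn2 hc hr hM.1.2.2 hEn ht hL
  rw [div_eq_iff hm.ne'] at hv
  rw [hv]
  unfold al
  have : (n : ℝ) ^ 3 ≠ 0 := by
    have : (0 : ℝ) < n := by exact_mod_cast (by omega : 0 < n)
    positivity
  field_simp
  ring

end D

/-- boundary condition, integrability and value of the degree for minimisers of the class `(n, -1)` -/
theorem degree_part (K : ℝ) (hK : 1 ≤ K) : ∃ n₀ : ℕ, 2 ≤ n₀ ∧ ∀ n : ℕ, n₀ ≤ n → ∀ c : Cf,
    c.Mini n (-1) → c.EL → c.E ≤ K * n ^ 2 →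
    Tendsto c.h (cocompact ℂ) (𝓝 1) ∧ Integrable c.J ∧ ∫ z, c.J z = -4 * π :=
  D.degree_part K hK

end GO3
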