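import Pool.Agent.GO3.Fro
import Pool.Agent.GO3.Nrm
import Pool.Agent.GO3.Rd
import Pool.Agent.GO3.Stp

/-! GO3 / D / Ex1: the outer competitor (D2 of the proof text, part D, helper85): definition, admissibility.

The competitor equals `c` for `|z| ≤ r`, is frozen (`φ'(ρ, χ) = φ(κ ρ, χ)`, `b'(ρ, χ) = b(κ ρ, χ)`) beyond, is pushed to the
vacuum by `τ` between `r'` and `L`, and is the vacuum for `|z| ≥ L`.
With `S z = (κ |z| / |z|) z` (`S z = z` for `|z| ≤ r`): `cone c.w 0 0 τ κ z = τ w(S z)`,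
`cone c.h 0 1 τ κ z = 1 - τ (1 - h(S z))`, and `nrm² = τ² |w|² + (1 - τ(1 - h))² = 1 - 2 τ (1 - τ) (1 - h)` (`nrm_sq`).
* smoothness: for `|z| < r` the three maps are `w, h, A` (`nrm = 1`); away from `0` they are compositions of smooth
  maps (`‖z‖` is smooth for `z ≠ 0`), `nrm² ≥ 19/20` there because `h (S z) ≥ 9/10` for `|z| ≥ r`. (The lemma `cone_smooth`
  is for `τ = 0` near the centre; here write `cone` near `z ≠ 0` as a composition, or copy its proof.)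
* symmetry: `cone_rot`, `cone_refl` with `q = 0`, or directly `S (u z) = u S z`, `S (conj z) = conj (S z)`.
* radial gauge: `A' z = (κ/|z|) A (S z) = (κ/|z|) i (S z) G (S z) = i z (κ/|z|)² G (S z)`.
* integrability of `dens'`: continuous (`contDiff_dens` needs `Adm`; use its proof for the smooth fields) and zero for
  `|z| > L`: there `w' = 0`, `h' = 1` and `F' = 0` by `Rad.hasDerivAt_b` for `c'` as `b' (ρ, χ) = b (κ ρ, χ)` is constant in `ρ`. -/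

open MeasureTheory Filter Topology Set
open scoped ContDiff Real

noncomputable section

namespace GO3

/-- the outer competitor -/
def Cf.ext (c : Cf) (τ κ : ℝ → ℝ) : Cf where
  w z := ((nrm (cone c.w 0 0 τ κ z) (cone c.h 0 1 τ κ z))⁻¹ : ℂ) * cone c.w 0 0 τ κ z
  h z := (nrm (cone c.w 0 0 τ κ z) (cone c.h 0 1 τ κ z))⁻¹ * cone c.h 0 1 τ κ z
  A z := ((κ ‖z‖ / ‖z‖ : ℝ) : ℂ) * c.A (((κ ‖z‖ / ‖z‖ : ℝ) : ℂ) * z)

namespace D

/-- data of the competitor: `c` up to `r`, frozen at radius `s` beyond `r'`, vacuum beyond `L` -/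
structure Dat (τ κ : ℝ → ℝ) (r s r' L : ℝ) : Prop where
  st : ContDiff ℝ ∞ τ
  sk : ContDiff ℝ ∞ κ
  r0 : 0 < r
  rs : r < s
  sr : s < r'
  rL : r' < L
  t1 : ∀ x, x ≤ r' → τ x = 1
  t2 : ∀ x, L ≤ x → τ x = 0
  t3 : ∀ x, 0 ≤ τ x ∧ τ x ≤ 1
  k1 : ∀ x, x ≤ r → κ x = x
  k2 : ∀ x, r ≤ x → r ≤ κ x ∧ κ x ≤ s
  k3 : ∀ x, 0 ≤ deriv κ x ∧ deriv κ x ≤ 1
  k4 : ∀ x, r' ≤ x → κ x = s

variable {c : Cf} {n : ℕ} {τ κ : ℝ → ℝ} {r s r' L : ℝ}

/-- `κ ρ ≤ ρ` for `ρ ≥ 0` and `κ ρ > 0` for `ρ > 0` -/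
theorem Dat.kle (D : Dat τ κ r s r' L) {x : ℝ} (hx : 0 < x) : 0 < κ x ∧ κ x ≤ x := by
  rcases le_total x r with h | h
  · rw [D.k1 x h]
    exact ⟨hx, le_rfl⟩
  · refine ⟨lt_of_lt_of_le D.r0 (D.k2 x h).1, ?_⟩
    have hd : Differentiable ℝ κ := D.sk.differentiable (by simp)
    have hdm : Differentiable ℝ fun y => y - κ y := differentiable_id.sub hd
    have hm : Monotone fun y => y - κ y := by
      apply monotone_of_deriv_nonneg hdm
      intro y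
      have h1 : HasDerivAt (fun y => y - κ y) (1 - deriv κ y) y :=
        (hasDerivAt_id y).sub (hd y).hasDerivAt
      rw [h1.deriv]
      linarith [(D.k3 y).2]
    have h2 := hm h
    have h3 := D.k1 r le_rfl
    simp only [h3] at h2
    linarith

private theorem ex_pt_w (f : ℂ → ℂ) (τ κ : ℝ → ℝ) {ρ : ℝ} (hρ : 0 < ρ) (χ : ℝ) :
    cone f 0 0 τ κ (pt ρ χ) = τ ρ * f (pt (κ ρ) χ) := by
  have h := cone_pt f 0 0 τ κ hρ χ
  rw [zero_add, zero_add, zero_add, sub_zero, Complex.real_smul] at h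
  exact h

private theorem ex_pt_h (f : ℂ → ℝ) (τ κ : ℝ → ℝ) {ρ : ℝ} (hρ : 0 < ρ) (χ : ℝ) :
    cone f 0 1 τ κ (pt ρ χ) = 1 - τ ρ * (1 - f (pt (κ ρ) χ)) := by
  have h := cone_pt f 0 1 τ κ hρ χ
  rw [zero_add, zero_add, smul_eq_mul] at h
  rw [h]
  ring

/-- the norm before normalisation -/
theorem nrm_sq (hu : ∀ z, ‖c.w z‖ ^ 2 + c.h z ^ 2 = 1) (τ κ : ℝ → ℝ) {ρ : ℝ} (hρ : 0 < ρ)
    (χ : ℝ) : nrm (cone c.w 0 0 τ κ (pt ρ χ)) (cone c.h 0 1 τ κ (pt ρ χ)) ^ 2 =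
      1 - 2 * τ ρ * (1 - τ ρ) * (1 - c.h (pt (κ ρ) χ)) := by
  rw [GO3.nrm_sq, ex_pt_w _ _ _ hρ, ex_pt_h _ _ _ hρ, norm_mul, Complex.norm_real,
    Real.norm_eq_abs, mul_pow, sq_abs]
  linear_combination (τ ρ ^ 2) * hu (pt (κ ρ) χ)

private theorem ex_cone {V : Type*} [NormedAddCommGroup V] [NormedSpace ℝ V] (f : ℂ → V) (m : V)
    (τ κ : ℝ → ℝ) (z : ℂ) : cone f 0 m τ κ z =
      m + τ ‖z‖ • (f (((κ ‖z‖ / ‖z‖ : ℝ) : ℂ) * z) - m) := by
  unfold cone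
  rw [sub_zero, zero_add]

private theorem ex_in {V : Type*} [NormedAddCommGroup V] [NormedSpace ℝ V] (f : ℂ → V) (m : V)
    (D : Dat τ κ r s r' L) {z : ℂ} (hz : ‖z‖ ≤ r) : cone f 0 m τ κ z = f z := by
  rw [ex_cone, D.t1 _ (by linarith [D.rs, D.sr]), D.k1 _ hz, one_smul]
  by_cases h : z = 0
  · rw [h]
    simp
  · rw [div_self (norm_ne_zero_iff.2 h)]
    simp

/-- the fields inside -/
theorem ext_in (hu : ∀ z, ‖c.w z‖ ^ 2 + c.h z ^ 2 = 1) (hA : c.A 0 = 0) (D : Dat τ κ r s r' L)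
    {z : ℂ} (hz : ‖z‖ ≤ r) :
    (c.ext τ κ).w z = c.w z ∧ (c.ext τ κ).h z = c.h z ∧ (c.ext τ κ).A z = c.A z := by
  have h1 : nrm (c.w z) (c.h z) = 1 := by
    unfold nrm
    rw [hu z, Real.sqrt_one]
  refine ⟨?_, ?_, ?_⟩
  · change ((nrm (cone c.w 0 0 τ κ z) (cone c.h 0 1 τ κ z))⁻¹ : ℂ) * cone c.w 0 0 τ κ z = c.w z
    rw [ex_in c.w 0 D hz, ex_in c.h 1 D hz, h1]
    simp
  · change (nrm (cone c.w 0 0 τ κ z) (cone c.h 0 1 τ κ z))⁻¹ * cone c.h 0 1 τ κ z = c.h z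
    rw [ex_in c.w 0 D hz, ex_in c.h 1 D hz, h1]
    simp
  · change ((κ ‖z‖ / ‖z‖ : ℝ) : ℂ) * c.A (((κ ‖z‖ / ‖z‖ : ℝ) : ℂ) * z) = c.A z
    rw [D.k1 _ hz]
    by_cases h : z = 0
    · rw [h]
      simp [hA]
    · rw [div_self (norm_ne_zero_iff.2 h)]
      simp

/-- the fields in polar coordinates -/
theorem ext_pt (τ κ : ℝ → ℝ) {ρ : ℝ} (hρ : 0 < ρ) (χ : ℝ) :
    (c.ext τ κ).w (pt ρ χ) = ((nrm (cone c.w 0 0 τ κ (pt ρ χ)) (cone c.h 0 1 τ κ (pt ρ χ)))⁻¹ : ℂ) *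
      (τ ρ * c.w (pt (κ ρ) χ)) ∧
    (c.ext τ κ).h (pt ρ χ) = (nrm (cone c.w 0 0 τ κ (pt ρ χ)) (cone c.h 0 1 τ κ (pt ρ χ)))⁻¹ *
      (1 - τ ρ * (1 - c.h (pt (κ ρ) χ))) ∧
    (c.ext τ κ).b ρ χ = c.b (κ ρ) χ := by
  refine ⟨?_, ?_, ?_⟩
  · rw [← ex_pt_w c.w τ κ hρ χ]
    rfl
  · rw [← ex_pt_h c.h τ κ hρ χ]
    rfl
  · have h1 : ((κ ρ / ρ : ℝ) : ℂ) * pt ρ χ = pt (κ ρ) χ := by
      rw [pt_eq, pt_eq]
      push_cast
      have : (ρ : ℂ) ≠ 0 := by exact_mod_cast hρ.ne'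
      field_simp
    unfold Cf.b
    change ip (((κ ‖pt ρ χ‖ / ‖pt ρ χ‖ : ℝ) : ℂ) * c.A (((κ ‖pt ρ χ‖ / ‖pt ρ χ‖ : ℝ) : ℂ) * pt ρ χ))
      (Complex.I * pt ρ χ) = ip (c.A (pt (κ ρ) χ)) (Complex.I * pt (κ ρ) χ)
    rw [norm_pt, abs_of_pos hρ, h1]
    have h2 : (pt (κ ρ) χ).re = κ ρ / ρ * (pt ρ χ).re := by
      rw [← h1, Complex.re_ofReal_mul]
    have h3 : (pt (κ ρ) χ).im = κ ρ / ρ * (pt ρ χ).im := by
      rw [← h1, Complex.im_ofReal_mul]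
    obtain ⟨a, ha⟩ : ∃ a, a = c.A (pt (κ ρ) χ) := ⟨_, rfl⟩
    rw [← ha]
    unfold ip
    simp only [Complex.mul_re, Complex.mul_im, Complex.I_re, Complex.I_im, Complex.ofReal_re,
      Complex.ofReal_im, h2, h3]
    ring

private theorem ex_k_at (hκ : ContDiff ℝ ∞ κ) {z : ℂ} (hz : z ≠ 0) :
    ContDiffAt ℝ ∞ (fun z : ℂ => ((κ ‖z‖ / ‖z‖ : ℝ) : ℂ)) z := by
  have hn : ContDiffAt ℝ ∞ (fun z : ℂ => ‖z‖) z := contDiffAt_norm ℝ hz
  have hq : ContDiffAt ℝ ∞ (fun z : ℂ => κ ‖z‖ / ‖z‖) z :=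
    ((hκ.contDiffAt (x := ‖z‖)).comp z hn).div hn (norm_ne_zero_iff.2 hz)
  exact Complex.ofRealCLM.contDiff.contDiffAt.comp z hq

private theorem ex_kz_at (hκ : ContDiff ℝ ∞ κ) {z : ℂ} (hz : z ≠ 0) :
    ContDiffAt ℝ ∞ (fun z : ℂ => ((κ ‖z‖ / ‖z‖ : ℝ) : ℂ) * z) z :=
  (ex_k_at hκ hz).mul contDiffAt_id

private theorem ex_cone_at {V : Type*} [NormedAddCommGroup V] [NormedSpace ℝ V] {f : ℂ → V} {m : V}
    (hf : ContDiff ℝ ∞ f) (hτ : ContDiff ℝ ∞ τ) (hκ : ContDiff ℝ ∞ κ) {z : ℂ}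
    (hz : z ≠ 0) : ContDiffAt ℝ ∞ (cone f 0 m τ κ) z := by
  have e : cone f 0 m τ κ = fun z => m + τ ‖z‖ • (f (((κ ‖z‖ / ‖z‖ : ℝ) : ℂ) * z) - m) :=
    funext fun z => ex_cone f m τ κ z
  rw [e]
  have hn : ContDiffAt ℝ ∞ (fun z : ℂ => ‖z‖) z := contDiffAt_norm ℝ hz
  have hτ' : ContDiffAt ℝ ∞ (fun z : ℂ => τ ‖z‖) z := (hτ.contDiffAt (x := ‖z‖)).comp z hn
  exact contDiffAt_const.add (hτ'.smul ((hf.contDiffAt.comp z (ex_kz_at hκ hz)).sub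
    contDiffAt_const))

/-- the norm before normalisation is at least `(19/20)^{1/2}` outside -/
private theorem ex_N (hu : ∀ z, ‖c.w z‖ ^ 2 + c.h z ^ 2 = 1) (D : Dat τ κ r s r' L)
    (hh : ∀ z : ℂ, r ≤ ‖z‖ → 9 / 10 ≤ c.h z) (z : ℂ) :
    19 / 20 ≤ nrm (cone c.w 0 0 τ κ z) (cone c.h 0 1 τ κ z) ^ 2 := by
  rcases le_total ‖z‖ r with h | h
  · rw [GO3.nrm_sq, ex_in c.w 0 D h, ex_in c.h 1 D h, hu]
    norm_num
  · obtain ⟨χ, -, hz⟩ := exists_pt z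
    obtain ⟨ρ, hρe⟩ : ∃ ρ, ρ = ‖z‖ := ⟨_, rfl⟩
    rw [← hρe] at h hz
    have hρ : 0 < ρ := lt_of_lt_of_le D.r0 h
    have h1 : 9 / 10 ≤ c.h (pt (κ ρ) χ) := by
      apply hh
      rw [norm_pt, abs_of_pos (D.kle hρ).1]
      exact (D.k2 _ h).1
    rw [hz, nrm_sq hu τ κ hρ]
    have h2 := D.t3 ρ
    have h3 : c.h (pt (κ ρ) χ) ≤ 1 := by
      have := hu (pt (κ ρ) χ)
      nlinarith [sq_nonneg (‖c.w (pt (κ ρ) χ)‖)]
    obtain ⟨t, ht⟩ : ∃ t, t = τ ρ := ⟨_, rfl⟩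
    obtain ⟨y, hy⟩ : ∃ y, y = 1 - c.h (pt (κ ρ) χ) := ⟨_, rfl⟩
    rw [← ht] at h2
    rw [← ht, ← hy]
    have h4 : 0 ≤ y := by linarith
    have h5 : y ≤ 1 / 10 := by linarith
    nlinarith [sq_nonneg (t - 1 / 2), mul_nonneg h2.1 (sub_nonneg.2 h2.2)]

private theorem ex_star (k : ℝ) (z : ℂ) : (k : ℂ) * star z = star ((k : ℂ) * z) := by
  rw [star_mul', Complex.star_def, Complex.conj_ofReal]

private theorem ex_dens_cont {c : Cf} (hw : ContDiff ℝ ∞ c.w) (hh : ContDiff ℝ ∞ c.h)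
    (hA : ContDiff ℝ ∞ c.A) : Continuous c.dens := by
  have hw1 : ∀ v : ℂ, Continuous fun z : ℂ => fderiv ℝ c.w z v := fun v =>
    (hw.continuous_fderiv (by simp)).clm_apply continuous_const
  have hh1 : ∀ v : ℂ, Continuous fun z : ℂ => fderiv ℝ c.h z v := fun v =>
    (hh.continuous_fderiv (by simp)).clm_apply continuous_const
  have hA1 : ∀ v : ℂ, Continuous fun z : ℂ => fderiv ℝ c.A z v := fun v =>
    (hA.continuous_fderiv (by simp)).clm_apply continuous_const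
  have hw0 := hw.continuous
  have hh0 := hh.continuous
  have hA0 := hA.continuous
  have hD : ∀ v : ℂ, Continuous fun z => c.nsq z v := by
    intro v
    unfold Cf.nsq Cf.Dw Cf.dh ip
    have h1 := hw1 v
    have h2 := hh1 v
    fun_prop
  have h1 := hD 1
  have h2 := hD Complex.I
  have h3 := hA1 1
  have h4 := hA1 Complex.I
  unfold Cf.dens Cf.grad Cf.F
  fun_prop

theorem ext_adm (hn : 2 ≤ n) (hc : c.Adm n) (hr : c.Rad) (D : Dat τ κ r s r' L)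
    (hh : ∀ z : ℂ, r ≤ ‖z‖ → 9 / 10 ≤ c.h z) : (c.ext τ κ).Adm n ∧ (c.ext τ κ).Rad := by
  have hu := hc.unit
  obtain ⟨G, hG, hAG⟩ := hr
  have hA0 : c.A 0 = 0 := by
    rw [hAG]
    simp
  have hNpos : ∀ z, 0 < nrm (cone c.w 0 0 τ κ z) (cone c.h 0 1 τ κ z) := by
    intro z
    have h1 := ex_N hu D hh z
    have h2 : 0 ≤ nrm (cone c.w 0 0 τ κ z) (cone c.h 0 1 τ κ z) := Real.sqrt_nonneg _
    rcases h2.eq_or_lt with h3 | h3
    · rw [← h3] at h1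
      norm_num at h1
    · exact h3
  have hball : ∀ {z : ℂ}, ‖z‖ < r → ∀ᶠ y in 𝓝 z, ‖y‖ ≤ r := by
    intro z hz
    filter_upwards [(isOpen_lt continuous_norm continuous_const).mem_nhds hz] with y hy
    exact le_of_lt hy
  have hNat : ∀ {z : ℂ}, z ≠ 0 → ContDiffAt ℝ ∞
      (fun z => (nrm (cone c.w 0 0 τ κ z) (cone c.h 0 1 τ κ z))⁻¹) z := by
    intro z hz
    have h1 : ContDiffAt ℝ ∞ (cone c.w 0 0 τ κ) z := ex_cone_at hc.sw D.st D.sk hz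
    have h2 : ContDiffAt ℝ ∞ (cone c.h 0 1 τ κ) z := ex_cone_at hc.sh D.st D.sk hz
    have h3 : ContDiffAt ℝ ∞ (fun z => ‖cone c.w 0 0 τ κ z‖ ^ 2 + cone c.h 0 1 τ κ z ^ 2) z :=
      (h1.norm_sq ℝ).add (h2.pow 2)
    have h4 : ‖cone c.w 0 0 τ κ z‖ ^ 2 + cone c.h 0 1 τ κ z ^ 2 ≠ 0 := by
      rw [← GO3.nrm_sq]
      exact (pow_pos (hNpos z) 2).ne'
    exact (h3.sqrt h4).inv (hNpos z).ne'
  have hsw : ContDiff ℝ ∞ (c.ext τ κ).w := by
    rw [contDiff_iff_contDiffAt]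
    intro z
    by_cases hz : ‖z‖ < r
    · apply hc.sw.contDiffAt.congr_of_eventuallyEq
      filter_upwards [hball hz] with y hy
      exact (ext_in hu hA0 D hy).1
    · have hz0 : z ≠ 0 := by
        rintro rfl
        apply hz
        rw [norm_zero]
        exact D.r0
      have h1 : ContDiffAt ℝ ∞ (cone c.w 0 0 τ κ) z := ex_cone_at hc.sw D.st D.sk hz0
      have h2 := (hNat hz0).smul h1
      have e : (fun z => (nrm (cone c.w 0 0 τ κ z) (cone c.h 0 1 τ κ z))⁻¹ • cone c.w 0 0 τ κ z) =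
          (c.ext τ κ).w := by
        funext y
        rw [Complex.real_smul, Complex.ofReal_inv]
        rfl
      rw [← e]
      exact h2
  have hsh : ContDiff ℝ ∞ (c.ext τ κ).h := by
    rw [contDiff_iff_contDiffAt]
    intro z
    by_cases hz : ‖z‖ < r
    · apply hc.sh.contDiffAt.congr_of_eventuallyEq
      filter_upwards [hball hz] with y hy
      exact (ext_in hu hA0 D hy).2.1
    · have hz0 : z ≠ 0 := by
        rintro rfl
        apply hz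
        rw [norm_zero]
        exact D.r0
      exact (hNat hz0).mul (ex_cone_at hc.sh D.st D.sk hz0)
  have hsA : ContDiff ℝ ∞ (c.ext τ κ).A := by
    rw [contDiff_iff_contDiffAt]
    intro z
    by_cases hz : ‖z‖ < r
    · apply hc.sA.contDiffAt.congr_of_eventuallyEq
      filter_upwards [hball hz] with y hy
      exact (ext_in hu hA0 D hy).2.2
    · have hz0 : z ≠ 0 := by
        rintro rfl
        apply hz
        rw [norm_zero]
        exact D.r0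
      exact (ex_k_at D.sk hz0).mul (hc.sA.contDiffAt.comp z (ex_kz_at D.sk hz0))
  have hRad : (c.ext τ κ).Rad := by
    refine ⟨fun z => if z = 0 then G 0 else
      (κ ‖z‖ / ‖z‖) ^ 2 * G (((κ ‖z‖ / ‖z‖ : ℝ) : ℂ) * z), ?_, ?_⟩
    · rw [contDiff_iff_contDiffAt]
      intro z
      by_cases hz : ‖z‖ < r
      · apply hG.contDiffAt.congr_of_eventuallyEq
        filter_upwards [hball hz] with y hy
        by_cases h : y = 0
        · rw [if_pos h, h]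
        · rw [if_neg h, D.k1 _ hy, div_self (norm_ne_zero_iff.2 h)]
          simp
      · have hz0 : z ≠ 0 := by
          rintro rfl
          apply hz
          rw [norm_zero]
          exact D.r0
        have hn : ContDiffAt ℝ ∞ (fun z : ℂ => ‖z‖) z := contDiffAt_norm ℝ hz0
        have hq : ContDiffAt ℝ ∞ (fun z : ℂ => κ ‖z‖ / ‖z‖) z :=
          ((D.sk.contDiffAt (x := ‖z‖)).comp z hn).div hn (norm_ne_zero_iff.2 hz0)
        have h1 : ContDiffAt ℝ ∞ (fun z : ℂ => (κ ‖z‖ / ‖z‖) ^ 2 *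
            G (((κ ‖z‖ / ‖z‖ : ℝ) : ℂ) * z)) z :=
          (hq.pow 2).mul (hG.contDiffAt.comp z (ex_kz_at D.sk hz0))
        apply h1.congr_of_eventuallyEq
        filter_upwards [isOpen_ne.mem_nhds hz0] with y hy
        rw [if_neg hy]
    · intro z
      change ((κ ‖z‖ / ‖z‖ : ℝ) : ℂ) * c.A (((κ ‖z‖ / ‖z‖ : ℝ) : ℂ) * z) = _
      by_cases h : z = 0
      · rw [h]
        simp
      · beta_reduce
        rw [if_neg h, hAG]
        push_cast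
        ring
  have hfin : Integrable (c.ext τ κ).dens := by
    have hcont := ex_dens_cont hsw hsh hsA
    apply hcont.integrable_of_hasCompactSupport
    apply HasCompactSupport.of_support_subset_isCompact (isCompact_closedBall (0 : ℂ) L)
    intro z hz
    by_contra hzL
    apply hz
    have hzL' : L < ‖z‖ := by
      rw [mem_closedBall_zero_iff] at hzL
      exact not_le.1 hzL
    have hev : ∀ᶠ y in 𝓝 z, L ≤ ‖y‖ := by
      filter_upwards [(isOpen_lt continuous_const continuous_norm).mem_nhds hzL'] with y hy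
      exact le_of_lt hy
    have hwh : ∀ y : ℂ, L ≤ ‖y‖ → (c.ext τ κ).w y = 0 ∧ (c.ext τ κ).h y = 1 := by
      intro y hy
      have e1 : cone c.w 0 0 τ κ y = 0 := by
        rw [ex_cone, D.t2 _ hy, zero_smul, add_zero]
      have e2 : cone c.h 0 1 τ κ y = 1 := by
        rw [ex_cone, D.t2 _ hy, zero_smul, add_zero]
      constructor
      · change ((nrm (cone c.w 0 0 τ κ y) (cone c.h 0 1 τ κ y))⁻¹ : ℂ) * cone c.w 0 0 τ κ y = 0
        rw [e1, mul_zero]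
      · change (nrm (cone c.w 0 0 τ κ y) (cone c.h 0 1 τ κ y))⁻¹ * cone c.h 0 1 τ κ y = 1
        rw [e1, e2]
        unfold nrm
        norm_num
    have hw0 : fderiv ℝ (c.ext τ κ).w z = 0 := by
      have h1 : (c.ext τ κ).w =ᶠ[𝓝 z] fun _ => 0 := by
        filter_upwards [hev] with y hy
        exact (hwh y hy).1
      rw [h1.fderiv_eq]
      simp
    have hh0 : fderiv ℝ (c.ext τ κ).h z = 0 := by
      have h1 : (c.ext τ κ).h =ᶠ[𝓝 z] fun _ => 1 := by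
        filter_upwards [hev] with y hy
        exact (hwh y hy).2
      rw [h1.fderiv_eq]
      simp
    have hF0 : (c.ext τ κ).F z = 0 := by
      obtain ⟨χ, -, hzχ⟩ := exists_pt z
      have hρ : 0 < ‖z‖ := by linarith [D.r0, D.rs, D.sr, D.rL]
      have h1 := hRad.hasDerivAt_b ‖z‖ χ
      have h2 : (fun ρ => (c.ext τ κ).b ρ χ) =ᶠ[𝓝 ‖z‖] fun _ => c.b s χ := by
        filter_upwards [Ioi_mem_nhds hzL'] with ρ hρL
        have hρL' : L < ρ := hρL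
        rw [(ext_pt τ κ (by linarith [D.r0, D.rs, D.sr, D.rL]) χ).2.2,
          D.k4 ρ (by linarith [D.rL])]
      have h3 := (hasDerivAt_const ‖z‖ (c.b s χ)).congr_of_eventuallyEq h2
      have h4 := h1.unique h3
      rw [← hzχ] at h4
      rcases mul_eq_zero.1 h4 with h5 | h5
      · exact absurd h5 hρ.ne'
      · exact h5
    obtain ⟨h1, h2⟩ := hwh z hzL'.le
    unfold Cf.dens Cf.grad Cf.nsq Cf.Dw Cf.dh
    rw [hF0, hw0, hh0, h1, h2]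
    simp
  refine ⟨⟨hsw, hsh, hsA, fun z => ?_, hfin, fun z => ?_, fun z => ?_, fun z => ?_, fun z => ?_,
    fun z => ?_, fun z => ?_⟩, hRad⟩
  · have h1 := GO3.nrm_sq (cone c.w 0 0 τ κ z) (cone c.h 0 1 τ κ z)
    have h2 := hNpos z
    change ‖((nrm (cone c.w 0 0 τ κ z) (cone c.h 0 1 τ κ z))⁻¹ : ℂ) * cone c.w 0 0 τ κ z‖ ^ 2 +
      ((nrm (cone c.w 0 0 τ κ z) (cone c.h 0 1 τ κ z))⁻¹ * cone c.h 0 1 τ κ z) ^ 2 = 1
    rw [norm_mul, norm_inv, Complex.norm_real, Real.norm_eq_abs, abs_of_pos h2, mul_pow, mul_pow,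
      ← mul_add, ← h1]
    field_simp
  · have e1 : cone c.w 0 0 τ κ (ze n * z) = ze n * cone c.w 0 0 τ κ z := by
      rw [ex_cone, ex_cone, norm_mul, norm_ze, one_mul, mul_left_comm, hc.rw, zero_add, zero_add,
        sub_zero, sub_zero, Complex.real_smul, Complex.real_smul]
      ring
    have e2 : cone c.h 0 1 τ κ (ze n * z) = cone c.h 0 1 τ κ z := by
      rw [ex_cone, ex_cone, norm_mul, norm_ze, one_mul, mul_left_comm, hc.rh]
    change ((nrm (cone c.w 0 0 τ κ (ze n * z)) (cone c.h 0 1 τ κ (ze n * z)))⁻¹ : ℂ) *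
      cone c.w 0 0 τ κ (ze n * z) = ze n *
      (((nrm (cone c.w 0 0 τ κ z) (cone c.h 0 1 τ κ z))⁻¹ : ℂ) * cone c.w 0 0 τ κ z)
    rw [e1, e2]
    have e3 : nrm (ze n * cone c.w 0 0 τ κ z) (cone c.h 0 1 τ κ z) =
        nrm (cone c.w 0 0 τ κ z) (cone c.h 0 1 τ κ z) := by
      unfold nrm
      rw [norm_mul, norm_ze, one_mul]
    rw [e3]
    ring
  · have e1 : ‖cone c.w 0 0 τ κ (ze n * z)‖ = ‖cone c.w 0 0 τ κ z‖ := by
      rw [ex_cone, ex_cone, norm_mul, norm_ze, one_mul, mul_left_comm, hc.rw, zero_add, zero_add,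
        sub_zero, sub_zero, norm_smul, norm_smul, norm_mul, norm_ze, one_mul]
    have e2 : cone c.h 0 1 τ κ (ze n * z) = cone c.h 0 1 τ κ z := by
      rw [ex_cone, ex_cone, norm_mul, norm_ze, one_mul, mul_left_comm, hc.rh]
    change (nrm (cone c.w 0 0 τ κ (ze n * z)) (cone c.h 0 1 τ κ (ze n * z)))⁻¹ *
      cone c.h 0 1 τ κ (ze n * z) = (nrm (cone c.w 0 0 τ κ z) (cone c.h 0 1 τ κ z))⁻¹ *
      cone c.h 0 1 τ κ z
    unfold nrm
    rw [e1, e2]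
  · change ((κ ‖ze n * z‖ / ‖ze n * z‖ : ℝ) : ℂ) *
      c.A (((κ ‖ze n * z‖ / ‖ze n * z‖ : ℝ) : ℂ) * (ze n * z)) =
      ze n * (((κ ‖z‖ / ‖z‖ : ℝ) : ℂ) * c.A (((κ ‖z‖ / ‖z‖ : ℝ) : ℂ) * z))
    rw [norm_mul, norm_ze, one_mul, mul_left_comm _ (ze n) z, hc.rA]
    ring
  · have e1 : cone c.w 0 0 τ κ (star z) = star (cone c.w 0 0 τ κ z) := by
      rw [ex_cone, ex_cone, norm_star, ex_star, hc.cw, zero_add, zero_add,
        sub_zero, sub_zero, Complex.real_smul, Complex.real_smul, ex_star]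
    have e2 : cone c.h 0 1 τ κ (star z) = cone c.h 0 1 τ κ z := by
      rw [ex_cone, ex_cone, norm_star, ex_star, hc.ch]
    change ((nrm (cone c.w 0 0 τ κ (star z)) (cone c.h 0 1 τ κ (star z)))⁻¹ : ℂ) *
      cone c.w 0 0 τ κ (star z) =
      star (((nrm (cone c.w 0 0 τ κ z) (cone c.h 0 1 τ κ z))⁻¹ : ℂ) * cone c.w 0 0 τ κ z)
    rw [e1, e2]
    have e3 : nrm (star (cone c.w 0 0 τ κ z)) (cone c.h 0 1 τ κ z) =
        nrm (cone c.w 0 0 τ κ z) (cone c.h 0 1 τ κ z) := by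
      unfold nrm
      rw [norm_star]
    rw [e3, ← Complex.ofReal_inv, ex_star]
  · have e1 : ‖cone c.w 0 0 τ κ (star z)‖ = ‖cone c.w 0 0 τ κ z‖ := by
      rw [ex_cone, ex_cone, norm_star, ex_star, hc.cw, zero_add, zero_add,
        sub_zero, sub_zero, norm_smul, norm_smul, norm_star]
    have e2 : cone c.h 0 1 τ κ (star z) = cone c.h 0 1 τ κ z := by
      rw [ex_cone, ex_cone, norm_star, ex_star, hc.ch]
    change (nrm (cone c.w 0 0 τ κ (star z)) (cone c.h 0 1 τ κ (star z)))⁻¹ *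
      cone c.h 0 1 τ κ (star z) = (nrm (cone c.w 0 0 τ κ z) (cone c.h 0 1 τ κ z))⁻¹ *
      cone c.h 0 1 τ κ z
    unfold nrm
    rw [e1, e2]
  · change ((κ ‖star z‖ / ‖star z‖ : ℝ) : ℂ) *
      c.A (((κ ‖star z‖ / ‖star z‖ : ℝ) : ℂ) * star z) =
      -star (((κ ‖z‖ / ‖z‖ : ℝ) : ℂ) * c.A (((κ ‖z‖ / ‖z‖ : ℝ) : ℂ) * z))
    rw [norm_star, ex_star, hc.cA, ← ex_star]
    ring

end D

end GO3
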