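import Pool.Agent.GO3.D.Ex1

/-! GO3 / D / Ex2: pointwise energy density of the outer competitor (part D, helper85).

Write `N = nrm`, `a = cone c.w 0 0 τ κ`, `t = cone c.h 0 1 τ κ`, `δ = 1 - h (pt (κ ρ) χ)`, `N² = 1 - 2 τ (1 - τ) δ ∈ [19/20, 1]`.
* `cov_norm` (pointwise algebra): for numbers `a, t` with `N² = |a|² + t² > 0`, derivatives `a', t'` and a real number `β`, the
  covariant derivative of `(a, t)/N`, i.e. `(N⁻¹ a' - N⁻² N' a - i β N⁻¹ a, N⁻¹ t' - N⁻² N' t)` with `N N' = Re (conj a a') + t t'`, has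
  square norm at most `(|a' - i β a|² + t'²) / N²` (it is the orthogonal projection of `(a' - i β a, t')/N`).
* `fderiv a (pt ρ χ) (er χ)` etc.: `cone_dr`, `cone_dchi`; in the middle region `τ = 1`, `deriv τ = 0` (also at `ρ = r'`, as `τ = 1` on
  the left), `N = 1`: the fields are `φ (pt (κ ρ) χ)` and `nsq' (er) ≤ κ'² nsq (er)`, `nsq' (i pt) = nsq (pt κ χ) (i pt κ χ)`,
  `(1 - h')² = δ²`, and `ρ F' = ∂_ρ b' = κ' κ F(pt κ χ)` (`Rad.hasDerivAt_b` for both configurations), so `|F'| ≤ |F|`; `κ ≤ ρ`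
  (`Dat.kle`) gives `nsq/ρ² ≤ nsq/κ²`; use `grad_polar` for both.
* far region: `κ = s`, `deriv κ = 0` (also at `ρ = r'`), so the radial derivative of `(a, t)` is `τ' (w, h - 1)` with square
  `τ'² (|w|² + (1 - h)²) = 2 τ'² δ`; angular: `τ (D_χ w, ∂_χ h)`; `F' = 0`; and `0 ≤ 1 - h' ≤ τ δ` because `N ≤ 1`,
  `h' = (1 - τ δ)/N ≥ 1 - τ δ`. `1/N² ≤ 20/19`.
* outside: `τ = 0`, vacuum. -/

open MeasureTheory Filter Topology Set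
open scoped ContDiff Real

noncomputable section

namespace GO3

namespace D

variable {c : Cf} {n : ℕ} {τ κ : ℝ → ℝ} {r s r' L : ℝ}

theorem cov_norm {a a' : ℂ} {t t' N N' β : ℝ} (hN : 0 < N) (h1 : N ^ 2 = ‖a‖ ^ 2 + t ^ 2)
    (h2 : N * N' = (star a * a').re + t * t') :
    ‖(N : ℂ)⁻¹ * a' - (N : ℂ)⁻¹ ^ 2 * N' * a - Complex.I * β * ((N : ℂ)⁻¹ * a)‖ ^ 2 +
      (N⁻¹ * t' - N⁻¹ ^ 2 * N' * t) ^ 2 ≤ (‖a' - Complex.I * β * a‖ ^ 2 + t' ^ 2) / N ^ 2 := by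
  obtain ⟨M, hM⟩ : ∃ M : ℝ, M = N⁻¹ := ⟨_, rfl⟩
  have hMN : M * N = 1 := by rw [hM]; field_simp
  have hMc : (N : ℂ)⁻¹ = (M : ℂ) := by rw [hM, Complex.ofReal_inv]
  have hdiv : (‖a' - Complex.I * β * a‖ ^ 2 + t' ^ 2) / N ^ 2 =
      (‖a' - Complex.I * β * a‖ ^ 2 + t' ^ 2) * M ^ 2 := by
    rw [hM]
    field_simp
  rw [hdiv, hMc, ← hM]
  have e1 : (M : ℂ) * a' - (M : ℂ) ^ 2 * N' * a - Complex.I * β * ((M : ℂ) * a) =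
      ⟨M * a'.re - M ^ 2 * N' * a.re + β * M * a.im, M * a'.im - M ^ 2 * N' * a.im - β * M * a.re⟩ := by
    apply Complex.ext
    · simp [sq]
      ring
    · simp [sq]
      ring
  have e2 : a' - Complex.I * β * a = ⟨a'.re + β * a.im, a'.im - β * a.re⟩ := by
    apply Complex.ext
    · simp
    · simp
  rw [e1, e2]
  simp only [Complex.sq_norm, Complex.normSq_apply] at h1 ⊢
  have h2' : N * N' = a.re * a'.re + a.im * a'.im + t * t' := by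
    rw [h2]
    simp [Complex.mul_re]
  have h3 : M ^ 2 * (a.re * a.re + a.im * a.im + t ^ 2) = 1 := by
    rw [← h1]
    have : M ^ 2 * N ^ 2 = (M * N) ^ 2 := by ring
    rw [this, hMN, one_pow]
  have h4 : M * (a.re * a'.re + a.im * a'.im + t * t') = N' := by
    rw [← h2', ← mul_assoc, hMN, one_mul]
  have h5 : ((M * a'.re - M ^ 2 * N' * a.re + β * M * a.im) * (M * a'.re - M ^ 2 * N' * a.re + β * M * a.im) +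
      (M * a'.im - M ^ 2 * N' * a.im - β * M * a.re) * (M * a'.im - M ^ 2 * N' * a.im - β * M * a.re)) +
      (M * t' - M ^ 2 * N' * t) ^ 2 =
      ((a'.re + β * a.im) * (a'.re + β * a.im) + (a'.im - β * a.re) * (a'.im - β * a.re) + t' ^ 2) * M ^ 2 -
        M ^ 2 * N' ^ 2 := by
    linear_combination M ^ 2 * N' ^ 2 * h3 - 2 * M ^ 2 * N' * h4
  rw [h5]
  have := mul_nonneg (sq_nonneg M) (sq_nonneg N')
  linarith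

/-- the normalised map, covariant derivative -/
private theorem ex2_nd {a : ℂ → ℂ} {t : ℂ → ℝ} {z : ℂ} (ha : DifferentiableAt ℝ a z)
    (ht : DifferentiableAt ℝ t z) (h0 : 0 < nrm (a z) (t z)) (v : ℂ) (β : ℝ) :
    ‖fderiv ℝ (fun z => ((nrm (a z) (t z))⁻¹ : ℂ) * a z) z v -
      Complex.I * β * (((nrm (a z) (t z))⁻¹ : ℂ) * a z)‖ ^ 2 +
      (fderiv ℝ (fun z => (nrm (a z) (t z))⁻¹ * t z) z v) ^ 2 ≤
    (‖fderiv ℝ a z v - Complex.I * β * a z‖ ^ 2 + (fderiv ℝ t z v) ^ 2) /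
      nrm (a z) (t z) ^ 2 := by
  obtain ⟨N, hN⟩ : ∃ N, N = nrm (a z) (t z) := ⟨_, rfl⟩
  have hN2 : N ^ 2 = ‖a z‖ ^ 2 + t z ^ 2 := by rw [hN, GO3.nrm_sq]
  rw [← hN] at h0
  have h1 := ha.hasFDerivAt.norm_sq
  have h2 := ht.hasFDerivAt.pow 2
  have h3 := h1.add h2
  have h4 : ‖a z‖ ^ 2 + t z ^ 2 ≠ 0 := by rw [← hN2]; positivity
  have h5 := h3.sqrt h4
  have hNs : Real.sqrt (‖a z‖ ^ 2 + t z ^ 2) = N := by rw [hN]; rfl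
  have h6 := (hasDerivAt_inv (x := Real.sqrt (‖a z‖ ^ 2 + t z ^ 2))
    (by rw [hNs]; exact h0.ne')).comp_hasFDerivAt z h5
  obtain ⟨M', hM'⟩ : ∃ M' : ℂ →L[ℝ] ℝ, M' =
    (-(√(‖a z‖ ^ 2 + t z ^ 2) ^ 2)⁻¹ • (1 / (2 * √(‖a z‖ ^ 2 + t z ^ 2))) •
      (2 • (innerSL ℝ (a z)).comp (fderiv ℝ a z) +
        (2 • t z ^ (2 - 1)) • fderiv ℝ t z) : ℂ →L[ℝ] ℝ) := ⟨_, rfl⟩
  have h7 : HasFDerivAt (fun z => (nrm (a z) (t z))⁻¹) M' z := by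
    rw [hM']
    exact h6
  obtain ⟨N', hN'⟩ : ∃ N' : ℝ, N' = ((star (a z) * fderiv ℝ a z v).re + t z * fderiv ℝ t z v) / N :=
    ⟨_, rfl⟩
  have hNN : N * N' = (star (a z) * fderiv ℝ a z v).re + t z * fderiv ℝ t z v := by
    rw [hN']
    field_simp
  have hMv : M' v = -(N⁻¹ ^ 2 * N') := by
    rw [hM', hNs, hN']
    simp only [_root_.smul_apply, _root_.add_apply,
      ContinuousLinearMap.comp_apply, innerSL_apply_apply, Complex.inner, smul_eq_mul,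
      Complex.mul_re, Complex.conj_re, Complex.conj_im, nsmul_eq_mul, Complex.star_def]
    field_simp
    push_cast
    ring
  have e1 : (fun z => ((nrm (a z) (t z))⁻¹ : ℂ) * a z) = fun z => (nrm (a z) (t z))⁻¹ • a z := by
    funext y
    rw [Complex.real_smul, Complex.ofReal_inv]
  have h8 : HasFDerivAt (fun z => (nrm (a z) (t z))⁻¹ • a z)
    ((nrm (a z) (t z))⁻¹ • fderiv ℝ a z + M'.smulRight (a z)) z := h7.smul ha.hasFDerivAt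
  have h9 : HasFDerivAt (fun z => (nrm (a z) (t z))⁻¹ * t z)
    ((nrm (a z) (t z))⁻¹ • fderiv ℝ t z + t z • M') z := h7.mul ht.hasFDerivAt
  have h10 := cov_norm (a := a z) (a' := fderiv ℝ a z v) (t := t z) (t' := fderiv ℝ t z v)
    (β := β) h0 hN2 hNN
  rw [e1, h8.fderiv, h9.fderiv, ← hN]
  simp only [_root_.add_apply, _root_.smul_apply,
    ContinuousLinearMap.smulRight_apply, smul_eq_mul]
  have e2 : N⁻¹ • fderiv ℝ a z v + M' v • a z - Complex.I * β * ((N : ℂ)⁻¹ * a z) =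
      (N : ℂ)⁻¹ * fderiv ℝ a z v - (N : ℂ)⁻¹ ^ 2 * N' * a z - Complex.I * β * ((N : ℂ)⁻¹ * a z) := by
    rw [hMv, Complex.real_smul, Complex.real_smul]
    push_cast
    ring
  have e3 : N⁻¹ * fderiv ℝ t z v + t z * M' v = N⁻¹ * fderiv ℝ t z v - N⁻¹ ^ 2 * N' * t z := by
    rw [hMv]
    ring
  rw [e2, e3]
  exact h10

private theorem ex2_cone {V : Type*} [NormedAddCommGroup V] [NormedSpace ℝ V] {f : ℂ → V} {m : V}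
    (hf : ContDiff ℝ ∞ f) (hτ : ContDiff ℝ ∞ τ) (hκ : ContDiff ℝ ∞ κ) {z : ℂ}
    (hz : z ≠ 0) : DifferentiableAt ℝ (cone f 0 m τ κ) z := by
  have hne : z - 0 ≠ 0 := sub_ne_zero.2 hz
  have hsub : ContDiffAt ℝ ∞ (fun z : ℂ => z - 0) z := contDiffAt_id.sub contDiffAt_const
  have hn : ContDiffAt ℝ ∞ (fun z : ℂ => ‖z - 0‖) z := (contDiffAt_norm ℝ hne).comp z hsub
  have hn0 : ‖z - 0‖ ≠ 0 := norm_ne_zero_iff.2 hne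
  have hq : ContDiffAt ℝ ∞ (fun z : ℂ => κ ‖z - 0‖ / ‖z - 0‖) z :=
    ((hκ.contDiffAt (x := ‖z - 0‖)).comp z hn).div hn hn0
  have hq' : ContDiffAt ℝ ∞ (fun z : ℂ => ((κ ‖z - 0‖ / ‖z - 0‖ : ℝ) : ℂ)) z :=
    Complex.ofRealCLM.contDiff.contDiffAt.comp z hq
  have hin : ContDiffAt ℝ ∞ (fun z : ℂ => 0 + ((κ ‖z - 0‖ / ‖z - 0‖ : ℝ) : ℂ) * (z - 0)) z :=
    contDiffAt_const.add (hq'.mul hsub)
  have hτ' : ContDiffAt ℝ ∞ (fun z : ℂ => τ ‖z - 0‖) z :=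
    (hτ.contDiffAt (x := ‖z - 0‖)).comp z hn
  have h : ContDiffAt ℝ ∞ (cone f 0 m τ κ) z :=
    contDiffAt_const.add (hτ'.smul ((hf.contDiffAt.comp z hin).sub contDiffAt_const))
  exact h.differentiableAt (by simp)

private theorem ex2_pt {ρ : ℝ} (hρ : 0 < ρ) (χ : ℝ) : pt ρ χ ≠ 0 := by
  rw [← norm_ne_zero_iff, norm_pt, abs_of_pos hρ]
  exact hρ.ne'

private theorem ex2_nsq (hc : c.Adm n) (D : Dat τ κ r s r' L) {ρ : ℝ} (hρ : 0 < ρ) (χ : ℝ)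
    (h0 : 0 < nrm (cone c.w 0 0 τ κ (pt ρ χ)) (cone c.h 0 1 τ κ (pt ρ χ))) (v : ℂ) {β : ℝ}
    (hβ : ip ((c.ext τ κ).A (pt ρ χ)) v = β) :
    (c.ext τ κ).nsq (pt ρ χ) v ≤
      (‖fderiv ℝ (cone c.w 0 0 τ κ) (pt ρ χ) v - Complex.I * β * cone c.w 0 0 τ κ (pt ρ χ)‖ ^ 2 +
        (fderiv ℝ (cone c.h 0 1 τ κ) (pt ρ χ) v) ^ 2) /
        nrm (cone c.w 0 0 τ κ (pt ρ χ)) (cone c.h 0 1 τ κ (pt ρ χ)) ^ 2 := by
  have h := ex2_nd (ex2_cone (m := (0 : ℂ)) hc.sw D.st D.sk (ex2_pt hρ χ))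
    (ex2_cone (m := (1 : ℝ)) hc.sh D.st D.sk (ex2_pt hρ χ)) h0 v β
  unfold Cf.nsq Cf.Dw Cf.dh
  rw [hβ]
  exact h

private theorem ex2_der_l {f : ℝ → ℝ} (hf : ContDiff ℝ ∞ f) {a k x : ℝ} (h : ∀ y, y ≤ a → f y = k)
    (hx : x ≤ a) : deriv f x = 0 := by
  have h1 : HasDerivAt f (deriv f x) x := (hf.differentiable (by simp) x).hasDerivAt
  have h2 : HasDerivWithinAt f 0 (Iic a) x :=
    (hasDerivWithinAt_const x (Iic a) k).congr (fun y hy => h y hy) (h x hx)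
  exact (uniqueDiffOn_Iic a x hx).eq_deriv _ h1.hasDerivWithinAt h2

private theorem ex2_der_r {f : ℝ → ℝ} (hf : ContDiff ℝ ∞ f) {a k x : ℝ} (h : ∀ y, a ≤ y → f y = k)
    (hx : a ≤ x) : deriv f x = 0 := by
  have h1 : HasDerivAt f (deriv f x) x := (hf.differentiable (by simp) x).hasDerivAt
  have h2 : HasDerivWithinAt f 0 (Ici a) x :=
    (hasDerivWithinAt_const x (Ici a) k).congr (fun y hy => h y hy) (h x hx)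
  exact (uniqueDiffOn_Ici a x hx).eq_deriv _ h1.hasDerivWithinAt h2

private theorem ex2_F (hC : (c.ext τ κ).Rad) (hr : c.Rad) (hκ : ContDiff ℝ ∞ κ) {ρ : ℝ}
    (hρ : 0 < ρ) (χ : ℝ) :
    ρ * (c.ext τ κ).F (pt ρ χ) = κ ρ * c.F (pt (κ ρ) χ) * deriv κ ρ := by
  have h1 := Cf.Rad.hasDerivAt_b hC ρ χ
  have h2 : HasDerivAt (fun x => c.b (κ x) χ) (κ ρ * c.F (pt (κ ρ) χ) * deriv κ ρ) ρ :=
    (Cf.Rad.hasDerivAt_b hr (κ ρ) χ).comp ρ (hκ.differentiable (by simp) ρ).hasDerivAt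
  have h3 : (fun x => (c.ext τ κ).b x χ) =ᶠ[𝓝 ρ] fun x => c.b (κ x) χ := by
    filter_upwards [lt_mem_nhds hρ] with x hx
    exact (ext_pt τ κ hx χ).2.2
  exact h1.unique (h2.congr_of_eventuallyEq h3)

private theorem ex2_w_r (hw : ContDiff ℝ ∞ c.w) (D : Dat τ κ r s r' L) {ρ : ℝ} (hρ : 0 < ρ) (χ : ℝ) :
    fderiv ℝ (cone c.w 0 0 τ κ) (pt ρ χ) (er χ) = ((deriv τ ρ : ℝ) : ℂ) * c.w (pt (κ ρ) χ) +
      ((τ ρ * deriv κ ρ : ℝ) : ℂ) * fderiv ℝ c.w (pt (κ ρ) χ) (er χ) := by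
  have h := cone_dr (q := 0) (m := (0 : ℂ)) hw D.st D.sk hρ χ
  rw [zero_add, zero_add, sub_zero, Complex.real_smul, Complex.real_smul] at h
  exact h

private theorem ex2_h_r (hh : ContDiff ℝ ∞ c.h) (D : Dat τ κ r s r' L) {ρ : ℝ} (hρ : 0 < ρ) (χ : ℝ) :
    fderiv ℝ (cone c.h 0 1 τ κ) (pt ρ χ) (er χ) = deriv τ ρ * (c.h (pt (κ ρ) χ) - 1) +
      (τ ρ * deriv κ ρ) * fderiv ℝ c.h (pt (κ ρ) χ) (er χ) := by
  have h := cone_dr (q := 0) (m := (1 : ℝ)) hh D.st D.sk hρ χ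
  rw [zero_add, zero_add, smul_eq_mul, smul_eq_mul] at h
  exact h

private theorem ex2_w_c (hw : ContDiff ℝ ∞ c.w) (D : Dat τ κ r s r' L) {ρ : ℝ} (hρ : 0 < ρ) (χ : ℝ) :
    fderiv ℝ (cone c.w 0 0 τ κ) (pt ρ χ) (Complex.I * pt ρ χ) =
      (τ ρ : ℂ) * fderiv ℝ c.w (pt (κ ρ) χ) (Complex.I * pt (κ ρ) χ) := by
  have h := cone_dchi (q := 0) (m := (0 : ℂ)) hw D.st D.sk hρ χ
  rw [zero_add, zero_add, Complex.real_smul] at h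
  exact h

private theorem ex2_h_c (hh : ContDiff ℝ ∞ c.h) (D : Dat τ κ r s r' L) {ρ : ℝ} (hρ : 0 < ρ) (χ : ℝ) :
    fderiv ℝ (cone c.h 0 1 τ κ) (pt ρ χ) (Complex.I * pt ρ χ) =
      τ ρ * fderiv ℝ c.h (pt (κ ρ) χ) (Complex.I * pt (κ ρ) χ) := by
  have h := cone_dchi (q := 0) (m := (1 : ℝ)) hh D.st D.sk hρ χ
  rw [zero_add, zero_add, smul_eq_mul] at h
  exact h

private theorem ex2_w_v (c : Cf) (τ κ : ℝ → ℝ) {ρ : ℝ} (hρ : 0 < ρ) (χ : ℝ) :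
    cone c.w 0 0 τ κ (pt ρ χ) = (τ ρ : ℂ) * c.w (pt (κ ρ) χ) := by
  have h := cone_pt c.w 0 0 τ κ hρ χ
  rw [zero_add, zero_add, sub_zero, zero_add, Complex.real_smul] at h
  exact h

/-- angular part -/
private theorem ex2_chi (hc : c.Adm n) (D : Dat τ κ r s r' L) {ρ : ℝ} (hρ : 0 < ρ) (χ : ℝ)
    (h0 : 0 < nrm (cone c.w 0 0 τ κ (pt ρ χ)) (cone c.h 0 1 τ κ (pt ρ χ))) :
    (c.ext τ κ).nsq (pt ρ χ) (Complex.I * pt ρ χ) ≤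
      τ ρ ^ 2 * c.nsq (pt (κ ρ) χ) (Complex.I * pt (κ ρ) χ) /
        nrm (cone c.w 0 0 τ κ (pt ρ χ)) (cone c.h 0 1 τ κ (pt ρ χ)) ^ 2 := by
  have hb : ip ((c.ext τ κ).A (pt ρ χ)) (Complex.I * pt ρ χ) = c.b (κ ρ) χ :=
    (ext_pt τ κ hρ χ).2.2
  refine (ex2_nsq hc D hρ χ h0 (Complex.I * pt ρ χ) hb).trans (le_of_eq ?_)
  congr 1
  rw [ex2_w_c hc.sw D hρ, ex2_h_c hc.sh D hρ, ex2_w_v c τ κ hρ]
  unfold Cf.nsq Cf.dh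
  rw [Cf.Dw_chi]
  have e : (τ ρ : ℂ) * fderiv ℝ c.w (pt (κ ρ) χ) (Complex.I * pt (κ ρ) χ) -
      Complex.I * (c.b (κ ρ) χ : ℂ) * ((τ ρ : ℂ) * c.w (pt (κ ρ) χ)) =
      (τ ρ : ℂ) * (fderiv ℝ c.w (pt (κ ρ) χ) (Complex.I * pt (κ ρ) χ) -
      Complex.I * (c.b (κ ρ) χ : ℂ) * c.w (pt (κ ρ) χ)) := by ring
  rw [e, norm_mul, Complex.norm_real, Real.norm_eq_abs, mul_pow, sq_abs]
  ring

/-- radial part -/
private theorem ex2_rad (hc : c.Adm n) (hC : (c.ext τ κ).Rad) (D : Dat τ κ r s r' L) {ρ : ℝ}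
    (hρ : 0 < ρ) (χ : ℝ)
    (h0 : 0 < nrm (cone c.w 0 0 τ κ (pt ρ χ)) (cone c.h 0 1 τ κ (pt ρ χ))) :
    (c.ext τ κ).nsq (pt ρ χ) (er χ) ≤
      (‖((deriv τ ρ : ℝ) : ℂ) * c.w (pt (κ ρ) χ) +
        ((τ ρ * deriv κ ρ : ℝ) : ℂ) * fderiv ℝ c.w (pt (κ ρ) χ) (er χ)‖ ^ 2 +
        (deriv τ ρ * (c.h (pt (κ ρ) χ) - 1) +
          (τ ρ * deriv κ ρ) * fderiv ℝ c.h (pt (κ ρ) χ) (er χ)) ^ 2) /
        nrm (cone c.w 0 0 τ κ (pt ρ χ)) (cone c.h 0 1 τ κ (pt ρ χ)) ^ 2 := by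
  have h := ex2_nsq hc D hρ χ h0 (er χ) (Cf.Rad.ip_er hC ρ χ)
  rw [ex2_w_r hc.sw D hρ, ex2_h_r hc.sh D hρ] at h
  simpa using h

/-- `0 ≤ 1 - h ≤ 1/10` at the frozen point, `19/20 ≤ nrm²` -/
private theorem ex2_nrm (hc : c.Adm n) (D : Dat τ κ r s r' L)
    (hh : ∀ z : ℂ, r ≤ ‖z‖ → 9 / 10 ≤ c.h z) {ρ : ℝ} (h1 : r ≤ ρ) (χ : ℝ) :
    0 ≤ 1 - c.h (pt (κ ρ) χ) ∧ 1 - c.h (pt (κ ρ) χ) ≤ 1 / 10 ∧
    19 / 20 ≤ nrm (cone c.w 0 0 τ κ (pt ρ χ)) (cone c.h 0 1 τ κ (pt ρ χ)) ^ 2 ∧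
    nrm (cone c.w 0 0 τ κ (pt ρ χ)) (cone c.h 0 1 τ κ (pt ρ χ)) ^ 2 ≤ 1 ∧
    0 < nrm (cone c.w 0 0 τ κ (pt ρ χ)) (cone c.h 0 1 τ κ (pt ρ χ)) := by
  have hρ : 0 < ρ := D.r0.trans_le h1
  have h2 := (abs_le.1 (Cf.Adm.abs_h_le hc (pt (κ ρ) χ))).2
  have hk := D.k2 ρ h1
  have hk0 : 0 < κ ρ := D.r0.trans_le hk.1
  have h3 := hh (pt (κ ρ) χ) (by rw [norm_pt, abs_of_pos hk0]; exact hk.1)
  have h4 := nrm_sq hc.unit τ κ hρ χ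
  have ht := D.t3 ρ
  have h5 : 2 * τ ρ * (1 - τ ρ) ≤ 1 / 2 := by nlinarith [sq_nonneg (2 * τ ρ - 1)]
  have h6 : 0 ≤ 2 * τ ρ * (1 - τ ρ) := mul_nonneg (by linarith [ht.1]) (by linarith [ht.2])
  have h7 : 2 * τ ρ * (1 - τ ρ) * (1 - c.h (pt (κ ρ) χ)) ≤ 1 / 2 * (1 / 10) :=
    mul_le_mul h5 (by linarith) (by linarith) (by norm_num)
  have h8 : 0 ≤ 2 * τ ρ * (1 - τ ρ) * (1 - c.h (pt (κ ρ) χ)) := mul_nonneg h6 (by linarith)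
  have h9 : 0 ≤ nrm (cone c.w 0 0 τ κ (pt ρ χ)) (cone c.h 0 1 τ κ (pt ρ χ)) := Real.sqrt_nonneg _
  refine ⟨by linarith, by linarith, by linarith, by linarith, ?_⟩
  rcases h9.eq_or_lt with h | h
  · rw [← h] at h4
    nlinarith
  · exact h

theorem ext_dens_in (hn : 2 ≤ n) (hc : c.Adm n) (hr : c.Rad) (D : Dat τ κ r s r' L)
    (hh : ∀ z : ℂ, r ≤ ‖z‖ → 9 / 10 ≤ c.h z) {z : ℂ} (hz : ‖z‖ < r) :
    (c.ext τ κ).dens z = c.dens z := by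
  have hA : c.A 0 = 0 := by
    obtain ⟨G, _, hG⟩ := hr
    rw [hG]
    ring
  have hev : ∀ᶠ y in 𝓝 z, ‖y‖ < r := continuous_norm.continuousAt.eventually_lt continuousAt_const hz
  have hw : (c.ext τ κ).w =ᶠ[𝓝 z] c.w := hev.mono fun y hy => (ext_in hc.unit hA D hy.le).1
  have hH : (c.ext τ κ).h =ᶠ[𝓝 z] c.h := hev.mono fun y hy => (ext_in hc.unit hA D hy.le).2.1
  have hAA : (c.ext τ κ).A =ᶠ[𝓝 z] c.A := hev.mono fun y hy => (ext_in hc.unit hA D hy.le).2.2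
  unfold Cf.dens Cf.grad Cf.nsq Cf.Dw Cf.dh Cf.F
  rw [hw.fderiv_eq, hH.fderiv_eq, hAA.fderiv_eq, hw.eq_of_nhds, hH.eq_of_nhds, hAA.eq_of_nhds]

theorem ext_dens_mid (hn : 2 ≤ n) (hc : c.Adm n) (hr : c.Rad) (D : Dat τ κ r s r' L)
    (hh : ∀ z : ℂ, r ≤ ‖z‖ → 9 / 10 ≤ c.h z) {ρ : ℝ} (h1 : r ≤ ρ) (h2 : ρ ≤ r') (χ : ℝ) :
    (c.ext τ κ).dens (pt ρ χ) ≤ c.dens (pt (κ ρ) χ) := by
  have hρ : 0 < ρ := D.r0.trans_le h1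
  obtain ⟨hk0, hkρ⟩ := D.kle hρ
  have hτ : τ ρ = 1 := D.t1 ρ h2
  have hτ' : deriv τ ρ = 0 := ex2_der_l D.st (fun y hy => D.t1 y hy) h2
  obtain ⟨hCa, hCr⟩ := ext_adm hn hc hr D hh
  obtain ⟨_, _, _, _, h0⟩ := ex2_nrm hc D hh h1 χ
  have hN2 := nrm_sq hc.unit τ κ hρ χ
  rw [hτ] at hN2
  have hN : nrm (cone c.w 0 0 τ κ (pt ρ χ)) (cone c.h 0 1 τ κ (pt ρ χ)) = 1 := by
    have h3 : nrm (cone c.w 0 0 τ κ (pt ρ χ)) (cone c.h 0 1 τ κ (pt ρ χ)) ^ 2 = 1 := by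
      rw [hN2]
      ring
    nlinarith [h0, h3]
  have hk := D.k3 ρ
  have hR := ex2_rad hc hCr D hρ χ h0
  have hX := ex2_chi hc D hρ χ h0
  rw [hN, hτ] at hX
  rw [hN, hτ, hτ'] at hR
  have hR2 : (c.ext τ κ).nsq (pt ρ χ) (er χ) ≤ c.nsq (pt (κ ρ) χ) (er χ) := by
    refine hR.trans ?_
    unfold Cf.nsq Cf.dh
    rw [Cf.Rad.Dw_er hr]
    have e : ((0 : ℝ) : ℂ) * c.w (pt (κ ρ) χ) + ((1 * deriv κ ρ : ℝ) : ℂ) *
        fderiv ℝ c.w (pt (κ ρ) χ) (er χ) = ((deriv κ ρ : ℝ) : ℂ) * fderiv ℝ c.w (pt (κ ρ) χ) (er χ) := by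
      push_cast
      ring
    rw [e, norm_mul, Complex.norm_real, Real.norm_eq_abs, mul_pow, sq_abs]
    have h4 : deriv κ ρ ^ 2 ≤ 1 := by nlinarith [hk.1, hk.2]
    have h5 := mul_le_mul_of_nonneg_right h4 (sq_nonneg ‖fderiv ℝ c.w (pt (κ ρ) χ) (er χ)‖)
    have h6 := mul_le_mul_of_nonneg_right h4 (sq_nonneg (fderiv ℝ c.h (pt (κ ρ) χ) (er χ)))
    have e2 : (0 * (c.h (pt (κ ρ) χ) - 1) + 1 * deriv κ ρ * fderiv ℝ c.h (pt (κ ρ) χ) (er χ)) ^ 2 =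
        deriv κ ρ ^ 2 * fderiv ℝ c.h (pt (κ ρ) χ) (er χ) ^ 2 := by ring
    rw [e2]
    linarith
  have hX2 : (c.ext τ κ).nsq (pt ρ χ) (Complex.I * pt ρ χ) / ρ ^ 2 ≤
      c.nsq (pt (κ ρ) χ) (Complex.I * pt (κ ρ) χ) / κ ρ ^ 2 := by
    have h3 : (c.ext τ κ).nsq (pt ρ χ) (Complex.I * pt ρ χ) ≤
        c.nsq (pt (κ ρ) χ) (Complex.I * pt (κ ρ) χ) := by linarith
    have h4 : κ ρ ^ 2 ≤ ρ ^ 2 := pow_le_pow_left₀ hk0.le hkρ 2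
    exact (div_le_div_of_nonneg_right h3 (by positivity)).trans
      (div_le_div_of_nonneg_left (Cf.nsq_nonneg c _ _) (by positivity) h4)
  have hF := ex2_F hCr hr D.sk hρ χ
  have hF2 : (c.ext τ κ).F (pt ρ χ) ^ 2 ≤ c.F (pt (κ ρ) χ) ^ 2 := by
    have h3 : |ρ * (c.ext τ κ).F (pt ρ χ)| ≤ ρ * |c.F (pt (κ ρ) χ)| := by
      rw [hF, abs_mul, abs_mul, abs_of_pos hk0, abs_of_nonneg hk.1]
      have h4 : κ ρ * |c.F (pt (κ ρ) χ)| * deriv κ ρ ≤ κ ρ * |c.F (pt (κ ρ) χ)| * 1 :=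
        mul_le_mul_of_nonneg_left hk.2 (by positivity)
      have h5 := mul_le_mul_of_nonneg_right hkρ (abs_nonneg (c.F (pt (κ ρ) χ)))
      linarith
    rw [abs_mul, abs_of_pos hρ] at h3
    exact sq_le_sq.2 (le_of_mul_le_mul_left h3 hρ)
  have hH : (c.ext τ κ).h (pt ρ χ) = c.h (pt (κ ρ) χ) := by
    rw [(ext_pt τ κ hρ χ).2.1, hN, hτ]
    ring
  unfold Cf.dens
  rw [Cf.grad_polar _ hρ.ne', Cf.grad_polar _ hk0.ne', hH]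
  linarith

theorem ext_dens_far (hn : 2 ≤ n) (hc : c.Adm n) (hr : c.Rad) (D : Dat τ κ r s r' L)
    (hh : ∀ z : ℂ, r ≤ ‖z‖ → 9 / 10 ≤ c.h z) {ρ : ℝ} (h1 : r' ≤ ρ) (χ : ℝ) :
    (c.ext τ κ).dens (pt ρ χ) ≤ 20 / 19 * (2 * deriv τ ρ ^ 2 * (1 - c.h (pt s χ)) +
      c.nsq (pt s χ) (Complex.I * pt s χ) / ρ ^ 2) + (1 - c.h (pt s χ)) ^ 2 := by
  have hr1 : r ≤ ρ := (D.rs.le.trans D.sr.le).trans h1
  have hρ : 0 < ρ := D.r0.trans_le hr1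
  have hks : κ ρ = s := D.k4 ρ h1
  have hκ' : deriv κ ρ = 0 := ex2_der_r D.sk (fun y hy => D.k4 y hy) h1
  obtain ⟨hCa, hCr⟩ := ext_adm hn hc hr D hh
  obtain ⟨hd0, hd1, hN1, hN2, h0⟩ := ex2_nrm hc D hh hr1 χ
  have hR := ex2_rad hc hCr D hρ χ h0
  have hX := ex2_chi hc D hρ χ h0
  have ht := D.t3 ρ
  rw [hκ', hks] at hR
  rw [hks] at hX hd0 hd1
  obtain ⟨N, hN⟩ : ∃ N, N = nrm (cone c.w 0 0 τ κ (pt ρ χ)) (cone c.h 0 1 τ κ (pt ρ χ)) := ⟨_, rfl⟩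
  rw [← hN] at hR hX hN1 hN2 h0
  obtain ⟨δ, hδ⟩ : ∃ δ, δ = 1 - c.h (pt s χ) := ⟨_, rfl⟩
  have hinv : 1 / N ^ 2 ≤ 20 / 19 := by
    rw [div_le_iff₀ (by positivity)]
    linarith
  have hR2 : (c.ext τ κ).nsq (pt ρ χ) (er χ) ≤ 20 / 19 * (2 * deriv τ ρ ^ 2 * δ) := by
    have e : ‖((deriv τ ρ : ℝ) : ℂ) * c.w (pt s χ) + ((τ ρ * 0 : ℝ) : ℂ) *
        fderiv ℝ c.w (pt s χ) (er χ)‖ ^ 2 + (deriv τ ρ * (c.h (pt s χ) - 1) +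
        τ ρ * 0 * fderiv ℝ c.h (pt s χ) (er χ)) ^ 2 = 2 * deriv τ ρ ^ 2 * δ := by
      have e1 : ((deriv τ ρ : ℝ) : ℂ) * c.w (pt s χ) + ((τ ρ * 0 : ℝ) : ℂ) *
        fderiv ℝ c.w (pt s χ) (er χ) = ((deriv τ ρ : ℝ) : ℂ) * c.w (pt s χ) := by
        push_cast
        ring
      have hu := hc.unit (pt s χ)
      rw [e1, norm_mul, Complex.norm_real, Real.norm_eq_abs, mul_pow, sq_abs, hδ]
      linear_combination deriv τ ρ ^ 2 * hu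
    rw [e] at hR
    refine hR.trans ?_
    have h3 : 0 ≤ 2 * deriv τ ρ ^ 2 * δ := by
      rw [hδ]
      positivity
    rw [div_eq_mul_one_div, mul_comm]
    exact mul_le_mul_of_nonneg_right hinv h3
  have hX2 : (c.ext τ κ).nsq (pt ρ χ) (Complex.I * pt ρ χ) / ρ ^ 2 ≤
      20 / 19 * (c.nsq (pt s χ) (Complex.I * pt s χ) / ρ ^ 2) := by
    have h3 := Cf.nsq_nonneg c (pt s χ) (Complex.I * pt s χ)
    have h4 : τ ρ ^ 2 * c.nsq (pt s χ) (Complex.I * pt s χ) ≤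
        c.nsq (pt s χ) (Complex.I * pt s χ) := by
      have : τ ρ ^ 2 ≤ 1 := by nlinarith [ht.1, ht.2]
      nlinarith
    have h5 : τ ρ ^ 2 * c.nsq (pt s χ) (Complex.I * pt s χ) / N ^ 2 ≤
        20 / 19 * c.nsq (pt s χ) (Complex.I * pt s χ) := by
      rw [div_eq_mul_one_div, mul_comm]
      exact mul_le_mul hinv h4 (by positivity) (by norm_num)
    have h6 := hX.trans h5
    have h7 := div_le_div_of_nonneg_right h6 (sq_nonneg ρ)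
    rwa [mul_div_assoc] at h7
  have hF : (c.ext τ κ).F (pt ρ χ) = 0 := by
    have h3 := ex2_F hCr hr D.sk hρ χ
    rw [hκ', mul_zero] at h3
    exact (mul_eq_zero.1 h3).resolve_left hρ.ne'
  have hH : (1 - (c.ext τ κ).h (pt ρ χ)) ^ 2 ≤ δ ^ 2 := by
    have h3 := (abs_le.1 (Cf.Adm.abs_h_le hCa (pt ρ χ))).2
    have h4 : (c.ext τ κ).h (pt ρ χ) = N⁻¹ * (1 - τ ρ * δ) := by
      rw [(ext_pt τ κ hρ χ).2.1, hks, ← hN, hδ]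
    have hδ0 : 0 ≤ δ := by rw [hδ]; exact hd0
    have hδ1 : δ ≤ 1 / 10 := by rw [hδ]; exact hd1
    have h5 : 0 ≤ τ ρ * δ := mul_nonneg ht.1 hδ0
    have h6 : τ ρ * δ ≤ δ := by nlinarith [ht.2]
    have h7 : 1 ≤ N⁻¹ := by
      rw [one_le_inv₀ h0]
      nlinarith
    have h8 : 1 - τ ρ * δ ≤ N⁻¹ * (1 - τ ρ * δ) := by nlinarith
    rw [h4] at h3 ⊢
    exact pow_le_pow_left₀ (by linarith) (by linarith) 2
  unfold Cf.dens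
  rw [Cf.grad_polar _ hρ.ne', hF, ← hδ]
  linarith

theorem ext_dens_out (hn : 2 ≤ n) (hc : c.Adm n) (hr : c.Rad) (D : Dat τ κ r s r' L)
    (hh : ∀ z : ℂ, r ≤ ‖z‖ → 9 / 10 ≤ c.h z) {z : ℂ} (hz : L < ‖z‖) :
    (c.ext τ κ).dens z = 0 := by
  obtain ⟨hCa, hCr⟩ := ext_adm hn hc hr D hh
  obtain ⟨χ, _, hzp⟩ := exists_pt z
  have hL : r' < ‖z‖ := D.rL.trans hz
  have hρ : 0 < ‖z‖ := ((D.r0.trans D.rs).trans D.sr).trans hL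
  have hev : ∀ᶠ y in 𝓝 z, L < ‖y‖ := continuousAt_const.eventually_lt continuous_norm.continuousAt hz
  have hval : ∀ y : ℂ, L < ‖y‖ → (c.ext τ κ).w y = 0 ∧ (c.ext τ κ).h y = 1 := by
    intro y hy
    have h1 : cone c.w 0 0 τ κ y = 0 := cone_eq_const (by
      rw [sub_zero]
      exact D.t2 _ hy.le)
    have h2 : cone c.h 0 1 τ κ y = 1 := cone_eq_const (by
      rw [sub_zero]
      exact D.t2 _ hy.le)
    constructor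
    · show ((nrm (cone c.w 0 0 τ κ y) (cone c.h 0 1 τ κ y))⁻¹ : ℂ) * cone c.w 0 0 τ κ y = 0
      rw [h1, mul_zero]
    · show (nrm (cone c.w 0 0 τ κ y) (cone c.h 0 1 τ κ y))⁻¹ * cone c.h 0 1 τ κ y = 1
      rw [h1, h2]
      unfold nrm
      norm_num
  have hw : (c.ext τ κ).w =ᶠ[𝓝 z] fun _ => (0 : ℂ) := hev.mono fun y hy => (hval y hy).1
  have hH : (c.ext τ κ).h =ᶠ[𝓝 z] fun _ => (1 : ℝ) := hev.mono fun y hy => (hval y hy).2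
  have hF : (c.ext τ κ).F z = 0 := by
    have h3 := ex2_F hCr hr D.sk hρ χ
    rw [ex2_der_r D.sk (fun y hy => D.k4 y hy) hL.le, mul_zero, ← hzp] at h3
    exact (mul_eq_zero.1 h3).resolve_left hρ.ne'
  unfold Cf.dens Cf.grad Cf.nsq Cf.Dw Cf.dh
  rw [hF, hw.fderiv_eq, hH.fderiv_eq, (hval z hz).1, (hval z hz).2]
  simp

end D

end GO3
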