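import Pool.Agent.GO3.D.Ex1
import Pool.Agent.GO3.Lmo

/-! GO3 / D / Ex3: the outer competitor is in the class (part D, helper85).

`ext_adm`. `h' 0 = h 0` (`ext_in` at `0`; `c.A 0 = 0` by `Rad`). Winding number: `wind_close`. For `0 ≤ ρ ≤ r` all fields of both
configurations agree on the circle of radius `ρ` (`ext_in`, `norm_pt`), hence `b, B, beta, aa, cc, V, Z` agree at `ρ` (unfold the
definitions, `intervalIntegral.integral_congr`). For `ρ ≥ r ≥ rp K n`: `‖Z - 1‖ ≤ 1/5` for both (`Z_sub_one_le`; here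
`(c.ext τ κ).E ≤ K n²` is used), so `‖Z' - Z‖ ≤ 2/5 < 1/2`. `n₀` is the one of `wind_close`. -/

open MeasureTheory Filter Topology Set
open scoped ContDiff Real

noncomputable section

namespace GO3

namespace D

private theorem ex3_pt (ρ χ : ℝ) (hρ : 0 ≤ ρ) : ‖pt ρ χ‖ = ρ := by
  rw [norm_pt, abs_of_nonneg hρ]

private theorem ex3_Z {c c' : Cf} {n : ℕ} {ρ : ℝ} (hw : ∀ χ, c'.w (pt ρ χ) = c.w (pt ρ χ))
    (hh : ∀ χ, c'.h (pt ρ χ) = c.h (pt ρ χ)) (hA : ∀ χ, c'.A (pt ρ χ) = c.A (pt ρ χ)) :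
    c'.Z n ρ = c.Z n ρ := by
  have hb : ∀ χ, c'.b ρ χ = c.b ρ χ := fun χ => by
    unfold Cf.b
    rw [hA]
  have hB : ∀ χ, c'.B ρ χ = c.B ρ χ := fun χ => by
    unfold Cf.B
    exact intervalIntegral.integral_congr fun t _ => hb t
  have ha : c'.aa n ρ = c.aa n ρ := by
    unfold Cf.aa Cf.beta
    rw [hB]
  have hcc : c'.cc n ρ = c.cc n ρ := by
    unfold Cf.cc
    rw [intervalIntegral.integral_congr fun t _ => hh t]
  have hV : c'.V n ρ = c.V n ρ := by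
    unfold Cf.V
    congr 1
    refine intervalIntegral.integral_congr fun t _ => ?_
    simp only [hw t, hB t]
  unfold Cf.Z
  rw [ha, hcc, hV]

theorem ext_cls (K : ℝ) (hK : 1 ≤ K) : ∃ n₀ : ℕ, 2 ≤ n₀ ∧ ∀ n : ℕ, n₀ ≤ n → ∀ (σ : ℝ) (c : Cf),
    c.Cls n σ → c.Rad → c.E ≤ K * n ^ 2 → ∀ (τ κ : ℝ → ℝ) (r s r' L : ℝ), Dat τ κ r s r' L →
    rp K n ≤ r → (∀ z : ℂ, r ≤ ‖z‖ → 9 / 10 ≤ c.h z) → (c.ext τ κ).E ≤ K * n ^ 2 →
    (c.ext τ κ).Cls n σ := by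
  obtain ⟨n₀, h2, h⟩ := wind_close K hK
  refine ⟨n₀, h2, fun n hn σ c hc hr hE τ κ r s r' L D hrp hh hE' => ?_⟩
  have hn2 : 2 ≤ n := le_trans h2 hn
  obtain ⟨hadm, hwind, hσ⟩ := hc
  obtain ⟨hadm', hr'⟩ := ext_adm hn2 hadm hr D hh
  have hA0 : c.A 0 = 0 := by
    obtain ⟨G, -, hG⟩ := hr
    rw [hG 0]
    simp
  have hin := fun (z : ℂ) (hz : ‖z‖ ≤ r) => ext_in hadm.unit hA0 D (z := z) hz
  refine ⟨hadm', ?_, ?_⟩
  · refine h n hn c (c.ext τ κ) hadm hadm' hE (fun ρ hρ => ?_) hwind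
    rcases le_total ρ r with hρr | hρr
    · have e : (c.ext τ κ).Z n ρ = c.Z n ρ :=
        ex3_Z (fun χ => (hin _ (by rw [ex3_pt ρ χ hρ]; exact hρr)).1)
          (fun χ => (hin _ (by rw [ex3_pt ρ χ hρ]; exact hρr)).2.1)
          (fun χ => (hin _ (by rw [ex3_pt ρ χ hρ]; exact hρr)).2.2)
      rw [e, sub_self, norm_zero]
      norm_num
    · have a1 := Cf.Z_sub_one_le hn2 hadm hK hE (hrp.trans hρr)
      have a2 := Cf.Z_sub_one_le hn2 hadm' hK hE' (hrp.trans hρr)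
      have a3 : ‖(c.ext τ κ).Z n ρ - c.Z n ρ‖ ≤
          ‖(c.ext τ κ).Z n ρ - 1‖ + ‖c.Z n ρ - 1‖ := by
        have h3 := norm_sub_le ((c.ext τ κ).Z n ρ - 1) (c.Z n ρ - 1)
        rwa [sub_sub_sub_cancel_right] at h3
      linarith
  · rw [(hin 0 (by rw [norm_zero]; exact D.r0.le)).2.1]
    exact hσ

end D

end GO3
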