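import Pool.Agent.GO3.D.Ex2
import Pool.Agent.GO3.D.Ex3
import Pool.Agent.GO3.D.Cir

/-! GO3 / D / Ex4: energy comparison with the outer competitor (part D, helper85).

If `(c.ext τ κ).E > K n²` then `c.E ≤ K n² < (c.ext τ κ).E`, otherwise minimality in the class (`ext_cls`): in both cases
`c.E ≤ (c.ext τ κ).E`. Both energies are `∫_{Ioi 0} fd` (`fd_int`), `fd' = fd` on `(0, r)` (`ext_dens_in`, `norm_pt`), so
`∫_{Ioi r} c.fd ≤ ∫_{Ioi r} fd'`; split `Ioi r` at `r'` and `L`; `fd' = 0` beyond `L` (`ext_dens_out`).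
Middle: `fd' ρ ≤ (1/2) ρ ∮ dens (pt (κ ρ) χ) dχ ≤ (1/2) ρ 2π M` (`ext_dens_mid`, `r ≤ κ ρ ≤ s ≤ r'`), so the integral over `[r, r']` is at
most `π M r' (r' - r)`. Far: `ext_dens_far`, integrate over `χ` and over `[r', L]`:
`(1/2) ρ ∮ ≤ (20/19) (ρ τ'² Pc s + (1/2) Xo s / ρ) + (1/2) ρ Uc s`. -/

open MeasureTheory Filter Topology Set
open scoped ContDiff Real

noncomputable section

namespace GO3

namespace D

variable {c : Cf} {n : ℕ}

private theorem e4_pt (r : ℝ) : Continuous fun χ : ℝ => pt r χ :=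
  continuous_pt.comp (continuous_const.prodMk continuous_id)

private theorem e4_dens (hc : c.Adm n) (r : ℝ) : Continuous fun χ : ℝ => c.dens (pt r χ) :=
  hc.contDiff_dens.continuous.comp (e4_pt r)

private theorem e4_nsq (hc : c.Adm n) (r : ℝ) :
    Continuous fun χ : ℝ => c.nsq (pt r χ) (Complex.I * pt r χ) := by
  have h1 : Continuous fun χ : ℝ => ((pt r χ, Complex.I * pt r χ) : ℂ × ℂ) :=
    (e4_pt r).prodMk (continuous_const.mul (e4_pt r))
  have h2 := hc.contDiff_nsq.continuous.comp h1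
  exact h2

private theorem e4_h (hc : c.Adm n) (r : ℝ) : Continuous fun χ : ℝ => c.h (pt r χ) :=
  hc.sh.continuous.comp (e4_pt r)

/-- integral of a pointwise bound over the circle -/
private theorem e4_mid (hc : c.Adm n) {ρ M : ℝ} (hρ : 0 ≤ ρ) (hM : ∀ χ, c.dens (pt ρ χ) ≤ M) :
    c.fd ρ ≤ π * M * ρ := by
  have hπ := Real.pi_pos
  unfold Cf.fd
  have h1 : ∫ χ in (0 : ℝ)..2 * π, c.dens (pt ρ χ) ≤ ∫ χ in (0 : ℝ)..2 * π, M := by
    apply intervalIntegral.integral_mono_on (by positivity)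
    · exact (e4_dens hc ρ).intervalIntegrable _ _
    · exact intervalIntegrable_const
    · intro χ _
      exact hM χ
  rw [intervalIntegral.integral_const, sub_zero, smul_eq_mul] at h1
  have h2 := mul_le_mul_of_nonneg_left h1 hρ
  linarith

private theorem e4_far {c' : Cf} (hc : c.Adm n) (hc' : c'.Adm n) {ρ s t : ℝ} (hρ : 0 < ρ)
    (h : ∀ χ, c'.dens (pt ρ χ) ≤ 20 / 19 * (2 * t ^ 2 * (1 - c.h (pt s χ)) +
      c.nsq (pt s χ) (Complex.I * pt s χ) / ρ ^ 2) + (1 - c.h (pt s χ)) ^ 2) :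
    c'.fd ρ ≤ 20 / 19 * (ρ * t ^ 2 * c.Pc s + 1 / 2 * c.Xo s * ρ⁻¹) + 1 / 2 * ρ * c.Uc s := by
  have hπ := Real.pi_pos
  have k1 := e4_h hc s
  have k2 := e4_nsq hc s
  have h1 : ∫ χ in (0 : ℝ)..2 * π, c'.dens (pt ρ χ) ≤
      ∫ χ in (0 : ℝ)..2 * π, (20 / 19 * (2 * t ^ 2 * (1 - c.h (pt s χ)) +
      c.nsq (pt s χ) (Complex.I * pt s χ) / ρ ^ 2) + (1 - c.h (pt s χ)) ^ 2) := by
    apply intervalIntegral.integral_mono_on (by positivity)
    · exact (e4_dens hc' ρ).intervalIntegrable _ _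
    · apply Continuous.intervalIntegrable
      fun_prop
    · intro χ _
      exact h χ
  have h2 : ∫ χ in (0 : ℝ)..2 * π, (20 / 19 * (2 * t ^ 2 * (1 - c.h (pt s χ)) +
      c.nsq (pt s χ) (Complex.I * pt s χ) / ρ ^ 2) + (1 - c.h (pt s χ)) ^ 2) =
      20 / 19 * (2 * t ^ 2 * c.Pc s + c.Xo s / ρ ^ 2) + c.Uc s := by
    unfold Cf.Pc Cf.Xo Cf.Uc
    rw [intervalIntegral.integral_add, intervalIntegral.integral_const_mul,
      intervalIntegral.integral_add, intervalIntegral.integral_const_mul,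
      intervalIntegral.integral_div]
    · apply Continuous.intervalIntegrable
      fun_prop
    · apply Continuous.intervalIntegrable
      fun_prop
    · apply Continuous.intervalIntegrable
      fun_prop
    · apply Continuous.intervalIntegrable
      fun_prop
  rw [h2] at h1
  have h3 := mul_le_mul_of_nonneg_left h1 hρ.le
  unfold Cf.fd
  have h4 : 1 / 2 * (ρ * (20 / 19 * (2 * t ^ 2 * c.Pc s + c.Xo s / ρ ^ 2) + c.Uc s)) =
      20 / 19 * (ρ * t ^ 2 * c.Pc s + 1 / 2 * c.Xo s * ρ⁻¹) + 1 / 2 * ρ * c.Uc s := by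
    field_simp
  rw [← h4]
  linarith

theorem ext_le (K : ℝ) (hK : 1 ≤ K) : ∃ n₀ : ℕ, 2 ≤ n₀ ∧ ∀ n : ℕ, n₀ ≤ n → ∀ (σ : ℝ) (c : Cf),
    c.Mini n σ → c.E ≤ K * n ^ 2 → ∀ (τ κ : ℝ → ℝ) (r s r' L : ℝ), Dat τ κ r s r' L →
    rp K n ≤ r → (∀ z : ℂ, r ≤ ‖z‖ → 9 / 10 ≤ c.h z) →
    ∀ M : ℝ, (∀ z : ℂ, ‖z‖ ≤ r' → c.dens z ≤ M) →
    ∫ ρ in Ioi r, c.fd ρ ≤ π * M * r' * (r' - r) + 20 / 19 * (c.Pc s * (∫ ρ in r'..L, ρ * deriv τ ρ ^ 2) +
      1 / 2 * c.Xo s * Real.log (L / r')) + 1 / 4 * c.Uc s * (L ^ 2 - r' ^ 2) := by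
  obtain ⟨n₀, hn₀, H⟩ := ext_cls K hK
  refine ⟨n₀, hn₀, ?_⟩
  intro n hn σ c hMini hE τ κ r s r' L D hrp hh M hM
  obtain ⟨hCls, hRad, hmin⟩ := hMini
  have hc := hCls.1
  have hn2 : 2 ≤ n := le_trans hn₀ hn
  obtain ⟨hc', hRad'⟩ := ext_adm hn2 hc hRad D hh
  have hr0 := D.r0
  have hrs := D.rs
  have hsr := D.sr
  have hrL := D.rL
  have hr' : 0 < r' := by linarith
  have hπ := Real.pi_pos
  have hEE : c.E ≤ (c.ext τ κ).E := by
    by_cases h : (c.ext τ κ).E ≤ K * n ^ 2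
    · exact hmin _ (H n hn σ c hCls hRad hE τ κ r s r' L D hrp hh h)
    · exact hE.trans (not_le.1 h).le
  obtain ⟨i1, e1⟩ := Cf.fd_int hc
  obtain ⟨i2, e2⟩ := Cf.fd_int hc'
  have hM0 : 0 ≤ M := by
    have h1 := hM 0 (by rw [norm_zero]; exact hr'.le)
    exact (Cf.dens_nonneg c 0).trans h1
  -- splitting at `r`
  have hsplit : ∀ f : ℝ → ℝ, IntegrableOn f (Ioi 0) →
      ∫ x in Ioi (0 : ℝ), f x = (∫ x in Ioo (0 : ℝ) r, f x) + ∫ x in Ioi r, f x := by
    intro f hf
    rw [← integral_Ioc_eq_integral_Ioo, ← setIntegral_union (Ioc_disjoint_Ioi le_rfl)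
      measurableSet_Ioi (hf.mono_set Ioc_subset_Ioi_self)
      (hf.mono_set (Ioi_subset_Ioi hr0.le)), Ioc_union_Ioi_eq_Ioi hr0.le]
  have hin : ∫ x in Ioo (0 : ℝ) r, (c.ext τ κ).fd x = ∫ x in Ioo (0 : ℝ) r, c.fd x := by
    apply setIntegral_congr_fun measurableSet_Ioo
    intro x hx
    unfold Cf.fd
    congr 2
    refine intervalIntegral.integral_congr fun χ _ => ?_
    apply ext_dens_in hn2 hc hRad D hh
    rw [norm_pt, abs_of_pos hx.1]
    exact hx.2
  have h1 : ∫ x in Ioi r, c.fd x ≤ ∫ x in Ioi r, (c.ext τ κ).fd x := by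
    have h2 := hsplit _ i1
    have h3 := hsplit _ i2
    rw [e1] at h2
    rw [e2, hin] at h3
    linarith
  refine h1.trans ?_
  have i3 : IntegrableOn (c.ext τ κ).fd (Ioi r) := i2.mono_set (Ioi_subset_Ioi hr0.le)
  have i4 : IntegrableOn (c.ext τ κ).fd (Ioi r') :=
    i2.mono_set (Ioi_subset_Ioi hr'.le)
  have i5 : IntegrableOn (c.ext τ κ).fd (Ioi L) :=
    i2.mono_set (Ioi_subset_Ioi (by linarith))
  have h2 : ∫ x in Ioi r, (c.ext τ κ).fd x =
      (∫ x in r..r', (c.ext τ κ).fd x) + ∫ x in Ioi r', (c.ext τ κ).fd x := by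
    rw [intervalIntegral.integral_of_le (by linarith : r ≤ r'),
      ← setIntegral_union (Ioc_disjoint_Ioi le_rfl) measurableSet_Ioi
      (i3.mono_set Ioc_subset_Ioi_self) i4, Ioc_union_Ioi_eq_Ioi (by linarith)]
  have h3 : ∫ x in Ioi r', (c.ext τ κ).fd x =
      (∫ x in r'..L, (c.ext τ κ).fd x) + ∫ x in Ioi L, (c.ext τ κ).fd x := by
    rw [intervalIntegral.integral_of_le hrL.le,
      ← setIntegral_union (Ioc_disjoint_Ioi le_rfl) measurableSet_Ioi
      (i4.mono_set Ioc_subset_Ioi_self) i5, Ioc_union_Ioi_eq_Ioi hrL.le]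
  have h4 : ∫ x in Ioi L, (c.ext τ κ).fd x = 0 := by
    apply setIntegral_eq_zero_of_forall_eq_zero
    intro x hx
    have hx' : L < x := hx
    unfold Cf.fd
    have h5 : ∀ χ : ℝ, (c.ext τ κ).dens (pt x χ) = 0 := by
      intro χ
      apply ext_dens_out hn2 hc hRad D hh
      rw [norm_pt, abs_of_pos (by linarith)]
      exact hx'
    simp only [h5]
    simp
  rw [h2, h3, h4, add_zero]
  have hfc := Cf.continuous_fd hc'
  have h5 : ∫ x in r..r', (c.ext τ κ).fd x ≤ π * M * r' * (r' - r) := by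
    have h6 : ∫ x in r..r', (c.ext τ κ).fd x ≤ ∫ x in r..r', π * M * r' := by
      apply intervalIntegral.integral_mono_on (by linarith)
      · exact hfc.intervalIntegrable _ _
      · exact intervalIntegrable_const
      · intro x hx
        have hx0 : 0 < x := lt_of_lt_of_le hr0 hx.1
        have h7 : ∀ χ, (c.ext τ κ).dens (pt x χ) ≤ M := by
          intro χ
          refine (ext_dens_mid hn2 hc hRad D hh hx.1 hx.2 χ).trans (hM _ ?_)
          rw [norm_pt, abs_of_pos (D.kle hx0).1]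
          linarith [(D.k2 x hx.1).2]
        have h8 := e4_mid hc' hx0.le h7
        have h9 : π * M * x ≤ π * M * r' := mul_le_mul_of_nonneg_left hx.2 (by positivity)
        linarith
    rw [intervalIntegral.integral_const, smul_eq_mul] at h6
    linarith
  have hdτ : Continuous (deriv τ) := D.st.continuous_deriv (by simp)
  have hinv : IntervalIntegrable (fun x : ℝ => x⁻¹) volume r' L := by
    apply intervalIntegral.intervalIntegrable_inv
    · intro x hx
      rw [uIcc_of_le hrL.le] at hx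
      exact (lt_of_lt_of_le hr' hx.1).ne'
    · exact continuousOn_id
  have h6 : ∫ x in r'..L, (c.ext τ κ).fd x ≤ ∫ x in r'..L,
      (20 / 19 * (x * deriv τ x ^ 2 * c.Pc s + 1 / 2 * c.Xo s * x⁻¹) + 1 / 2 * x * c.Uc s) := by
    apply intervalIntegral.integral_mono_on hrL.le
    · exact hfc.intervalIntegrable _ _
    · refine IntervalIntegrable.add (IntervalIntegrable.const_mul
        (IntervalIntegrable.add ?_ (hinv.const_mul _)) _) ?_
      · apply Continuous.intervalIntegrable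
        fun_prop
      · apply Continuous.intervalIntegrable
        fun_prop
    · intro x hx
      exact e4_far hc hc' (lt_of_lt_of_le hr' hx.1)
        fun χ => ext_dens_far hn2 hc hRad D hh hx.1 χ
  have h7 : ∫ x in r'..L,
      (20 / 19 * (x * deriv τ x ^ 2 * c.Pc s + 1 / 2 * c.Xo s * x⁻¹) + 1 / 2 * x * c.Uc s) =
      20 / 19 * (c.Pc s * (∫ ρ in r'..L, ρ * deriv τ ρ ^ 2) +
      1 / 2 * c.Xo s * Real.log (L / r')) + 1 / 4 * c.Uc s * (L ^ 2 - r' ^ 2) := by
    rw [intervalIntegral.integral_add, intervalIntegral.integral_const_mul,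
      intervalIntegral.integral_add, intervalIntegral.integral_mul_const,
      intervalIntegral.integral_const_mul, intervalIntegral.integral_mul_const,
      intervalIntegral.integral_const_mul, integral_inv_of_pos hr' (by linarith), integral_id]
    · ring
    · apply Continuous.intervalIntegrable
      fun_prop
    · exact hinv.const_mul _
    · refine IntervalIntegrable.const_mul
        (IntervalIntegrable.add ?_ (hinv.const_mul _)) _
      apply Continuous.intervalIntegrable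
      fun_prop
    · apply Continuous.intervalIntegrable
      fun_prop
  rw [h7] at h6
  linarith

end D

end GO3
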