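import Pool.Agent.GO3.D.Hopf

/-! Green's formula for the Berry connection on a rectangle (part D5). -/

open MeasureTheory Filter Topology Set
open scoped ContDiff ComplexConjugate Interval

noncomputable section

namespace GO3.D

/-- directional derivative of a function on the `(r, χ)` plane -/
def pd (S : ℝ × ℝ → ℂ) (v : ℝ × ℝ) (p : ℝ × ℝ) : ℂ := fderiv ℝ S p v

/-- `Im (conj S ∂_v S)` -/
def bc (S : ℝ × ℝ → ℂ) (v : ℝ × ℝ) (p : ℝ × ℝ) : ℝ := (conj (S p) * pd S v p).im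

theorem pd_contDiffOn {O : Set (ℝ × ℝ)} (hO : IsOpen O) {S : ℝ × ℝ → ℂ}
    (hS : ContDiffOn ℝ ∞ S O) (v : ℝ × ℝ) : ContDiffOn ℝ ∞ (pd S v) O :=
  (hS.fderiv_of_isOpen hO (m := ∞) (by simp)).clm_apply contDiffOn_const

theorem bc_contDiffOn {O : Set (ℝ × ℝ)} (hO : IsOpen O) {S : ℝ × ℝ → ℂ}
    (hS : ContDiffOn ℝ ∞ S O) (v : ℝ × ℝ) : ContDiffOn ℝ ∞ (bc S v) O := by
  have h1 : ContDiffOn ℝ ∞ (fun p => conj (S p) * pd S v p) O :=
    (Complex.conjCLE.contDiff.comp_contDiffOn hS).mul (pd_contDiffOn hO hS v)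
  exact Complex.imCLM.contDiff.comp_contDiffOn h1

theorem bc_fderiv {O : Set (ℝ × ℝ)} (hO : IsOpen O) {S : ℝ × ℝ → ℂ}
    (hS : ContDiffOn ℝ ∞ S O) {p : ℝ × ℝ} (hp : p ∈ O) (v u : ℝ × ℝ) :
    fderiv ℝ (bc S v) p u =
      (conj (pd S u p) * pd S v p + conj (S p) * (fderiv ℝ (fderiv ℝ S) p u v)).im := by
  have hn := hO.mem_nhds hp
  have hSd : HasFDerivAt S (fderiv ℝ S p) p :=
    ((hS.contDiffAt hn).differentiableAt (by simp)).hasFDerivAt
  have h2 : DifferentiableAt ℝ (fderiv ℝ S) p :=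
    ((hS.fderiv_of_isOpen hO (m := ∞) (by simp)).contDiffAt hn).differentiableAt (by simp)
  have hPd : HasFDerivAt (pd S v) ((ContinuousLinearMap.apply ℝ ℂ v).comp
      (fderiv ℝ (fderiv ℝ S) p)) p :=
    (ContinuousLinearMap.apply ℝ ℂ v).hasFDerivAt.comp p h2.hasFDerivAt
  have hconj : HasFDerivAt (fun q => conj (S q)) ((Complex.conjCLE : ℂ →L[ℝ] ℂ).comp
      (fderiv ℝ S p)) p :=
    (Complex.conjCLE : ℂ →L[ℝ] ℂ).hasFDerivAt.comp p hSd
  have hm := hconj.mul hPd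
  have hi : HasFDerivAt (bc S v) (Complex.imCLM.comp (conj (S p) •
      ((ContinuousLinearMap.apply ℝ ℂ v).comp (fderiv ℝ (fderiv ℝ S) p)) +
      (pd S v p) • ((Complex.conjCLE : ℂ →L[ℝ] ℂ).comp (fderiv ℝ S p)))) p := by
    have := Complex.imCLM.hasFDerivAt.comp p hm
    exact this
  rw [hi.fderiv]
  simp [pd, Complex.add_im, Complex.mul_im]
  ring

/-- Green's formula for one component. -/
theorem green1 {O : Set (ℝ × ℝ)} (hO : IsOpen O) {S : ℝ × ℝ → ℂ} (hS : ContDiffOn ℝ ∞ S O)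
    {a₁ a₂ b₁ b₂ : ℝ} (hR : [[a₁, b₁]] ×ˢ [[a₂, b₂]] ⊆ O) :
    (∫ x in a₁..b₁, ∫ y in a₂..b₂, 2 * (conj (pd S (1, 0) (x, y)) * pd S (0, 1) (x, y)).im) =
      (∫ y in a₂..b₂, bc S (0, 1) (b₁, y)) - (∫ y in a₂..b₂, bc S (0, 1) (a₁, y)) -
      (∫ x in a₁..b₁, bc S (1, 0) (x, b₂)) + ∫ x in a₁..b₁, bc S (1, 0) (x, a₂) := by
  have hsub : Ioo (min a₁ b₁) (max a₁ b₁) ×ˢ Ioo (min a₂ b₂) (max a₂ b₂) ⊆ O :=
    (Set.prod_mono Ioo_subset_Icc_self Ioo_subset_Icc_self).trans hR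
  have hf := bc_contDiffOn hO hS (0, 1)
  have hg := (bc_contDiffOn hO hS (1, 0)).neg
  have hdiv : ∀ p ∈ O, fderiv ℝ (bc S (0, 1)) p (1, 0) +
      (-fderiv ℝ (bc S (1, 0)) p) (0, 1) =
      2 * (conj (pd S (1, 0) p) * pd S (0, 1) p).im := by
    intro p hp
    have hsym : fderiv ℝ (fderiv ℝ S) p (1, 0) (0, 1) = fderiv ℝ (fderiv ℝ S) p (0, 1) (1, 0) := by
      have := (hS.contDiffAt (hO.mem_nhds hp)).isSymmSndFDerivAt
        (by simp; exact WithTop.coe_le_coe.mpr le_top)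
      exact this (1, 0) (0, 1)
    rw [_root_.neg_apply, bc_fderiv hO hS hp, bc_fderiv hO hS hp, hsym]
    simp only [Complex.add_im, Complex.mul_im, Complex.conj_re, Complex.conj_im]
    ring
  have key := integral2_divergence_prod_of_hasFDerivAt (bc S (0, 1)) (fun p => -bc S (1, 0) p)
    (fun p => fderiv ℝ (bc S (0, 1)) p) (fun p => -fderiv ℝ (bc S (1, 0)) p) a₁ a₂ b₁ b₂
    (hf.continuousOn.mono hR) (hg.continuousOn.mono hR)
    (fun p hp => ((hf.contDiffAt (hO.mem_nhds (hsub hp))).differentiableAt (by simp)).hasFDerivAt)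
    (fun p hp => (((bc_contDiffOn hO hS (1, 0)).contDiffAt
      (hO.mem_nhds (hsub hp))).differentiableAt (by simp)).hasFDerivAt.neg)
    (by
      have hc : ContinuousOn (fun p => 2 * (conj (pd S (1, 0) p) * pd S (0, 1) p).im) O := by
        have h1 := (pd_contDiffOn hO hS (1, 0)).continuousOn
        have h2 := (pd_contDiffOn hO hS (0, 1)).continuousOn
        have h3 : ContinuousOn (fun p => (conj (pd S (1, 0) p) * pd S (0, 1) p).im) O :=
          Complex.continuous_im.comp_continuousOn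
            ((Complex.continuous_conj.comp_continuousOn h1).mul h2)
        exact continuousOn_const.mul h3
      have hc' : ContinuousOn (fun p => fderiv ℝ (bc S (0, 1)) p (1, 0) +
          (-fderiv ℝ (bc S (1, 0)) p) (0, 1)) O := hc.congr hdiv
      exact (hc'.mono hR).integrableOn_compact (isCompact_uIcc.prod isCompact_uIcc))
  have e1 : (∫ x in a₁..b₁, ∫ y in a₂..b₂, 2 * (conj (pd S (1, 0) (x, y)) *
      pd S (0, 1) (x, y)).im) = ∫ x in a₁..b₁, ∫ y in a₂..b₂,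
      (fderiv ℝ (bc S (0, 1)) (x, y) (1, 0) + (-fderiv ℝ (bc S (1, 0)) (x, y)) (0, 1)) := by
    refine intervalIntegral.integral_congr fun x hx => ?_
    refine intervalIntegral.integral_congr fun y hy => ?_
    exact (hdiv (x, y) (hR ⟨hx, hy⟩)).symm
  rw [e1, key]
  simp only [intervalIntegral.integral_neg]
  ring

end GO3.D
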