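import Pool.Agent.GO3.Pol

/-! GO3 / D / Hav: circle averages and the value at the centre (part D, helper85).

`Φ s = ∫_0^{2π} h (q + pt s χ) dχ` has the continuous derivative `∫_0^{2π} fderiv h (q + pt s χ) (er χ) dχ`
(differentiation under the integral sign, `hasDerivAt_pt_r`), `Φ 0 = 2 π h q`.
`ball_avg`: `∫_{ball q r} (h z - h q) dz = ∫_0^r s (Φ s - 2 π h q) ds` (`polar_ball`), so its absolute value is at most
`(r² / 2) ∫_0^r ∮ |fderiv h (er)|`. -/

open MeasureTheory Filter Topology Set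
open scoped ContDiff Real

noncomputable section

namespace GO3

namespace D

/-- `∮ |∂_r h|` on the circle of radius `s` around `q` -/
def gr (h : ℂ → ℝ) (q : ℂ) (s : ℝ) : ℝ :=
  ∫ χ in (0 : ℝ)..2 * π, |fderiv ℝ h (q + pt s χ) (er χ)|

private theorem hav_cont {h : ℂ → ℝ} (hh : ContDiff ℝ ∞ h) (q : ℂ) :
    Continuous fun p : ℝ × ℝ => fderiv ℝ h (q + pt p.1 p.2) (er p.2) := by
  have h1 : Continuous (fderiv ℝ h) := hh.continuous_fderiv (by simp)
  have h2 : Continuous fun p : ℝ × ℝ => er p.2 := by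
    unfold er
    fun_prop
  exact (h1.comp (continuous_const.add continuous_pt)).clm_apply h2

theorem continuous_gr {h : ℂ → ℝ} (hh : ContDiff ℝ ∞ h) (q : ℂ) : Continuous (gr h q) := by
  unfold gr
  exact intervalIntegral.continuous_parametric_intervalIntegral_of_continuous'
    (f := fun s χ => |fderiv ℝ h (q + pt s χ) (er χ)|) (hav_cont hh q).abs 0 (2 * π)

theorem gr_nonneg (h : ℂ → ℝ) (q : ℂ) (s : ℝ) : 0 ≤ gr h q s :=
  intervalIntegral.integral_nonneg (by positivity) fun _ _ => abs_nonneg _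

theorem circle_avg {h : ℂ → ℝ} (hh : ContDiff ℝ ∞ h) (q : ℂ) {s : ℝ} (hs : 0 ≤ s) :
    |(∫ χ in (0 : ℝ)..2 * π, h (q + pt s χ)) - 2 * π * h q| ≤ ∫ ρ in (0 : ℝ)..s, gr h q ρ := by
  have hc := hav_cont hh q
  have hπ : (0 : ℝ) ≤ 2 * π := by positivity
  have h1 : ∀ χ : ℝ, ∫ ρ in (0 : ℝ)..s, fderiv ℝ h (q + pt ρ χ) (er χ) = h (q + pt s χ) - h q := by
    intro χ
    have hd : ∀ ρ ∈ uIcc 0 s, HasDerivAt (fun ρ => h (q + pt ρ χ))
        (fderiv ℝ h (q + pt ρ χ) (er χ)) ρ := by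
      intro ρ _
      have d1 : HasFDerivAt h (fderiv ℝ h (q + pt ρ χ)) (q + pt ρ χ) :=
        (hh.differentiable (by simp) _).hasFDerivAt
      exact d1.comp_hasDerivAt ρ ((hasDerivAt_pt_r ρ χ).const_add q)
    rw [intervalIntegral.integral_eq_sub_of_hasDerivAt hd
      ((hc.comp (Continuous.prodMk_left χ)).intervalIntegrable 0 s)]
    have h0 : pt 0 χ = 0 := by
      unfold pt
      simp
    rw [h0, add_zero]
  have hcr : Continuous fun χ : ℝ => h (q + pt s χ) :=
    hh.continuous.comp (continuous_const.add (continuous_pt.comp (Continuous.prodMk_right s)))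
  have h2 : (∫ χ in (0 : ℝ)..2 * π, h (q + pt s χ)) - 2 * π * h q =
      ∫ χ in (0 : ℝ)..2 * π, ∫ ρ in (0 : ℝ)..s, fderiv ℝ h (q + pt ρ χ) (er χ) := by
    rw [intervalIntegral.integral_congr fun χ _ => h1 χ,
      intervalIntegral.integral_sub (hcr.intervalIntegrable _ _)
        (continuous_const.intervalIntegrable _ _), intervalIntegral.integral_const]
    simp
  have h3 : (∫ χ in (0 : ℝ)..2 * π, ∫ ρ in (0 : ℝ)..s, fderiv ℝ h (q + pt ρ χ) (er χ)) =
      ∫ ρ in (0 : ℝ)..s, ∫ χ in (0 : ℝ)..2 * π, fderiv ℝ h (q + pt ρ χ) (er χ) := by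
    refine intervalIntegral_intervalIntegral_swap
      (F := fun χ ρ => fderiv ℝ h (q + pt ρ χ) (er χ)) ?_
    have hc2 : Continuous (Function.uncurry fun χ ρ : ℝ => fderiv ℝ h (q + pt ρ χ) (er χ)) :=
      hc.comp continuous_swap
    refine (hc2.continuousOn.integrableOn_compact
      (K := uIcc 0 (2 * π) ×ˢ uIcc 0 s) (isCompact_uIcc.prod isCompact_uIcc)).mono_set ?_
    exact Set.prod_mono uIoc_subset_uIcc uIoc_subset_uIcc
  rw [h2, h3]
  refine (intervalIntegral.abs_integral_le_integral_abs hs).trans ?_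
  have hc3 : Continuous fun ρ : ℝ => ∫ χ in (0 : ℝ)..2 * π, fderiv ℝ h (q + pt ρ χ) (er χ) :=
    intervalIntegral.continuous_parametric_intervalIntegral_of_continuous'
      (f := fun s χ => fderiv ℝ h (q + pt s χ) (er χ)) hc 0 (2 * π)
  refine intervalIntegral.integral_mono_on hs (hc3.abs.intervalIntegrable _ _)
    ((continuous_gr hh q).intervalIntegrable _ _) fun ρ _ => ?_
  exact intervalIntegral.abs_integral_le_integral_abs hπ

theorem ball_avg {h : ℂ → ℝ} (hh : ContDiff ℝ ∞ h) (q : ℂ) {r : ℝ} (hr : 0 ≤ r) :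
    |(∫ z in Metric.ball q r, h z) - π * r ^ 2 * h q| ≤
      r ^ 2 / 2 * ∫ ρ in (0 : ℝ)..r, gr h q ρ := by
  have hc := continuous_circle h hh.continuous q 0 (2 * π)
  have hg := continuous_gr hh q
  have h1 : (∫ z in Metric.ball q r, h z) - π * r ^ 2 * h q =
      ∫ s in (0 : ℝ)..r, s * ((∫ χ in (0 : ℝ)..2 * π, h (q + pt s χ)) - 2 * π * h q) := by
    have e1 : ∀ s : ℝ, s * ((∫ χ in (0 : ℝ)..2 * π, h (q + pt s χ)) - 2 * π * h q) =
        s * (∫ χ in (0 : ℝ)..2 * π, h (q + pt s χ)) - 2 * π * h q * s := by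
      intro s
      ring
    have e2 : Continuous fun s : ℝ => s * ∫ χ in (0 : ℝ)..2 * π, h (q + pt s χ) :=
      continuous_id.mul hc
    have e3 : Continuous fun s : ℝ => 2 * π * h q * s := continuous_const.mul continuous_id
    rw [polar_ball h hh.continuous q hr, intervalIntegral.integral_congr fun s _ => e1 s,
      intervalIntegral.integral_sub (e2.intervalIntegrable _ _) (e3.intervalIntegrable _ _),
      intervalIntegral.integral_const_mul, integral_id]
    ring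
  rw [h1]
  refine (intervalIntegral.abs_integral_le_integral_abs hr).trans ?_
  have h2 : ∀ s ∈ Icc (0 : ℝ) r,
      |s * ((∫ χ in (0 : ℝ)..2 * π, h (q + pt s χ)) - 2 * π * h q)| ≤
        s * ∫ ρ in (0 : ℝ)..r, gr h q ρ := by
    intro s hs
    rw [abs_mul, abs_of_nonneg hs.1]
    refine mul_le_mul_of_nonneg_left ((circle_avg hh q hs.1).trans ?_) hs.1
    have e2 := intervalIntegral.integral_add_adjacent_intervals (hg.intervalIntegrable 0 s)
      (hg.intervalIntegrable s r) (μ := volume)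
    have e3 : 0 ≤ ∫ ρ in s..r, gr h q ρ :=
      intervalIntegral.integral_nonneg hs.2 fun ρ _ => gr_nonneg h q ρ
    linarith
  refine (intervalIntegral.integral_mono_on hr ?_ ?_ h2).trans ?_
  · exact ((continuous_id.mul (hc.sub continuous_const)).abs).intervalIntegrable _ _
  · exact (continuous_id.mul continuous_const).intervalIntegrable _ _
  · rw [intervalIntegral.integral_mul_const, integral_id]
    refine le_of_eq ?_
    ring

private theorem hav_cs {g : ℝ → ℝ} (hg : Continuous g) :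
    (∫ χ in (0 : ℝ)..2 * π, |g χ|) ^ 2 ≤ 2 * π * ∫ χ in (0 : ℝ)..2 * π, g χ ^ 2 := by
  obtain ⟨I, hI⟩ : ∃ I : ℝ, I = ∫ χ in (0 : ℝ)..2 * π, |g χ| := ⟨_, rfl⟩
  have hπ : (0 : ℝ) < 2 * π := by positivity
  have h1 : 0 ≤ ∫ χ in (0 : ℝ)..2 * π, (2 * π * |g χ| - I) ^ 2 :=
    intervalIntegral.integral_nonneg hπ.le fun _ _ => sq_nonneg _
  have e1 : ∀ χ : ℝ, (2 * π * |g χ| - I) ^ 2 =
      (2 * π) ^ 2 * g χ ^ 2 - 2 * (2 * π) * I * |g χ| + I ^ 2 := by
    intro χ
    rw [← sq_abs (g χ)]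
    ring
  have e2 : Continuous fun χ => (2 * π) ^ 2 * g χ ^ 2 := continuous_const.mul (hg.pow 2)
  have e3 : Continuous fun χ => 2 * (2 * π) * I * |g χ| := continuous_const.mul hg.abs
  have e4 : Continuous fun χ => (2 * π) ^ 2 * g χ ^ 2 - 2 * (2 * π) * I * |g χ| := e2.sub e3
  rw [intervalIntegral.integral_congr fun χ _ => e1 χ, intervalIntegral.integral_add
      (e4.intervalIntegrable _ _) (continuous_const.intervalIntegrable _ _),
    intervalIntegral.integral_sub (e2.intervalIntegrable _ _) (e3.intervalIntegrable _ _),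
    intervalIntegral.integral_const_mul, intervalIntegral.integral_const_mul, ← hI,
    intervalIntegral.integral_const] at h1
  rw [← hI]
  have h2 : 0 ≤ 2 * π * (2 * π * (∫ χ in (0 : ℝ)..2 * π, g χ ^ 2) - I ^ 2) := by
    simp only [sub_zero, smul_eq_mul] at h1
    linarith
  have h3 := nonneg_of_mul_nonneg_right h2 hπ
  linarith

/-- Cauchy-Schwarz on the circle and polar coordinates: `ρ gr² ≤ 2 π ρ ∮ |fderiv h (er)|²` -/
theorem gr_sq_int {h : ℂ → ℝ} (hh : ContDiff ℝ ∞ h) (q : ℂ) {s : ℝ} (hs : 0 ≤ s) :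
    ∫ ρ in (0 : ℝ)..s, ρ * gr h q ρ ^ 2 ≤
      2 * π * ∫ z in Metric.ball q s, (fderiv ℝ h z 1 ^ 2 + fderiv ℝ h z Complex.I ^ 2) := by
  have h1 : Continuous (fderiv ℝ h) := hh.continuous_fderiv (by simp)
  have hf : Continuous fun z => fderiv ℝ h z 1 ^ 2 + fderiv ℝ h z Complex.I ^ 2 :=
    ((h1.clm_apply continuous_const).pow 2).add ((h1.clm_apply continuous_const).pow 2)
  have hc := continuous_circle _ hf q 0 (2 * π)
  rw [polar_ball _ hf q hs, ← intervalIntegral.integral_const_mul]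
  refine intervalIntegral.integral_mono_on hs
    ((continuous_id.mul ((continuous_gr hh q).pow 2)).intervalIntegrable _ _)
    (((continuous_id.mul hc).const_mul _).intervalIntegrable _ _) fun ρ hρ => ?_
  have hcr : Continuous fun χ : ℝ => fderiv ℝ h (q + pt ρ χ) (er χ) :=
    (hav_cont hh q).comp (Continuous.prodMk_right ρ)
  have h2 := hav_cs hcr
  have h3 : (∫ χ in (0 : ℝ)..2 * π, fderiv ℝ h (q + pt ρ χ) (er χ) ^ 2) ≤
      ∫ χ in (0 : ℝ)..2 * π, (fderiv ℝ h (q + pt ρ χ) 1 ^ 2 +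
        fderiv ℝ h (q + pt ρ χ) Complex.I ^ 2) := by
    refine intervalIntegral.integral_mono_on (by positivity) ((hcr.pow 2).intervalIntegrable _ _)
      ((hf.comp (continuous_const.add
        (continuous_pt.comp (Continuous.prodMk_right ρ)))).intervalIntegrable _ _) fun χ _ => ?_
    have e1 : er χ = (Real.cos χ) • (1 : ℂ) + (Real.sin χ) • Complex.I := by
      unfold er
      rw [Complex.exp_mul_I, Complex.real_smul, Complex.real_smul, Complex.ofReal_cos,
        Complex.ofReal_sin, mul_one]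
    rw [e1, map_add, map_smul, map_smul, smul_eq_mul, smul_eq_mul]
    have e2 := Real.sin_sq_add_cos_sq χ
    obtain ⟨x, hx⟩ : ∃ x : ℝ, x = fderiv ℝ h (q + pt ρ χ) 1 := ⟨_, rfl⟩
    obtain ⟨y, hy⟩ : ∃ y : ℝ, y = fderiv ℝ h (q + pt ρ χ) Complex.I := ⟨_, rfl⟩
    rw [← hx, ← hy]
    have e3 : x ^ 2 + y ^ 2 - (Real.cos χ * x + Real.sin χ * y) ^ 2 =
        (Real.sin χ * x - Real.cos χ * y) ^ 2 := by
      linear_combination (-(x ^ 2 + y ^ 2)) * e2
    have e4 := sq_nonneg (Real.sin χ * x - Real.cos χ * y)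
    linarith
  have h4 : gr h q ρ ^ 2 ≤ 2 * π * ∫ χ in (0 : ℝ)..2 * π, (fderiv ℝ h (q + pt ρ χ) 1 ^ 2 +
      fderiv ℝ h (q + pt ρ χ) Complex.I ^ 2) :=
    h2.trans (mul_le_mul_of_nonneg_left h3 (by positivity))
  calc ρ * gr h q ρ ^ 2 ≤ ρ * (2 * π * ∫ χ in (0 : ℝ)..2 * π,
        (fderiv ℝ h (q + pt ρ χ) 1 ^ 2 + fderiv ℝ h (q + pt ρ χ) Complex.I ^ 2)) :=
        mul_le_mul_of_nonneg_left h4 hρ.1
    _ = _ := by ring

end D

end GO3
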