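import Mathlib

/-! The Hopf map and the Berry connection: pointwise identities (part D5). -/

open MeasureTheory Filter Topology Set
open scoped ContDiff ComplexConjugate

noncomputable section

namespace GO3.D

/-- the Jacobian `φ · (φ_r × φ_x)` for `φ = (w, h)` -/
def jac (w wr wx : ℂ) (h hr hx : ℝ) : ℝ :=
  hx * (conj w * wr).im - hr * (conj w * wx).im + h * (conj wr * wx).im

/-- `s = (s₁, s₂)` is a unit spinor over the point `(w, h)` of the sphere. -/
structure Spin (s1 s2 w : ℂ) (h : ℝ) : Prop where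
  unit : s1 * conj s1 + s2 * conj s2 = 1
  hw : w = 2 * (conj s1 * s2)
  hh : (h : ℂ) = s1 * conj s1 - s2 * conj s2

theorem Spin.sq_left {s1 s2 w : ℂ} {h : ℝ} (H : Spin s1 s2 w h) :
    ((Complex.normSq s1 : ℝ) : ℂ) = (1 + h) / 2 := by
  have h1 := H.unit
  have h2 := H.hh
  rw [Complex.normSq_eq_conj_mul_self]
  linear_combination (1 / 2 : ℂ) * h1 - (1 / 2 : ℂ) * h2

theorem Spin.normSq_left {s1 s2 w : ℂ} {h : ℝ} (H : Spin s1 s2 w h) :
    Complex.normSq s1 = (1 + h) / 2 := by
  have := H.sq_left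
  exact_mod_cast this

/-- derivative of the Hopf map along a curve -/
theorem hopf_w {s1 s2 a b wd : ℂ} (hu : s1 * conj s1 + s2 * conj s2 = 1)
    (hd : a * conj s1 + s1 * conj a + b * conj s2 + s2 * conj b = 0)
    (hw : wd = 2 * (conj a * s2 + conj s1 * b)) :
    wd = 2 * ((s1 * b - s2 * a) * conj s1 ^ 2 - conj (s1 * b - s2 * a) * s2 ^ 2) := by
  rw [hw]
  simp only [map_sub, map_mul]
  linear_combination (-2 * (conj a * s2 + conj s1 * b)) * hu + 2 * (s2 * conj s1) * hd

theorem hopf_h {s1 s2 a b : ℂ} {hd' : ℝ} (hu : s1 * conj s1 + s2 * conj s2 = 1)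
    (hd : a * conj s1 + s1 * conj a + b * conj s2 + s2 * conj b = 0)
    (hh : (hd' : ℂ) = a * conj s1 + s1 * conj a - b * conj s2 - s2 * conj b) :
    (hd' : ℂ) = -2 * ((s1 * b - s2 * a) * (conj s1 * conj s2) +
      conj (s1 * b - s2 * a) * (s1 * s2)) := by
  rw [hh]
  simp only [map_sub, map_mul]
  linear_combination (-(a * conj s1 + s1 * conj a - b * conj s2 - s2 * conj b)) * hu +
    (s1 * conj s1 - s2 * conj s2) * hd

/-- the area form is four times the curvature expression of the spinor -/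
theorem jac_eq {s1 s2 u v : ℂ} {w wr wx : ℂ} {h hr hx : ℝ} (H : Spin s1 s2 w h)
    (h1 : wr = 2 * (u * conj s1 ^ 2 - conj u * s2 ^ 2))
    (h2 : wx = 2 * (v * conj s1 ^ 2 - conj v * s2 ^ 2))
    (h3 : (hr : ℂ) = -2 * (u * (conj s1 * conj s2) + conj u * (s1 * s2)))
    (h4 : (hx : ℂ) = -2 * (v * (conj s1 * conj s2) + conj v * (s1 * s2))) :
    jac w wr wx h hr hx = 4 * (conj u * v).im := by
  have im_eq : ∀ z : ℂ, (z.im : ℂ) = (z - conj z) / (2 * Complex.I) := by
    intro z
    rw [Complex.sub_conj]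
    field_simp
    push_cast
    ring
  have key : ((jac w wr wx h hr hx : ℝ) : ℂ) = ((4 * (conj u * v).im : ℝ) : ℂ) := by
    unfold jac
    push_cast
    rw [im_eq, im_eq, im_eq, im_eq, h3, h4, H.hh, h1, h2, H.hw]
    simp only [map_mul, map_sub, map_pow, Complex.conj_conj, map_ofNat]
    have hu := H.unit
    field_simp
    linear_combination (4 * (conj u * v - u * conj v) *
      ((s1 * conj s1 + s2 * conj s2) ^ 2 + (s1 * conj s1 + s2 * conj s2) + 1)) * hu
  exact_mod_cast key

end GO3.D
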