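import Pool.Agent.GO3.D.Mor
import Pool.Agent.GO3.D.Hav
import Pool.Agent.GO3.Sym

/-! GO3 / D / Htd: `h → 1` at infinity (D1 of the proof text, part D, helper85).

`|∇h|² ≤ grad` pointwise, so by `gr_sq_int` and the growth hypothesis
`∫_0^s ρ gr² ≤ 2 π · 2 c.ee q s ≤ 4 π C s^kap`; `int_of_growth`: `∫_0^r gr ≤ B r^(kap/2)`, `B` independent of `q`.
`ball_avg`: `|h q - avg_{ball q r} h| ≤ (B / 2π) r^(kap/2)`; choose `r ≤ 1` with this `≤ ε/2`. Then
`(avg_{ball q r} (1 - h))² ≤ (1/(π r²)) ∫_{ball q r} (1 - h)²`, which tends to `0` as `|q| → ∞` with `r` fixed, because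
`(1 - h)²` is integrable on the plane (`int_pot`): `∫_{ball q r} ≤ ∫_{|z| ≥ |q| - r}`, tails of an integrable function
(e.g. `polar_compl_ball`, or `tendsto_setIntegral_of_antitone`).
`exists_small`: `c.ee 0 r ≤ (1/2) M π r²` with `M` a bound of the continuous function `grad` on the unit ball. -/

open MeasureTheory Filter Topology Set
open scoped ContDiff Real

noncomputable section

namespace GO3

namespace D

variable {c : Cf} {n : ℕ}

private theorem vol_real (q : ℂ) {r : ℝ} (hr : 0 ≤ r) :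
    volume.real (Metric.ball q r) = π * r ^ 2 := by
  rw [measureReal_def, Complex.volume_ball, ENNReal.toReal_mul, ENNReal.toReal_pow,
    ENNReal.toReal_ofReal hr, mul_comm]
  rfl

theorem exists_small (hc : c.Adm n) : ∃ r₀ : ℝ, 0 < r₀ ∧ c.ee 0 r₀ ≤ 1 / 100000 := by
  obtain ⟨M, hM⟩ := (isCompact_closedBall (0 : ℂ) 1).exists_bound_of_continuousOn
    (f := c.grad) hc.contDiff_grad.continuous.continuousOn
  have hM0 : 0 ≤ M := (norm_nonneg _).trans (hM 0 (by simp))
  have hM1 : 0 < M + 1 := by linarith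
  refine ⟨1 / (1000 * (M + 1)), by positivity, ?_⟩
  set r : ℝ := 1 / (1000 * (M + 1)) with hr
  have hr0 : 0 < r := by positivity
  have hr1 : r ≤ 1 := by
    rw [hr, div_le_one (by positivity)]
    linarith
  have h1 : ‖∫ z in Metric.ball (0 : ℂ) r, c.grad z‖ ≤ M * volume.real (Metric.ball (0 : ℂ) r) :=
    norm_setIntegral_le_of_norm_le_const (by
      rw [Complex.volume_ball]
      exact ENNReal.mul_lt_top (ENNReal.pow_lt_top ENNReal.ofReal_lt_top) ENNReal.coe_lt_top)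
      (fun z hz => hM z (Metric.closedBall_subset_closedBall hr1
        (Metric.ball_subset_closedBall hz)))
  rw [vol_real 0 hr0.le] at h1
  have h2 := (le_abs_self _).trans h1
  have h3 : M * (π * r ^ 2) ≤ 2 / 100000 := by
    have h4 : (M + 1) * r = 1 / 1000 := by
      rw [hr]
      field_simp
    have h5 : M * r ≤ 1 / 1000 := by nlinarith
    have h6 : r ≤ 1 / 1000 := by nlinarith
    have h7 : M * r * r ≤ 1 / 1000 * (1 / 1000) :=
      mul_le_mul h5 h6 hr0.le (by norm_num)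
    have hpi : π ≤ 4 := Real.pi_le_four
    have hpi0 := Real.pi_pos
    calc M * (π * r ^ 2) = π * (M * r * r) := by ring
      _ ≤ 4 * (1 / 1000 * (1 / 1000)) :=
        mul_le_mul hpi h7 (by positivity) (by norm_num)
      _ ≤ 2 / 100000 := by norm_num
  unfold Cf.ee
  linarith

private theorem tail_small {f : ℂ → ℝ} (hf : Integrable f) {η : ℝ} (hη : 0 < η) :
    ∃ R : ℝ, ∫ z in (Metric.ball (0 : ℂ) R)ᶜ, f z < η := by
  have h1 : Tendsto (fun m : ℕ => ∫ z in (Metric.ball (0 : ℂ) (m : ℝ))ᶜ, f z) atTop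
      (𝓝 (∫ z in ⋂ m : ℕ, (Metric.ball (0 : ℂ) (m : ℝ))ᶜ, f z)) := by
    refine tendsto_setIntegral_of_antitone (fun m => Metric.isOpen_ball.measurableSet.compl) ?_
      ⟨0, hf.integrableOn⟩
    intro a b hab
    exact compl_subset_compl.2 (Metric.ball_subset_ball (by exact_mod_cast hab))
  have h2 : (⋂ m : ℕ, (Metric.ball (0 : ℂ) (m : ℝ))ᶜ) = ∅ := by
    rw [← compl_iUnion, compl_empty_iff, Metric.iUnion_ball_nat]
  rw [h2, setIntegral_empty] at h1
  obtain ⟨m, hm⟩ := (h1.eventually (gt_mem_nhds hη)).exists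
  exact ⟨m, hm⟩

theorem h_tendsto (hc : c.Adm n) {C : ℝ} (hC : 0 < C)
    (hg : ∀ (q : ℂ) (r : ℝ), 0 < r → r ≤ 1 → c.ee q r ≤ C * r ^ kap) :
    Tendsto c.h (cocompact ℂ) (𝓝 1) := by
  have hkap : 0 < kap := by unfold kap; norm_num
  have hpi := Real.pi_pos
  have hstep : ∀ q : ℂ, ∀ s : ℝ, 0 < s → s ≤ 1 →
      ∫ ρ in (0 : ℝ)..s, ρ * gr c.h q ρ ^ 2 ≤ (4 * π * C) * s ^ kap := by
    intro q s hs hs1
    have h1 := gr_sq_int hc.sh q hs.le
    have h2 : ∫ z in Metric.ball q s, (fderiv ℝ c.h z 1 ^ 2 + fderiv ℝ c.h z Complex.I ^ 2) ≤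
        ∫ z in Metric.ball q s, c.grad z := by
      refine setIntegral_mono ?_ hc.int_grad.integrableOn ?_
      · have h3 : ∀ v : ℂ, Continuous fun z : ℂ => fderiv ℝ c.h z v := fun v =>
          ((hc.sh.fderiv_right (m := ∞) (by simp)).clm_apply contDiff_const).continuous
        exact ((((h3 1).pow 2).add ((h3 Complex.I).pow 2)).continuousOn.integrableOn_compact
          (isCompact_closedBall q s)).mono_set Metric.ball_subset_closedBall
      · intro z
        have h3 := c.dh_le z 1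
        have h4 := c.dh_le z Complex.I
        unfold Cf.dh at h3 h4
        unfold Cf.grad
        exact add_le_add h3 h4
    have h3 := hg q s hs hs1
    unfold Cf.ee at h3
    have h4 : 2 * π * ∫ z in Metric.ball q s, (fderiv ℝ c.h z 1 ^ 2 +
        fderiv ℝ c.h z Complex.I ^ 2) ≤ 2 * π * ∫ z in Metric.ball q s, c.grad z :=
      mul_le_mul_of_nonneg_left h2 (by positivity)
    have h5 : 2 * π * ∫ z in Metric.ball q s, c.grad z ≤ (4 * π * C) * s ^ kap := by
      have h6 : ∫ z in Metric.ball q s, c.grad z ≤ 2 * (C * s ^ kap) := by linarith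
      calc 2 * π * ∫ z in Metric.ball q s, c.grad z ≤ 2 * π * (2 * (C * s ^ kap)) :=
            mul_le_mul_of_nonneg_left h6 (by positivity)
        _ = (4 * π * C) * s ^ kap := by ring
    linarith
  set B : ℝ := ((4 * π * C + 1) / 2) / (1 - 2 ^ (-(kap / 2))) with hBdef
  have hB0 : 0 ≤ B ∧ ∀ q : ℂ, ∀ r : ℝ, 0 < r → r ≤ 1 →
      ∫ ρ in (0 : ℝ)..r, gr c.h q ρ ≤ B * r ^ (kap / 2) := by
    refine ⟨?_, ?_⟩
    · obtain ⟨B', h0, h1, -⟩ := int_of_growth (continuous_gr hc.sh 0) (gr_nonneg c.h 0)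
        (C := 4 * π * C) (κ := kap) (by positivity) hkap (hstep 0)
      rw [hBdef, ← h1]
      exact h0
    · intro q
      obtain ⟨B', -, h1, h2⟩ := int_of_growth (continuous_gr hc.sh q) (gr_nonneg c.h q)
        (C := 4 * π * C) (κ := kap) (by positivity) hkap (hstep q)
      rw [hBdef, ← h1]
      exact h2
  obtain ⟨hB0, hB⟩ := hB0
  rw [Metric.tendsto_nhds]
  intro ε hε
  -- the radius
  have hcont : Tendsto (fun r : ℝ => B * r ^ (kap / 2)) (𝓝 0) (𝓝 0) := by
    have h1 : Continuous fun r : ℝ => B * r ^ (kap / 2) :=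
      continuous_const.mul (Real.continuous_rpow_const (by positivity))
    have h2 : B * (0 : ℝ) ^ (kap / 2) = 0 := by
      rw [Real.zero_rpow (by positivity), mul_zero]
    have h3 := h1.tendsto 0
    rwa [h2] at h3
  have hex : ∃ r : ℝ, (0 < r ∧ r ≤ 1) ∧ B * r ^ (kap / 2) < ε := by
    have h1 : ∀ᶠ r in 𝓝[>] (0 : ℝ), B * r ^ (kap / 2) < ε :=
      (hcont.mono_left nhdsWithin_le_nhds).eventually (gt_mem_nhds hε)
    have h2 : ∀ᶠ r in 𝓝[>] (0 : ℝ), r ∈ Ioc (0 : ℝ) 1 := Ioc_mem_nhdsGT one_pos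
    obtain ⟨r, h3, h4⟩ := (h2.and h1).exists
    exact ⟨r, h3, h4⟩
  obtain ⟨r, ⟨hr0, hr1⟩, hr⟩ := hex
  obtain ⟨R, hR⟩ := tail_small hc.int_pot (η := ε ^ 2 * π * r ^ 2 / 8) (by positivity)
  filter_upwards [(tendsto_norm_cocompact_atTop (E := ℂ)).eventually_ge_atTop (R + r)] with q hq
  rw [Real.dist_eq, abs_sub_comm]
  -- the average of `(1 - h)²`
  have hsub : Metric.ball q r ⊆ (Metric.ball (0 : ℂ) R)ᶜ := by
    intro z hz
    rw [mem_compl_iff, mem_ball_zero_iff, not_lt]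
    rw [mem_ball_iff_norm] at hz
    have h1 : ‖q‖ ≤ ‖z‖ + ‖z - q‖ := by
      have h2 := norm_sub_le z (z - q)
      rwa [sub_sub_cancel] at h2
    linarith
  have h1 : ∫ z in Metric.ball q r, (1 - c.h z) ^ 2 ≤ ε ^ 2 * π * r ^ 2 / 8 :=
    (setIntegral_mono_set hc.int_pot.integrableOn (ae_of_all _ fun z => sq_nonneg _)
      (HasSubset.Subset.eventuallyLE hsub)).trans hR.le
  have hhi : IntegrableOn c.h (Metric.ball q r) :=
    (hc.sh.continuous.continuousOn.integrableOn_compact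
      (isCompact_closedBall q r)).mono_set Metric.ball_subset_closedBall
  have hone : IntegrableOn (fun _ : ℂ => (1 : ℝ)) (Metric.ball q r) :=
    (continuous_const.continuousOn.integrableOn_compact
      (isCompact_closedBall q r)).mono_set Metric.ball_subset_closedBall
  have hvol : ∫ _ in Metric.ball q r, (1 : ℝ) = π * r ^ 2 := by
    rw [setIntegral_const, vol_real q hr0.le, smul_eq_mul, mul_one]
  have h2 : |∫ z in Metric.ball q r, (1 - c.h z)| ≤ π * r ^ 2 * (3 * ε / 8) := by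
    have h3 : |∫ z in Metric.ball q r, (1 - c.h z)| ≤
        ∫ z in Metric.ball q r, ((ε / 4) * 1 + (1 / ε) * (1 - c.h z) ^ 2) := by
      have h4 : ‖∫ z in Metric.ball q r, (1 - c.h z)‖ ≤
          ∫ z in Metric.ball q r, ‖1 - c.h z‖ := norm_integral_le_integral_norm _
      rw [Real.norm_eq_abs] at h4
      refine h4.trans ?_
      refine setIntegral_mono (hone.sub hhi).norm
        ((hone.const_mul (ε / 4)).add (hc.int_pot.integrableOn.const_mul (1 / ε))) ?_
      intro z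
      have h5 : ‖1 - c.h z‖ ≤ ε / 4 * 1 + 1 / ε * (1 - c.h z) ^ 2 := by
        rw [Real.norm_eq_abs]
        have h6 : (1 - c.h z) ^ 2 = |1 - c.h z| ^ 2 := (sq_abs _).symm
        rw [h6]
        have h7 : 0 ≤ (|1 - c.h z| - ε / 2) ^ 2 / ε := by positivity
        have h8 : (|1 - c.h z| - ε / 2) ^ 2 / ε =
            1 / ε * |1 - c.h z| ^ 2 - |1 - c.h z| + ε / 4 := by
          field_simp
          ring
        linarith
      exact h5
    rw [integral_add (hone.const_mul (ε / 4)) (hc.int_pot.integrableOn.const_mul (1 / ε)),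
      integral_const_mul, integral_const_mul, hvol] at h3
    have h4 : 1 / ε * ∫ z in Metric.ball q r, (1 - c.h z) ^ 2 ≤ ε * π * r ^ 2 / 8 := by
      calc 1 / ε * ∫ z in Metric.ball q r, (1 - c.h z) ^ 2 ≤ 1 / ε * (ε ^ 2 * π * r ^ 2 / 8) :=
            mul_le_mul_of_nonneg_left h1 (by positivity)
        _ = ε * π * r ^ 2 / 8 := by field_simp
    calc |∫ z in Metric.ball q r, (1 - c.h z)| ≤ _ := h3
      _ ≤ ε / 4 * (π * r ^ 2) + ε * π * r ^ 2 / 8 := by linarith
      _ = π * r ^ 2 * (3 * ε / 8) := by ring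
  have h3 := ball_avg hc.sh q hr0.le
  have h4 := hB q r hr0 hr1
  have h5 : r ^ 2 / 2 * ∫ ρ in (0 : ℝ)..r, gr c.h q ρ ≤ r ^ 2 / 2 * ε :=
    mul_le_mul_of_nonneg_left (h4.trans hr.le) (by positivity)
  have h6 : ∫ z in Metric.ball q r, (1 - c.h z) =
      π * r ^ 2 - ∫ z in Metric.ball q r, c.h z := by
    rw [integral_sub hone hhi, hvol]
  have h7 : π * r ^ 2 * (1 - c.h q) = (∫ z in Metric.ball q r, (1 - c.h z)) +
      ((∫ z in Metric.ball q r, c.h z) - π * r ^ 2 * c.h q) := by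
    rw [h6]
    ring
  have h8 : π * r ^ 2 * |1 - c.h q| ≤ π * r ^ 2 * (3 * ε / 8) + r ^ 2 / 2 * ε := by
    have h9 : π * r ^ 2 * |1 - c.h q| = |π * r ^ 2 * (1 - c.h q)| := by
      rw [abs_mul, abs_of_pos (by positivity : 0 < π * r ^ 2)]
    rw [h9, h7]
    exact (abs_add_le _ _).trans (add_le_add h2 (h3.trans h5))
  have h9 : r ^ 2 / 2 * ε ≤ π * r ^ 2 * (ε / 4) := by
    have h10 : (2 : ℝ) ≤ π := Real.two_le_pi
    have h11 : 0 < r ^ 2 * ε := by positivity
    nlinarith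
  have h10 : π * r ^ 2 * |1 - c.h q| < π * r ^ 2 * ε := by
    have h11 : 0 < π * r ^ 2 * ε := by positivity
    linarith
  exact lt_of_mul_lt_mul_left h10 (by positivity)

end D

end GO3
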