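import Mathlib

/-! GO3 / D / Mor: a Morrey type bound in one variable (part D, helper85). Pure calculus.

On `[r/2, r]`, with `λ = r ^ (-κ/2)`: `g ρ ≤ (λ ρ g² + 1/(λ ρ))/2`, so
`∫_{r/2}^r g ≤ (λ C r^κ + log 2 / λ)/2 ≤ ((C + 1)/2) r^(κ/2)`. Put `B = ((C + 1)/2) / (1 - 2^(-κ/2))`; induction on `J`:
`∫_0^r g ≤ ∫_0^{r/2^J} g + B (r^(κ/2) - (r/2^J)^(κ/2))`, because `(r^(κ/2) - (r/2)^(κ/2)) = (1 - 2^(-κ/2)) r^(κ/2)`.
`J → ∞`: the first term tends to `0` (`g` is bounded near `0`). -/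

open MeasureTheory Filter Topology Set

namespace GO3

namespace D

private theorem step_int {g : ℝ → ℝ} (hg : Continuous g) {C κ : ℝ} (hκ : 0 < κ)
    (h : ∀ s, 0 < s → s ≤ 1 → ∫ ρ in (0 : ℝ)..s, ρ * g ρ ^ 2 ≤ C * s ^ κ) {s : ℝ} (hs : 0 < s)
    (hs1 : s ≤ 1) : ∫ ρ in (s / 2)..s, g ρ ≤ (C + 1) / 2 * s ^ (κ / 2) := by
  have hL : 0 < s ^ (-(κ / 2)) := Real.rpow_pos_of_pos hs _
  have hm : 0 < s ^ (κ / 2) := Real.rpow_pos_of_pos hs _
  have e1 : s ^ (-(κ / 2)) * s ^ κ = s ^ (κ / 2) := by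
    rw [← Real.rpow_add hs]
    congr 1
    ring
  have e2 : (s ^ (-(κ / 2)))⁻¹ = s ^ (κ / 2) := by
    rw [Real.rpow_neg hs.le, inv_inv]
  generalize hLd : s ^ (-(κ / 2)) = l at *
  have hc1 : Continuous fun ρ : ℝ => ρ * g ρ ^ 2 := continuous_id.mul (hg.pow 2)
  have hi1 : ∀ a b, IntervalIntegrable (fun ρ : ℝ => ρ * g ρ ^ 2) volume a b := fun a b =>
    hc1.intervalIntegrable a b
  have hi2 : IntervalIntegrable (fun ρ : ℝ => ρ⁻¹) volume (s / 2) s := by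
    apply ContinuousOn.intervalIntegrable_of_Icc (by linarith)
    intro x hx
    apply (continuousAt_inv₀ _).continuousWithinAt
    have : 0 < x := by linarith [hx.1]
    exact this.ne'
  have h1 : ∫ ρ in (s / 2)..s, g ρ ≤
      ∫ ρ in (s / 2)..s, (l / 2 * (ρ * g ρ ^ 2) + l⁻¹ / 2 * ρ⁻¹) := by
    apply intervalIntegral.integral_mono_on (by linarith) (hg.intervalIntegrable _ _)
      (((hi1 _ _).const_mul _).add (hi2.const_mul _))
    intro x hx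
    have hx0 : 0 < x := by linarith [hx.1]
    have h2 : l / 2 * (x * g x ^ 2) + l⁻¹ / 2 * x⁻¹ - g x = (l * x * g x - 1) ^ 2 / (2 * (l * x)) := by
      field_simp
      ring
    have h3 : 0 ≤ (l * x * g x - 1) ^ 2 / (2 * (l * x)) := by positivity
    linarith
  rw [intervalIntegral.integral_add ((hi1 _ _).const_mul _) (hi2.const_mul _),
    intervalIntegral.integral_const_mul, intervalIntegral.integral_const_mul,
    integral_inv_of_pos (by linarith) hs, show s / (s / 2) = 2 by field_simp] at h1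
  have h2 : ∫ ρ in (s / 2)..s, ρ * g ρ ^ 2 ≤ ∫ ρ in (0 : ℝ)..s, ρ * g ρ ^ 2 := by
    rw [← intervalIntegral.integral_add_adjacent_intervals (hi1 0 (s / 2)) (hi1 (s / 2) s)]
    have h3 : 0 ≤ ∫ ρ in (0 : ℝ)..(s / 2), ρ * g ρ ^ 2 := by
      apply intervalIntegral.integral_nonneg (by linarith)
      intro x hx
      have := hx.1
      positivity
    linarith
  have h3 := h s hs hs1
  have h4 : Real.log 2 ≤ 1 := by
    have := Real.log_two_lt_d9
    linarith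
  rw [e2] at h1
  have h5 : l / 2 * ∫ ρ in (s / 2)..s, ρ * g ρ ^ 2 ≤ l / 2 * (C * s ^ κ) :=
    mul_le_mul_of_nonneg_left (h2.trans h3) (by positivity)
  have h6 : l / 2 * (C * s ^ κ) = C / 2 * s ^ (κ / 2) := by
    rw [← e1]
    ring
  have h7 : s ^ (κ / 2) / 2 * Real.log 2 ≤ s ^ (κ / 2) / 2 * 1 :=
    mul_le_mul_of_nonneg_left h4 (by positivity)
  calc ∫ ρ in (s / 2)..s, g ρ ≤ _ := h1
    _ ≤ C / 2 * s ^ (κ / 2) + s ^ (κ / 2) / 2 * 1 := by
      rw [← h6]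
      exact add_le_add h5 h7
    _ = (C + 1) / 2 * s ^ (κ / 2) := by ring

theorem int_of_growth {g : ℝ → ℝ} (hg : Continuous g) (h0 : ∀ s, 0 ≤ g s) {C κ : ℝ} (hC : 0 ≤ C)
    (hκ : 0 < κ) (h : ∀ s, 0 < s → s ≤ 1 → ∫ ρ in (0 : ℝ)..s, ρ * g ρ ^ 2 ≤ C * s ^ κ) :
    ∃ B : ℝ, 0 ≤ B ∧ (B = ((C + 1) / 2) / (1 - 2 ^ (-(κ / 2)))) ∧
      ∀ r : ℝ, 0 < r → r ≤ 1 → ∫ ρ in (0 : ℝ)..r, g ρ ≤ B * r ^ (κ / 2) := by
  have hq0 : (0 : ℝ) < 2 ^ (-(κ / 2)) := Real.rpow_pos_of_pos two_pos _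
  have hq1 : (2 : ℝ) ^ (-(κ / 2)) < 1 :=
    Real.rpow_lt_one_of_one_lt_of_neg one_lt_two (by linarith)
  refine ⟨((C + 1) / 2) / (1 - 2 ^ (-(κ / 2))), div_nonneg (by linarith) (by linarith), rfl, ?_⟩
  intro r hr hr1
  have hBq : ((C + 1) / 2) / (1 - 2 ^ (-(κ / 2))) * (1 - 2 ^ (-(κ / 2))) = (C + 1) / 2 :=
    div_mul_cancel₀ _ (by linarith)
  generalize ((C + 1) / 2) / (1 - 2 ^ (-(κ / 2))) = B at *
  obtain ⟨φ, hφd⟩ : ∃ φ : ℝ → ℝ, ∀ s, φ s = (∫ ρ in (0 : ℝ)..s, g ρ) - B * s ^ (κ / 2) :=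
    ⟨_, fun _ => rfl⟩
  have hφ : Continuous φ := by
    have h1 : φ = fun s => (∫ ρ in (0 : ℝ)..s, g ρ) - B * s ^ (κ / 2) := funext hφd
    rw [h1]
    exact (intervalIntegral.continuous_primitive (fun a b => hg.intervalIntegrable a b) 0).sub
      (continuous_const.mul (Real.continuous_rpow_const (by linarith)))
  have hφ0 : φ 0 = 0 := by
    rw [hφd, intervalIntegral.integral_same, Real.zero_rpow (by linarith)]
    ring
  have h1 : ∀ s, 0 < s → s ≤ 1 → φ s ≤ φ (s / 2) := by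
    intro s hs hs1
    rw [hφd, hφd, ← intervalIntegral.integral_add_adjacent_intervals
      (hg.intervalIntegrable 0 (s / 2)) (hg.intervalIntegrable (s / 2) s)]
    have h2 := step_int hg hκ h hs hs1
    have h3 : (s / 2) ^ (κ / 2) = 2 ^ (-(κ / 2)) * s ^ (κ / 2) := by
      rw [Real.div_rpow hs.le (by norm_num), Real.rpow_neg (by norm_num)]
      field_simp
    rw [h3, ← hBq] at *
    linarith
  have h2 : ∀ J : ℕ, φ r ≤ φ (r / 2 ^ J) := by
    intro J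
    induction J with
    | zero => rw [pow_zero, div_one]
    | succ J ih =>
      have h3 : r / 2 ^ J ≤ 1 := by
        have h4 : (1 : ℝ) ≤ 2 ^ J := one_le_pow₀ (by norm_num)
        rw [div_le_one (by positivity)]
        linarith
      have h4 := h1 (r / 2 ^ J) (by positivity) h3
      rw [div_div, ← pow_succ] at h4
      exact ih.trans h4
  have h3 : Tendsto (fun J : ℕ => φ (r / 2 ^ J)) atTop (𝓝 (φ 0)) := by
    apply (hφ.tendsto 0).comp
    have h4 : Tendsto (fun J : ℕ => r * (1 / 2 : ℝ) ^ J) atTop (𝓝 (r * 0)) :=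
      (tendsto_pow_atTop_nhds_zero_of_lt_one (by norm_num) (by norm_num)).const_mul r
    rw [mul_zero] at h4
    refine h4.congr fun J => ?_
    rw [one_div, inv_pow, div_eq_mul_inv]
  have h4 := ge_of_tendsto' h3 h2
  rw [hφ0, hφd] at h4
  linarith

end D

end GO3
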