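import Pool.Agent.GO3.D.Green

/-! One strip of the lifting construction (part D5). -/

open MeasureTheory Filter Topology Set
open scoped ContDiff ComplexConjugate Interval

noncomputable section

namespace GO3.D

/-- area density of `(W, H)` in the `(r, χ)` plane -/
def jp (W : ℝ × ℝ → ℂ) (H : ℝ × ℝ → ℝ) (p : ℝ × ℝ) : ℝ :=
  jac (W p) (fderiv ℝ W p (1, 0)) (fderiv ℝ W p (0, 1)) (H p) (fderiv ℝ H p (1, 0))
    (fderiv ℝ H p (0, 1))

/-- hypotheses on the map `(W, H)` of the strip `ℝ × [0, α]`, `κ = e^{iα}` -/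
structure Mp (W : ℝ × ℝ → ℂ) (H : ℝ × ℝ → ℝ) (α : ℝ) (κ : ℂ) : Prop where
  sW : ContDiff ℝ ∞ W
  sH : ContDiff ℝ ∞ H
  unit : ∀ p, W p * conj (W p) + (H p : ℂ) ^ 2 = 1
  r0 : ∀ r, (W (r, 0)).im = 0
  r1 : ∀ r, (conj κ * W (r, α)).im = 0
  hκ : κ * conj κ = 1

/-- a smooth spinor over the arc of radius `r` -/
structure LiftAt (W : ℝ × ℝ → ℂ) (H : ℝ × ℝ → ℝ) (α : ℝ) (κ : ℂ) (r : ℝ) (s1 s2 : ℝ → ℂ) :
    Prop where
  c1 : ContDiff ℝ ∞ s1
  c2 : ContDiff ℝ ∞ s2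
  sp : ∀ χ, Spin (s1 χ) (s2 χ) (W (r, χ)) (H (r, χ))
  z1 : (s1 0).im = 0
  z2 : (s2 0).im = 0
  a1 : (κ * s1 α).im = 0
  a2 : (s2 α).im = 0

/-- the holonomy integral -/
def hol (s1 s2 : ℝ → ℂ) (α : ℝ) : ℝ :=
  ∫ χ in (0 : ℝ)..α, ((conj (s1 χ) * deriv s1 χ).im + (conj (s2 χ) * deriv s2 χ).im)

/-- the projection of the spinor `(x, y)` over `(w0, h0)` to the line of `(w, h)` -/
theorem spin_proj {x y w0 w : ℂ} {h0 h q : ℝ} (H0 : Spin x y w0 h0)
    (hu : w * conj w + (h : ℂ) ^ 2 = 1) (hq : q ≠ 0)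
    (hN : 2 * q ^ 2 = 1 + h * h0 + (conj w0 * w).re) :
    Spin (((1 + h) * x + conj w * y) / (2 * q : ℝ)) ((w * x + (1 - h) * y) / (2 * q : ℝ)) w h := by
  have hq' : (q : ℂ) ≠ 0 := by exact_mod_cast hq
  have hN' : 4 * (q : ℂ) ^ 2 = 2 + 2 * (h * h0) + (conj w0 * w + w0 * conj w) := by
    have h1 : (((conj w0 * w).re : ℝ) : ℂ) = (conj w0 * w + w0 * conj w) / 2 := by
      rw [Complex.re_eq_add_conj]
      simp
    have h2 : ((2 * q ^ 2 : ℝ) : ℂ) = ((1 + h * h0 + (conj w0 * w).re : ℝ) : ℂ) := by rw [hN]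
    push_cast at h2
    rw [h1] at h2
    linear_combination 2 * h2
  have e1 := H0.unit
  have e2 := H0.hw
  have e3 := H0.hh
  have e2' : conj w0 = 2 * (x * conj y) := by
    rw [e2]
    simp only [map_mul, map_ofNat, Complex.conj_conj]
  have hr : conj (h : ℂ) = h := Complex.conj_ofReal h
  have x2 : x * conj x = (1 + h0) / 2 := by linear_combination (1 / 2 : ℂ) * e1 - (1 / 2 : ℂ) * e3
  have y2 : y * conj y = (1 - h0) / 2 := by linear_combination (1 / 2 : ℂ) * e1 + (1 / 2 : ℂ) * e3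
  have xy : conj x * y = w0 / 2 := by rw [e2]; ring
  have yx : x * conj y = conj w0 / 2 := by rw [e2']; ring
  have cr : conj (((2 * q : ℝ)) : ℂ) = ((2 * q : ℝ) : ℂ) := Complex.conj_ofReal _
  have q2 : ((2 * q : ℝ) : ℂ) ≠ 0 := by
    push_cast
    exact mul_ne_zero two_ne_zero hq'
  have A1 : ((1 + h) * x + conj w * y) * conj ((1 + h) * x + conj w * y) =
      (1 + h) * (2 * (q : ℂ) ^ 2) := by
    simp only [map_add, map_mul, map_one, Complex.conj_ofReal, Complex.conj_conj]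
    linear_combination (1 + (h : ℂ)) ^ 2 * x2 + (w * conj w) * y2 +
      (1 + (h : ℂ)) * w * yx + (1 + (h : ℂ)) * conj w * xy +
      ((1 - (h0 : ℂ)) / 2) * hu - (1 + (h : ℂ)) / 2 * hN'
  have A2 : (w * x + (1 - h) * y) * conj (w * x + (1 - h) * y) =
      (1 - h) * (2 * (q : ℂ) ^ 2) := by
    simp only [map_add, map_mul, map_one, map_sub, Complex.conj_ofReal]
    linear_combination (1 - (h : ℂ)) ^ 2 * y2 + (w * conj w) * x2 +
      (1 - (h : ℂ)) * w * yx + (1 - (h : ℂ)) * conj w * xy +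
      ((1 + (h0 : ℂ)) / 2) * hu - (1 - (h : ℂ)) / 2 * hN'
  have A3 : conj ((1 + h) * x + conj w * y) * (w * x + (1 - h) * y) = w * (2 * (q : ℂ) ^ 2) := by
    simp only [map_add, map_mul, map_one, Complex.conj_ofReal, Complex.conj_conj]
    linear_combination (1 + (h : ℂ)) * w * x2 + (1 - (h : ℂ)) * w * y2 +
      (1 - (h : ℂ) ^ 2) * xy + w ^ 2 * yx - w0 / 2 * hu - w / 2 * hN'
  constructor
  · rw [map_div₀, map_div₀, cr]
    rw [div_mul_div_comm, div_mul_div_comm, A1, A2]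
    field_simp
    push_cast
    ring
  · rw [map_div₀, cr, div_mul_div_comm, A3]
    field_simp
    push_cast
    ring
  · rw [map_div₀, map_div₀, cr]
    rw [div_mul_div_comm, div_mul_div_comm, A1, A2]
    field_simp
    push_cast
    ring

/-- `Im (conj g g') = 0` for a curve `g` on a real line through the origin -/
theorem im_zero_of_line {g : ℝ → ℂ} {κ : ℂ} {r : ℝ} {g' : ℂ} (hκ : κ * conj κ = 1)
    (h : ∀ᶠ x in 𝓝 r, (κ * g x).im = 0) (hg : HasDerivAt g g' r) : (conj (g r) * g').im = 0 := by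
  have h1 : HasDerivAt (fun x => (κ * g x).im) (κ * g').im r :=
    Complex.imCLM.hasFDerivAt.comp_hasDerivAt r (hg.const_mul κ)
  have h2 : (κ * g').im = 0 := by
    have h3 : HasDerivAt (fun _ : ℝ => (0 : ℝ)) (κ * g').im r := h1.congr_of_eventuallyEq
      (h.mono fun x hx => hx.symm)
    exact h3.unique (hasDerivAt_const r 0)
  have h3 : (κ * g r).im = 0 := h.self_of_nhds
  have e : conj (g r) * g' = conj (κ * g r) * (κ * g') := by
    rw [map_mul]
    linear_combination (-(conj (g r) * g')) * hκ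
  rw [e, Complex.mul_im, Complex.conj_re, Complex.conj_im, h2, h3]
  ring

end GO3.D
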