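import Pool.Agent.GO3.D.Step

/-! The strip step (part D5): extending a spinor lift across a thin strip. -/

open MeasureTheory Filter Topology Set
open scoped ContDiff ComplexConjugate Interval

noncomputable section

namespace GO3.D

/-- sum of the two components of the Berry connection -/
def bc2 (S1 S2 : ℝ × ℝ → ℂ) (v : ℝ × ℝ) (p : ℝ × ℝ) : ℝ := bc S1 v p + bc S2 v p

/-- Green's formula for two components. -/
theorem green2 {O : Set (ℝ × ℝ)} (hO : IsOpen O) {S1 S2 : ℝ × ℝ → ℂ}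
    (hS1 : ContDiffOn ℝ ∞ S1 O) (hS2 : ContDiffOn ℝ ∞ S2 O)
    {a₁ a₂ b₁ b₂ : ℝ} (hR : [[a₁, b₁]] ×ˢ [[a₂, b₂]] ⊆ O) {k : ℝ × ℝ → ℝ}
    (hk : ∀ p ∈ O, k p = 2 * (conj (pd S1 (1, 0) p) * pd S1 (0, 1) p).im +
      2 * (conj (pd S2 (1, 0) p) * pd S2 (0, 1) p).im) :
    (∫ x in a₁..b₁, ∫ y in a₂..b₂, k (x, y)) =
      (∫ y in a₂..b₂, bc2 S1 S2 (0, 1) (b₁, y)) - (∫ y in a₂..b₂, bc2 S1 S2 (0, 1) (a₁, y)) -
      (∫ x in a₁..b₁, bc2 S1 S2 (1, 0) (x, b₂)) + ∫ x in a₁..b₁, bc2 S1 S2 (1, 0) (x, a₂) := by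
  have hsub : Ioo (min a₁ b₁) (max a₁ b₁) ×ˢ Ioo (min a₂ b₂) (max a₂ b₂) ⊆ O :=
    (Set.prod_mono Ioo_subset_Icc_self Ioo_subset_Icc_self).trans hR
  have hf : ContDiffOn ℝ ∞ (bc2 S1 S2 (0, 1)) O :=
    (bc_contDiffOn hO hS1 (0, 1)).add (bc_contDiffOn hO hS2 (0, 1))
  have hg0 : ContDiffOn ℝ ∞ (bc2 S1 S2 (1, 0)) O :=
    (bc_contDiffOn hO hS1 (1, 0)).add (bc_contDiffOn hO hS2 (1, 0))
  have hg := hg0.neg
  have hdiff : ∀ {S : ℝ × ℝ → ℂ}, ContDiffOn ℝ ∞ S O → ∀ p ∈ O, ∀ v,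
      DifferentiableAt ℝ (bc S v) p := fun hS p hp v =>
    ((bc_contDiffOn hO hS v).contDiffAt (hO.mem_nhds hp)).differentiableAt (by simp)
  have hdiv : ∀ p ∈ O, fderiv ℝ (bc2 S1 S2 (0, 1)) p (1, 0) +
      (-fderiv ℝ (bc2 S1 S2 (1, 0)) p) (0, 1) = k p := by
    intro p hp
    have hsym : ∀ {S : ℝ × ℝ → ℂ}, ContDiffOn ℝ ∞ S O →
        fderiv ℝ (fderiv ℝ S) p (1, 0) (0, 1) = fderiv ℝ (fderiv ℝ S) p (0, 1) (1, 0) := by
      intro S hS
      have := (hS.contDiffAt (hO.mem_nhds hp)).isSymmSndFDerivAt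
        (by simp; exact WithTop.coe_le_coe.mpr le_top)
      exact this (1, 0) (0, 1)
    have e1 : ∀ v, fderiv ℝ (bc2 S1 S2 v) p = fderiv ℝ (bc S1 v) p + fderiv ℝ (bc S2 v) p :=
      fun v => fderiv_add (hdiff hS1 p hp v) (hdiff hS2 p hp v)
    rw [hk p hp, e1, e1, _root_.neg_apply, _root_.add_apply, _root_.add_apply,
      bc_fderiv hO hS1 hp, bc_fderiv hO hS1 hp, bc_fderiv hO hS2 hp, bc_fderiv hO hS2 hp,
      hsym hS1, hsym hS2]
    simp only [Complex.add_im, Complex.mul_im, Complex.conj_re, Complex.conj_im]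
    ring
  have key := integral2_divergence_prod_of_hasFDerivAt (bc2 S1 S2 (0, 1))
    (fun p => -bc2 S1 S2 (1, 0) p)
    (fun p => fderiv ℝ (bc2 S1 S2 (0, 1)) p) (fun p => -fderiv ℝ (bc2 S1 S2 (1, 0)) p) a₁ a₂ b₁ b₂
    (hf.continuousOn.mono hR) (hg.continuousOn.mono hR)
    (fun p hp => ((hf.contDiffAt (hO.mem_nhds (hsub hp))).differentiableAt (by simp)).hasFDerivAt)
    (fun p hp => ((hg0.contDiffAt
      (hO.mem_nhds (hsub hp))).differentiableAt (by simp)).hasFDerivAt.neg)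
    (by
      have hc : ContinuousOn (fun p => 2 * (conj (pd S1 (1, 0) p) * pd S1 (0, 1) p).im +
          2 * (conj (pd S2 (1, 0) p) * pd S2 (0, 1) p).im) O := by
        have h3 : ∀ {S : ℝ × ℝ → ℂ}, ContDiffOn ℝ ∞ S O →
            ContinuousOn (fun p => (conj (pd S (1, 0) p) * pd S (0, 1) p).im) O := fun hS =>
          Complex.continuous_im.comp_continuousOn
            ((Complex.continuous_conj.comp_continuousOn
              (pd_contDiffOn hO hS (1, 0)).continuousOn).mul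
              (pd_contDiffOn hO hS (0, 1)).continuousOn)
        exact (continuousOn_const.mul (h3 hS1)).add (continuousOn_const.mul (h3 hS2))
      have hc' : ContinuousOn (fun p => fderiv ℝ (bc2 S1 S2 (0, 1)) p (1, 0) +
          (-fderiv ℝ (bc2 S1 S2 (1, 0)) p) (0, 1)) O :=
        hc.congr fun p hp => (hdiv p hp).trans (hk p hp)
      exact (hc'.mono hR).integrableOn_compact (isCompact_uIcc.prod isCompact_uIcc))
  have e1 : (∫ x in a₁..b₁, ∫ y in a₂..b₂, k (x, y)) = ∫ x in a₁..b₁, ∫ y in a₂..b₂,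
      (fderiv ℝ (bc2 S1 S2 (0, 1)) (x, y) (1, 0) +
        (-fderiv ℝ (bc2 S1 S2 (1, 0)) (x, y)) (0, 1)) := by
    refine intervalIntegral.integral_congr fun x hx => ?_
    refine intervalIntegral.integral_congr fun y hy => ?_
    exact (hdiv (x, y) (hR ⟨hx, hy⟩)).symm
  rw [e1, key]
  simp only [intervalIntegral.integral_neg]
  ring

/-- Lagrange identity for two tangent vectors of the unit sphere of `ℂ²` -/
theorem lagr {s1 s2 a1 a2 b1 b2 : ℂ} (hu : s1 * conj s1 + s2 * conj s2 = 1)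
    (ha : a1 * conj s1 + s1 * conj a1 + a2 * conj s2 + s2 * conj a2 = 0)
    (hb : b1 * conj s1 + s1 * conj b1 + b2 * conj s2 + s2 * conj b2 = 0) :
    (conj a1 * b1).im + (conj a2 * b2).im =
      (conj (s1 * a2 - s2 * a1) * (s1 * b2 - s2 * b1)).im := by
  have im_eq : ∀ z : ℂ, (z.im : ℂ) = (z - conj z) / (2 * Complex.I) := by
    intro z
    rw [Complex.sub_conj]
    field_simp
    push_cast
    ring
  have key : (((conj a1 * b1).im + (conj a2 * b2).im : ℝ) : ℂ) =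
      (((conj (s1 * a2 - s2 * a1) * (s1 * b2 - s2 * b1)).im : ℝ) : ℂ) := by
    push_cast
    rw [im_eq, im_eq, im_eq]
    simp only [map_mul, map_sub, Complex.conj_conj]
    field_simp
    linear_combination (-(conj a1 * b1 + conj a2 * b2 - a1 * conj b1 - a2 * conj b2)) * hu +
      (b1 * conj s1 + b2 * conj s2) * ha - (a1 * conj s1 + a2 * conj s2) * hb
  exact_mod_cast key

theorem diff_conj {f : ℝ × ℝ → ℂ} {p : ℝ × ℝ} (hf : DifferentiableAt ℝ f p) :
    DifferentiableAt ℝ (fun q => conj (f q)) p :=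
  ((Complex.conjCLE : ℂ →L[ℝ] ℂ).hasFDerivAt.comp p hf.hasFDerivAt).differentiableAt

/-- derivative of `f * conj g` -/
theorem fderiv_mul_conj {f g : ℝ × ℝ → ℂ} {p : ℝ × ℝ} (hf : DifferentiableAt ℝ f p)
    (hg : DifferentiableAt ℝ g p) (v : ℝ × ℝ) :
    fderiv ℝ (fun q => f q * conj (g q)) p v =
      fderiv ℝ f p v * conj (g p) + f p * conj (fderiv ℝ g p v) := by
  have hconj : HasFDerivAt (fun q => conj (g q)) ((Complex.conjCLE : ℂ →L[ℝ] ℂ).comp
      (fderiv ℝ g p)) p :=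
    (Complex.conjCLE : ℂ →L[ℝ] ℂ).hasFDerivAt.comp p hg.hasFDerivAt
  have hm : HasFDerivAt (fun q => f q * conj (g q)) _ p := hf.hasFDerivAt.mul hconj
  rw [hm.fderiv]
  simp
  ring

/-- the pointwise identity on an open set carrying a smooth spinor -/
theorem curv_eq {O : Set (ℝ × ℝ)} (hO : IsOpen O) {W : ℝ × ℝ → ℂ} {H : ℝ × ℝ → ℝ}
    (hH : ContDiff ℝ ∞ H) {S1 S2 : ℝ × ℝ → ℂ}
    (hS1 : ContDiffOn ℝ ∞ S1 O) (hS2 : ContDiffOn ℝ ∞ S2 O)
    (hsp : ∀ p ∈ O, Spin (S1 p) (S2 p) (W p) (H p)) {p : ℝ × ℝ} (hp : p ∈ O) :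
    1 / 2 * jp W H p = 2 * (conj (pd S1 (1, 0) p) * pd S1 (0, 1) p).im +
      2 * (conj (pd S2 (1, 0) p) * pd S2 (0, 1) p).im := by
  have hn := hO.mem_nhds hp
  have d1 : DifferentiableAt ℝ S1 p := (hS1.contDiffAt hn).differentiableAt (by simp)
  have d2 : DifferentiableAt ℝ S2 p := (hS2.contDiffAt hn).differentiableAt (by simp)
  have hu := (hsp p hp).unit
  -- tangency
  have ht : ∀ v, pd S1 v p * conj (S1 p) + S1 p * conj (pd S1 v p) +
      pd S2 v p * conj (S2 p) + S2 p * conj (pd S2 v p) = 0 := by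
    intro v
    have h1 : (fun q => S1 q * conj (S1 q) + S2 q * conj (S2 q)) =ᶠ[𝓝 p] fun _ => (1 : ℂ) := by
      filter_upwards [hn] with q hq using (hsp q hq).unit
    have h2 := h1.fderiv_eq (𝕜 := ℝ)
    have dd1 : DifferentiableAt ℝ (fun q => S1 q * conj (S1 q)) p :=
      d1.mul (diff_conj d1)
    have dd2 : DifferentiableAt ℝ (fun q => S2 q * conj (S2 q)) p :=
      d2.mul (diff_conj d2)
    have h3 : fderiv ℝ (fun q => S1 q * conj (S1 q) + S2 q * conj (S2 q)) p v =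
        pd S1 v p * conj (S1 p) + S1 p * conj (pd S1 v p) +
        (pd S2 v p * conj (S2 p) + S2 p * conj (pd S2 v p)) := by
      have : fderiv ℝ (fun q => S1 q * conj (S1 q) + S2 q * conj (S2 q)) p =
          fderiv ℝ (fun q => S1 q * conj (S1 q)) p + fderiv ℝ (fun q => S2 q * conj (S2 q)) p :=
        fderiv_add dd1 dd2
      rw [this, _root_.add_apply, fderiv_mul_conj d1 d1, fderiv_mul_conj d2 d2]
      rfl
    rw [h2] at h3
    simp at h3
    linear_combination -h3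
  have hWd : ∀ v, fderiv ℝ W p v =
      2 * (conj (pd S1 v p) * S2 p + conj (S1 p) * pd S2 v p) := by
    intro v
    have h1 : W =ᶠ[𝓝 p] fun q => 2 * (S2 q * conj (S1 q)) := by
      filter_upwards [hn] with q hq
      rw [(hsp q hq).hw]
      ring
    have dd : DifferentiableAt ℝ (fun q => S2 q * conj (S1 q)) p :=
      d2.mul (diff_conj d1)
    rw [h1.fderiv_eq, fderiv_const_mul dd, _root_.smul_apply, fderiv_mul_conj d2 d1]
    simp only [pd, smul_eq_mul]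
    ring
  have hHd : ∀ v, ((fderiv ℝ H p v : ℝ) : ℂ) =
      pd S1 v p * conj (S1 p) + S1 p * conj (pd S1 v p) - pd S2 v p * conj (S2 p) -
        S2 p * conj (pd S2 v p) := by
    intro v
    have h1 : (fun q => ((H q : ℝ) : ℂ)) =ᶠ[𝓝 p]
        fun q => S1 q * conj (S1 q) - S2 q * conj (S2 q) := by
      filter_upwards [hn] with q hq using (hsp q hq).hh
    have dd1 : DifferentiableAt ℝ (fun q => S1 q * conj (S1 q)) p :=
      d1.mul (diff_conj d1)
    have dd2 : DifferentiableAt ℝ (fun q => S2 q * conj (S2 q)) p :=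
      d2.mul (diff_conj d2)
    have h2 : fderiv ℝ (fun q => ((H q : ℝ) : ℂ)) p v = ((fderiv ℝ H p v : ℝ) : ℂ) := by
      have h4 : HasFDerivAt H (fderiv ℝ H p) p := (hH.differentiable (by simp) p).hasFDerivAt
      have h3 : HasFDerivAt (fun q => ((H q : ℝ) : ℂ)) (Complex.ofRealCLM.comp (fderiv ℝ H p)) p :=
        Complex.ofRealCLM.hasFDerivAt.comp p h4
      rw [h3.fderiv]
      simp
    rw [← h2, h1.fderiv_eq]
    have : fderiv ℝ (fun q => S1 q * conj (S1 q) - S2 q * conj (S2 q)) p =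
        fderiv ℝ (fun q => S1 q * conj (S1 q)) p - fderiv ℝ (fun q => S2 q * conj (S2 q)) p :=
      fderiv_sub dd1 dd2
    rw [this, _root_.sub_apply, fderiv_mul_conj d1 d1, fderiv_mul_conj d2 d2]
    simp only [pd]
    ring
  have hj : jp W H p = 4 * (conj (S1 p * pd S2 (1, 0) p - S2 p * pd S1 (1, 0) p) *
      (S1 p * pd S2 (0, 1) p - S2 p * pd S1 (0, 1) p)).im := by
    unfold jp
    exact jac_eq (hsp p hp) (hopf_w hu (ht _) (hWd _)) (hopf_w hu (ht _) (hWd _))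
      (hopf_h hu (ht _) (hHd _)) (hopf_h hu (ht _) (hHd _))
  rw [hj, ← lagr hu (ht _) (ht _)]
  ring

end GO3.D
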