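import Pool.Agent.GO3.D.Strip

/-! The strip step (part D5): conclusion. -/

open MeasureTheory Filter Topology Set
open scoped ContDiff ComplexConjugate Interval

noncomputable section

namespace GO3.D

theorem strip {W : ℝ × ℝ → ℂ} {H : ℝ × ℝ → ℝ} {α : ℝ} {κ : ℂ} (M : Mp W H α κ) {r0 η : ℝ}
    (hη : 0 < η)
    (hnear : ∀ r ∈ Ioo (r0 - η) (r0 + η), ∀ χ,
      0 < 1 + H (r, χ) * H (r0, χ) + (conj (W (r0, χ)) * W (r, χ)).re)
    {s1 s2 : ℝ → ℂ} (L : LiftAt W H α κ r0 s1 s2) {r1 : ℝ} (h1 : r1 ∈ Ioo (r0 - η) (r0 + η)) :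
    ∃ t1 t2, LiftAt W H α κ r1 t1 t2 ∧
      hol t1 t2 α = hol s1 s2 α + ∫ r in r0..r1, ∫ χ in (0 : ℝ)..α, 1 / 2 * jp W H (r, χ) := by
  set N : ℝ × ℝ → ℝ := fun p =>
    (1 + H p * H (r0, p.2) + (conj (W (r0, p.2)) * W p).re) / 2 with hN
  set q : ℝ × ℝ → ℝ := fun p => Real.sqrt (N p) with hq
  set O : Set (ℝ × ℝ) := Ioo (r0 - η) (r0 + η) ×ˢ univ with hO
  have hOo : IsOpen O := isOpen_Ioo.prod isOpen_univ
  have hNpos : ∀ p ∈ O, 0 < N p := by
    rintro ⟨r, χ⟩ ⟨hr, -⟩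
    have := hnear r hr χ
    simp only [hN]
    linarith
  have hqpos : ∀ p ∈ O, q p ≠ 0 := fun p hp => (Real.sqrt_pos.mpr (hNpos p hp)).ne'
  have hq2 : ∀ p ∈ O, 2 * q p ^ 2 = 1 + H p * H (r0, p.2) + (conj (W (r0, p.2)) * W p).re := by
    intro p hp
    rw [hq]
    simp only
    rw [Real.sq_sqrt (hNpos p hp).le]
    simp only [hN]
    ring
  -- smoothness
  have cproj : ContDiff ℝ ∞ (fun p : ℝ × ℝ => ((r0, p.2) : ℝ × ℝ)) :=
    contDiff_const.prodMk contDiff_snd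
  have cW0 : ContDiff ℝ ∞ (fun p : ℝ × ℝ => W (r0, p.2)) := M.sW.comp cproj
  have cH0 : ContDiff ℝ ∞ (fun p : ℝ × ℝ => H (r0, p.2)) := M.sH.comp cproj
  have cN : ContDiff ℝ ∞ N := by
    have h2 : ContDiff ℝ ∞ (fun p => conj (W (r0, p.2)) * W p) :=
      (Complex.conjCLE.contDiff.comp cW0).mul M.sW
    have h3 : ContDiff ℝ ∞ (fun p => (conj (W (r0, p.2)) * W p).re) :=
      Complex.reCLM.contDiff.comp h2
    exact ((contDiff_const.add (M.sH.mul cH0)).add h3).div_const 2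
  have cq : ContDiffOn ℝ ∞ q O :=
    cN.contDiffOn.sqrt fun p hp => (hNpos p hp).ne'
  have cq2 : ContDiffOn ℝ ∞ (fun p => ((2 * q p : ℝ) : ℂ)) O :=
    Complex.ofRealCLM.contDiff.comp_contDiffOn (contDiffOn_const.mul cq)
  have cs1 : ContDiff ℝ ∞ (fun p : ℝ × ℝ => s1 p.2) := L.c1.comp contDiff_snd
  have cs2 : ContDiff ℝ ∞ (fun p : ℝ × ℝ => s2 p.2) := L.c2.comp contDiff_snd
  have cHc : ContDiff ℝ ∞ (fun p : ℝ × ℝ => (H p : ℂ)) := Complex.ofRealCLM.contDiff.comp M.sH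
  have cWc : ContDiff ℝ ∞ (fun p : ℝ × ℝ => conj (W p)) := Complex.conjCLE.contDiff.comp M.sW
  set S1 : ℝ × ℝ → ℂ := fun p =>
    ((1 + H p) * s1 p.2 + conj (W p) * s2 p.2) / (2 * q p : ℝ) with hS1
  set S2 : ℝ × ℝ → ℂ := fun p =>
    (W p * s1 p.2 + (1 - H p) * s2 p.2) / (2 * q p : ℝ) with hS2
  have q2ne : ∀ p ∈ O, ((2 * q p : ℝ) : ℂ) ≠ 0 := by
    intro p hp
    have := hqpos p hp
    exact_mod_cast mul_ne_zero two_ne_zero this
  have cqi : ContDiffOn ℝ ∞ (fun p => (((2 * q p)⁻¹ : ℝ) : ℂ)) O :=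
    Complex.ofRealCLM.contDiff.comp_contDiffOn ((contDiffOn_const.mul cq).inv
      fun p hp => mul_ne_zero two_ne_zero (hqpos p hp))
  have cS1 : ContDiffOn ℝ ∞ S1 O := by
    have h2 : ContDiff ℝ ∞ (fun p : ℝ × ℝ => (1 + (H p : ℂ)) * s1 p.2 + conj (W p) * s2 p.2) :=
      ((contDiff_const.add cHc).mul cs1).add (cWc.mul cs2)
    refine (h2.contDiffOn.mul cqi).congr fun p _ => ?_
    rw [Complex.ofReal_inv, ← div_eq_mul_inv]
  have cS2 : ContDiffOn ℝ ∞ S2 O := by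
    have h2 : ContDiff ℝ ∞ (fun p : ℝ × ℝ => W p * s1 p.2 + (1 - (H p : ℂ)) * s2 p.2) :=
      (M.sW.mul cs1).add ((contDiff_const.sub cHc).mul cs2)
    refine (h2.contDiffOn.mul cqi).congr fun p _ => ?_
    rw [Complex.ofReal_inv, ← div_eq_mul_inv]
  have hsp : ∀ p ∈ O, Spin (S1 p) (S2 p) (W p) (H p) := fun p hp =>
    spin_proj (L.sp p.2) (M.unit p) (hqpos p hp) (hq2 p hp)
  have hcurv : ∀ p ∈ O, 1 / 2 * jp W H p = 2 * (conj (pd S1 (1, 0) p) * pd S1 (0, 1) p).im +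
      2 * (conj (pd S2 (1, 0) p) * pd S2 (0, 1) p).im := fun p hp =>
    curv_eq hOo M.sH cS1 cS2 hsp hp
  have hr0 : r0 ∈ Ioo (r0 - η) (r0 + η) := ⟨by linarith, by linarith⟩
  have hR : [[r0, r1]] ×ˢ [[(0 : ℝ), α]] ⊆ O := by
    rintro ⟨r, χ⟩ ⟨hr, -⟩
    exact ⟨ordConnected_Ioo.uIcc_subset hr0 h1 hr, mem_univ _⟩
  have hgreen := green2 hOo cS1 cS2 hR hcurv
  -- values at `r0`
  have hS1r0 : ∀ χ, S1 (r0, χ) = s1 χ := by
    intro χ
    have hp : ((r0, χ) : ℝ × ℝ) ∈ O := ⟨hr0, mem_univ _⟩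
    have hsχ := L.sp χ
    have hN1 : N (r0, χ) = 1 := by
      have hu := M.unit (r0, χ)
      have h2 : ((H (r0, χ) * H (r0, χ) + (conj (W (r0, χ)) * W (r0, χ)).re : ℝ) : ℂ) = 1 := by
        push_cast
        have : ((conj (W (r0, χ)) * W (r0, χ)).re : ℂ) = W (r0, χ) * conj (W (r0, χ)) := by
          rw [Complex.re_eq_add_conj]
          simp only [map_mul, Complex.conj_conj]
          ring
        rw [this, ← hu]
        ring
      have h3 : H (r0, χ) * H (r0, χ) + (conj (W (r0, χ)) * W (r0, χ)).re = 1 := by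
        exact_mod_cast h2
      simp only [hN]
      linarith
    have hq1 : q (r0, χ) = 1 := by
      simp only [hq, hN1, Real.sqrt_one]
    have e1 := hsχ.unit
    have e2 := hsχ.hw
    have e3 := hsχ.hh
    have e2' : conj (W (r0, χ)) = 2 * (s1 χ * conj (s2 χ)) := by
      rw [e2]
      simp only [map_mul, map_ofNat, Complex.conj_conj]
    simp only [hS1, hq1, e2']
    push_cast
    linear_combination (1 / 2 * s1 χ) * e3 + (1 / 2 * s1 χ) * e1
  have hS2r0 : ∀ χ, S2 (r0, χ) = s2 χ := by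
    intro χ
    have hp : ((r0, χ) : ℝ × ℝ) ∈ O := ⟨hr0, mem_univ _⟩
    have hsχ := L.sp χ
    have hN1 : N (r0, χ) = 1 := by
      have hu := M.unit (r0, χ)
      have h2 : ((H (r0, χ) * H (r0, χ) + (conj (W (r0, χ)) * W (r0, χ)).re : ℝ) : ℂ) = 1 := by
        push_cast
        have : ((conj (W (r0, χ)) * W (r0, χ)).re : ℂ) = W (r0, χ) * conj (W (r0, χ)) := by
          rw [Complex.re_eq_add_conj]
          simp only [map_mul, Complex.conj_conj]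
          ring
        rw [this, ← hu]
        ring
      have h3 : H (r0, χ) * H (r0, χ) + (conj (W (r0, χ)) * W (r0, χ)).re = 1 := by
        exact_mod_cast h2
      simp only [hN]
      linarith
    have hq1 : q (r0, χ) = 1 := by
      simp only [hq, hN1, Real.sqrt_one]
    have e1 := hsχ.unit
    have e2 := hsχ.hw
    have e3 := hsχ.hh
    simp only [hS2, hq1]
    push_cast
    linear_combination (1 / 2 * s1 χ) * e2 - (1 / 2 * s2 χ) * e3 + (1 / 2 * s2 χ) * e1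
  -- reality on the two rays
  have im0 : ∀ {x y : ℂ}, x.im = 0 → y.im = 0 → (x * y).im = 0 := by
    intro x y hx hy
    rw [Complex.mul_im, hx, hy]
    ring
  have imdiv : ∀ {x : ℂ} (t : ℝ), x.im = 0 → (x / (t : ℂ)).im = 0 := by
    intro x t hx
    rw [Complex.div_ofReal_im, hx, zero_div]
  have hconj0 : ∀ {x : ℂ}, x.im = 0 → (conj x).im = 0 := by
    intro x hx
    rw [Complex.conj_im, hx, neg_zero]
  have hreal1 : ∀ t : ℝ, ((1 : ℂ) + (t : ℂ)).im = 0 := by intro t; simp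
  have hreal2 : ∀ t : ℝ, ((1 : ℂ) - (t : ℂ)).im = 0 := by intro t; simp
  have z1 : ∀ r, (S1 (r, 0)).im = 0 := by
    intro r
    simp only [hS1]
    refine imdiv _ ?_
    rw [Complex.add_im, im0 (hreal1 _) L.z1, im0 (hconj0 (M.r0 r)) L.z2, add_zero]
  have z2 : ∀ r, (S2 (r, 0)).im = 0 := by
    intro r
    simp only [hS2]
    refine imdiv _ ?_
    rw [Complex.add_im, im0 (M.r0 r) L.z1, im0 (hreal2 _) L.z2, add_zero]
  have a1 : ∀ r, (κ * S1 (r, α)).im = 0 := by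
    intro r
    have hcw : (κ * conj (W (r, α))).im = 0 := by
      have := hconj0 (M.r1 r)
      rwa [map_mul, Complex.conj_conj] at this
    simp only [hS1]
    rw [← mul_div_assoc]
    refine imdiv _ ?_
    have e : κ * ((1 + (H (r, α) : ℂ)) * s1 α + conj (W (r, α)) * s2 α) =
        (1 + (H (r, α) : ℂ)) * (κ * s1 α) + (κ * conj (W (r, α))) * s2 α := by ring
    rw [e, Complex.add_im, im0 (hreal1 _) L.a1, im0 hcw L.a2, add_zero]
  have a2 : ∀ r, (S2 (r, α)).im = 0 := by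
    intro r
    simp only [hS2]
    refine imdiv _ ?_
    have e : W (r, α) * s1 α = (conj κ * W (r, α)) * (κ * s1 α) := by
      linear_combination (-(W (r, α) * s1 α)) * M.hκ
    rw [e, Complex.add_im, im0 (M.r1 r) L.a1, im0 (hreal2 _) L.a2, add_zero]
  -- radial components vanish on the rays
  have hline : ∀ {S : ℝ × ℝ → ℂ} (_ : ContDiffOn ℝ ∞ S O) {χ : ℝ} {μ : ℂ}
      (_ : μ * conj μ = 1) (_ : ∀ r, (μ * S (r, χ)).im = 0) {r : ℝ}
      (_ : r ∈ Ioo (r0 - η) (r0 + η)), bc S (1, 0) (r, χ) = 0 := by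
    intro S hS χ μ hμ hz r hr
    have hp : ((r, χ) : ℝ × ℝ) ∈ O := ⟨hr, mem_univ _⟩
    have hd : HasFDerivAt S (fderiv ℝ S (r, χ)) (r, χ) :=
      ((hS.contDiffAt (hOo.mem_nhds hp)).differentiableAt (by simp)).hasFDerivAt
    have hc : HasDerivAt (fun x : ℝ => ((x, χ) : ℝ × ℝ)) (1, 0) r :=
      (hasDerivAt_id r).prodMk (hasDerivAt_const r χ)
    have hg : HasDerivAt (fun x => S (x, χ)) (fderiv ℝ S (r, χ) (1, 0)) r :=
      hd.comp_hasDerivAt r hc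
    exact im_zero_of_line hμ (Filter.Eventually.of_forall hz) hg
  have one_unit : (1 : ℂ) * conj 1 = 1 := by simp
  have hb0 : ∀ r ∈ Ioo (r0 - η) (r0 + η), bc2 S1 S2 (1, 0) (r, 0) = 0 := by
    intro r hr
    have e1 := hline cS1 one_unit (χ := 0) (fun r => by rw [one_mul]; exact z1 r) hr
    have e2 := hline cS2 one_unit (χ := 0) (fun r => by rw [one_mul]; exact z2 r) hr
    rw [bc2, e1, e2, add_zero]
  have hbα : ∀ r ∈ Ioo (r0 - η) (r0 + η), bc2 S1 S2 (1, 0) (r, α) = 0 := by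
    intro r hr
    have e1 := hline cS1 M.hκ (χ := α) a1 hr
    have e2 := hline cS2 one_unit (χ := α) (fun r => by rw [one_mul]; exact a2 r) hr
    rw [bc2, e1, e2, add_zero]
  have hsub : ∀ x ∈ [[r0, r1]], x ∈ Ioo (r0 - η) (r0 + η) := fun x hx =>
    ordConnected_Ioo.uIcc_subset hr0 h1 hx
  have i0 : (∫ x in r0..r1, bc2 S1 S2 (1, 0) (x, 0)) = 0 := by
    rw [intervalIntegral.integral_congr (g := fun _ => (0 : ℝ)) fun x hx => hb0 x (hsub x hx)]
    simp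
  have iα : (∫ x in r0..r1, bc2 S1 S2 (1, 0) (x, α)) = 0 := by
    rw [intervalIntegral.integral_congr (g := fun _ => (0 : ℝ)) fun x hx => hbα x (hsub x hx)]
    simp
  -- slices
  have cslice : ∀ {S : ℝ × ℝ → ℂ}, ContDiffOn ℝ ∞ S O → ∀ {r : ℝ},
      r ∈ Ioo (r0 - η) (r0 + η) → ContDiff ℝ ∞ (fun χ => S (r, χ)) := by
    intro S hS r hr
    rw [← contDiffOn_univ]
    have hc : ContDiff ℝ ∞ (fun χ : ℝ => ((r, χ) : ℝ × ℝ)) := contDiff_const.prodMk contDiff_id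
    exact hS.comp hc.contDiffOn fun χ _ => ⟨hr, mem_univ _⟩
  have dslice : ∀ {S : ℝ × ℝ → ℂ}, ContDiffOn ℝ ∞ S O → ∀ {r : ℝ},
      r ∈ Ioo (r0 - η) (r0 + η) → ∀ χ, deriv (fun χ => S (r, χ)) χ = pd S (0, 1) (r, χ) := by
    intro S hS r hr χ
    have hp : ((r, χ) : ℝ × ℝ) ∈ O := ⟨hr, mem_univ _⟩
    have hd : HasFDerivAt S (fderiv ℝ S (r, χ)) (r, χ) :=
      ((hS.contDiffAt (hOo.mem_nhds hp)).differentiableAt (by simp)).hasFDerivAt
    have hc : HasDerivAt (fun x : ℝ => ((r, x) : ℝ × ℝ)) (0, 1) χ :=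
      (hasDerivAt_const χ r).prodMk (hasDerivAt_id χ)
    exact (hd.comp_hasDerivAt χ hc).deriv
  have hhol : ∀ {r : ℝ}, r ∈ Ioo (r0 - η) (r0 + η) →
      (∫ y in (0 : ℝ)..α, bc2 S1 S2 (0, 1) (r, y)) =
        hol (fun χ => S1 (r, χ)) (fun χ => S2 (r, χ)) α := by
    intro r hr
    unfold hol
    refine intervalIntegral.integral_congr fun y _ => ?_
    simp only
    rw [dslice cS1 hr, dslice cS2 hr]
    rfl
  refine ⟨fun χ => S1 (r1, χ), fun χ => S2 (r1, χ), ?_, ?_⟩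
  · exact ⟨cslice cS1 h1, cslice cS2 h1, fun χ => hsp (r1, χ) ⟨h1, mem_univ _⟩, z1 r1, z2 r1,
      a1 r1, a2 r1⟩
  · rw [hgreen, i0, iα, hhol h1, hhol hr0]
    have e1 : (fun χ => S1 (r0, χ)) = s1 := funext hS1r0
    have e2 : (fun χ => S2 (r0, χ)) = s2 := funext hS2r0
    rw [e1, e2]
    ring

end GO3.D
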